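import Mathlib

/-!
# The apolar inner product on real polynomials
-/

open MvPolynomial Finset

namespace H1.ME

variable {σ : Type*} [Fintype σ]

/-- `m!` for a multi-index. -/
noncomputable def wt (m : σ →₀ ℕ) : ℝ := ∏ i, ((m i).factorial : ℝ)

omit [Fintype σ] in
lemma wt_pos [Fintype σ] (m : σ →₀ ℕ) : 0 < wt m :=
  Finset.prod_pos fun i _ => by positivity

lemma wt_add_single [DecidableEq σ] (m : σ →₀ ℕ) (i : σ) :
    wt (m + Finsupp.single i 1) = (m i + 1) * wt m := by
  unfold wt
  rw [← Finset.mul_prod_erase _ _ (Finset.mem_univ i),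
    ← Finset.mul_prod_erase Finset.univ (fun i => ((m i).factorial : ℝ)) (Finset.mem_univ i)]
  rw [← mul_assoc]
  congr 1
  · simp [Nat.factorial_succ]
  · apply Finset.prod_congr rfl
    intro j hj
    rw [Finset.mem_erase] at hj
    simp [Finsupp.single_apply, hj.1.symm]

/-- the apolar inner product, as a linear map in the first variable -/
noncomputable def ap (g : MvPolynomial σ ℝ) : MvPolynomial σ ℝ →ₗ[ℝ] ℝ :=
  (Finsupp.lsum ℝ (fun m => (wt m * coeff m g) • (LinearMap.id : ℝ →ₗ[ℝ] ℝ))) ∘ₗ
    (MvPolynomial.basisMonomials σ ℝ).repr.toLinearMap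

lemma ap_monomial (g : MvPolynomial σ ℝ) (m : σ →₀ ℕ) (c : ℝ) :
    ap g (monomial m c) = wt m * coeff m g * c := by
  unfold ap
  have : (MvPolynomial.basisMonomials σ ℝ).repr (monomial m c) = Finsupp.single m c := by
    have h := (MvPolynomial.basisMonomials σ ℝ).repr_self m
    rw [MvPolynomial.coe_basisMonomials] at h
    have h2 : (monomial m c : MvPolynomial σ ℝ) = c • monomial m 1 := by
      simp [MvPolynomial.smul_monomial]
    rw [h2, map_smul, h]
    simp
  simp [this]

lemma ap_eq_sum (g f : MvPolynomial σ ℝ) :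
    ap g f = ∑ m ∈ f.support, wt m * coeff m g * coeff m f := by
  conv_lhs => rw [f.as_sum]
  rw [map_sum]
  exact Finset.sum_congr rfl fun m _ => ap_monomial _ _ _

lemma ap_eq_sum' (g f : MvPolynomial σ ℝ) (s : Finset (σ →₀ ℕ)) (hs : f.support ⊆ s) :
    ap g f = ∑ m ∈ s, wt m * coeff m g * coeff m f := by
  rw [ap_eq_sum]
  apply Finset.sum_subset hs
  intro m _ hm
  rw [MvPolynomial.notMem_support_iff] at hm
  simp [hm]

lemma ap_comm (g f : MvPolynomial σ ℝ) : ap g f = ap f g := by
  classical
  rw [ap_eq_sum' g f (f.support ∪ g.support) Finset.subset_union_left,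
    ap_eq_sum' f g (f.support ∪ g.support) Finset.subset_union_right]
  exact Finset.sum_congr rfl fun m _ => by ring

lemma ap_self_nonneg (f : MvPolynomial σ ℝ) : 0 ≤ ap f f := by
  rw [ap_eq_sum]
  exact Finset.sum_nonneg fun m _ => by
    have := wt_pos m
    have h2 : 0 ≤ coeff m f * coeff m f := mul_self_nonneg _
    rw [mul_assoc]; positivity

lemma ap_self_eq_zero {f : MvPolynomial σ ℝ} (h : ap f f = 0) : f = 0 := by
  rw [ap_eq_sum] at h
  rw [Finset.sum_eq_zero_iff_of_nonneg] at h
  · ext m
    by_cases hm : m ∈ f.support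
    · have := h m hm
      have hw := wt_pos m
      rw [mul_assoc] at this
      rcases mul_eq_zero.1 this with h1 | h1
      · exact absurd h1 hw.ne'
      · simpa using h1
    · simpa using MvPolynomial.notMem_support_iff.1 hm
  · intro m _
    have := wt_pos m
    have h2 : 0 ≤ coeff m f * coeff m f := mul_self_nonneg _
    rw [mul_assoc]; positivity

/-- multiplication by `X i` is adjoint to `∂ᵢ` -/
lemma ap_X_mul (g f : MvPolynomial σ ℝ) (i : σ) : ap g (X i * f) = ap (pderiv i g) f := by
  classical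
  induction f using MvPolynomial.induction_on' with
  | monomial m c =>
    have : (X i * monomial m c : MvPolynomial σ ℝ) = monomial (m + Finsupp.single i 1) c := by
      rw [X, monomial_mul, one_mul, add_comm]
    rw [this, ap_monomial, ap_monomial, wt_add_single, coeff_pderiv]
    ring
  | add p q hp hq => rw [mul_add, map_add, map_add, hp, hq]

lemma ap_left_pderiv (g f : MvPolynomial σ ℝ) (i : σ) : ap g (pderiv i f) = ap (X i * g) f := by
  rw [ap_comm, ← ap_X_mul, ap_comm]

lemma ap_add_left (g g' f : MvPolynomial σ ℝ) : ap (g + g') f = ap g f + ap g' f := by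
  rw [ap_comm, map_add, ap_comm f g, ap_comm f g']

lemma ap_sum_left {α : Type*} (s : Finset α) (g : α → MvPolynomial σ ℝ) (f : MvPolynomial σ ℝ) :
    ap (∑ a ∈ s, g a) f = ∑ a ∈ s, ap (g a) f := by
  rw [ap_comm, map_sum]
  exact Finset.sum_congr rfl fun a _ => ap_comm _ _

end H1.ME
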