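import Mathlib

/-!
# The Minkowski–Euclid space `P_{n,m}` and its invariant differential operators: definitions
-/

open scoped ContDiff Matrix

namespace MEuclid

/-- Index set of the coordinates on `P_{n,m}`: `Sum.inl s(i, j)` is the index of the coordinate
`y_{ij} = y_{ji}` (`s(i, j)` is the unordered pair), `Sum.inr (k, l)` the index of `v_{kl}`. -/
abbrev Coord (n m : ℕ) := Sym2 (Fin n) ⊕ (Fin m × Fin n)

/-- The coordinate space: real symmetric `n × n` matrices `Y` and real `m × n` matrices `V`,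
given by their coordinates. -/
abbrev Amb (n m : ℕ) := Coord n m → ℝ

variable {n m : ℕ}

/-- The symmetric matrix `Y` of a point. -/
def Y (x : Amb n m) : Matrix (Fin n) (Fin n) ℝ := fun i j => x (Sum.inl s(i, j))

/-- The `m × n` matrix `V` of a point. -/
def V (x : Amb n m) : Matrix (Fin m) (Fin n) ℝ := fun k l => x (Sum.inr (k, l))

variable (n m) in
/-- The Minkowski–Euclid space `P_{n,m} = P_n × ℝ^{(m,n)}`, as the open subset of the coordinate
space of the points whose symmetric matrix `Y` is positive definite. -/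
def P : Set (Amb n m) := {x | (Y x).PosDef}

/-- Extension by zero of a function on `P_{n,m}` to the coordinate space (used only to speak about
smoothness on, and derivatives at the points of, the open set `P_{n,m}`). -/
noncomputable def ext (f : P n m → ℂ) (x : Amb n m) : ℂ :=
  open Classical in if h : x ∈ P n m then f ⟨x, h⟩ else 0

theorem ext_of_mem (f : P n m → ℂ) {x : Amb n m} (h : x ∈ P n m) : ext f x = f ⟨x, h⟩ := by
  simp [ext, h]

theorem ext_coe (f : P n m → ℂ) (x : P n m) : ext f x = f x := ext_of_mem f x.2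

theorem ext_of_notMem (f : P n m → ℂ) {x : Amb n m} (h : x ∉ P n m) : ext f x = 0 := by
  simp [ext, h]

/-- `f` is a smooth function on `P_{n,m}`. -/
def IsSmooth (f : P n m → ℂ) : Prop := ContDiffOn ℝ ∞ (ext f) (P n m)

theorem IsSmooth.mul {f g : P n m → ℂ} (hf : IsSmooth f) (hg : IsSmooth g) :
    IsSmooth fun x => f x * g x := by
  refine (ContDiffOn.mul hf hg).congr fun x hx => ?_
  simp [ext_of_mem _ hx]

theorem IsSmooth.add {f g : P n m → ℂ} (hf : IsSmooth f) (hg : IsSmooth g) : IsSmooth (f + g) := by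
  refine (ContDiffOn.add hf hg).congr fun x hx => ?_
  simp [ext_of_mem _ hx]

theorem IsSmooth.zero : IsSmooth (0 : P n m → ℂ) := by
  refine (contDiffOn_const (c := (0 : ℂ))).congr fun x hx => ?_
  simp [ext_of_mem _ hx]

theorem IsSmooth.smul (c : ℂ) {f : P n m → ℂ} (hf : IsSmooth f) : IsSmooth (c • f) := by
  refine (ContDiffOn.const_smul c hf).congr fun x hx => ?_
  simp [ext_of_mem _ hx]

variable (n m) in
/-- The complex vector space of smooth functions on `P_{n,m}`, as a subspace of the space of all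
functions. -/
def smoothSub : Submodule ℂ (P n m → ℂ) where
  carrier := {f | IsSmooth f}
  add_mem' hf hg := hf.add hg
  zero_mem' := IsSmooth.zero
  smul_mem' c _ hf := hf.smul c

/-- The space `C^∞(P_{n,m})` of complex valued smooth functions on `P_{n,m}`. -/
def Smooth (n m : ℕ) : Type := smoothSub n m

noncomputable instance smoothAddCommMonoid : AddCommMonoid (Smooth n m) :=
  (smoothSub n m).addCommMonoid

noncomputable instance smoothModule : Module ℂ (Smooth n m) := (smoothSub n m).module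

/-- A smooth function, as an element of `C^∞(P_{n,m})`. -/
def toSmooth (f : P n m → ℂ) (hf : IsSmooth f) : Smooth n m := Subtype.mk f hf

/-- The underlying function of an element of `C^∞(P_{n,m})`. -/
def fn (f : Smooth n m) : P n m → ℂ := Subtype.val f

theorem isSmooth_fn (f : Smooth n m) : IsSmooth (fn f) := Subtype.property f

theorem fn_add (f g : Smooth n m) : fn (f + g) = fn f + fn g := rfl

theorem fn_smul (c : ℂ) (f : Smooth n m) : fn (c • f) = c • fn f := rfl

theorem fn_inj {f g : Smooth n m} (h : fn f = fn g) : f = g := Subtype.ext h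

/-- Linear operators on `C^∞(P_{n,m})`; the product is the composition. -/
abbrev Op (n m : ℕ) : Type := Module.End ℂ (Smooth n m)

/-- Multiplication by the smooth function `a`. -/
noncomputable def mulOp (a : Smooth n m) : Op n m where
  toFun f := toSmooth (fun x => fn a x * fn f x) ((isSmooth_fn a).mul (isSmooth_fn f))
  map_add' f g := fn_inj (funext fun x => mul_add (fn a x) (fn f x) (fn g x))
  map_smul' c f := fn_inj (funext fun x => mul_left_comm (fn a x) c (fn f x))

/-! ### `P_{n,m}` is open -/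

theorem Y_continuous : Continuous (Y : Amb n m → _) := by
  refine continuous_matrix fun i j => ?_
  exact continuous_apply (Sum.inl s(i, j))

theorem Y_symm (x : Amb n m) : (Y x)ᵀ = Y x := by
  ext i j
  simp [Y, Sym2.eq_swap]

theorem Y_herm (x : Amb n m) : (Y x).IsHermitian := by
  rw [Matrix.IsHermitian, Matrix.conjTranspose_eq_transpose_of_trivial, Y_symm]

theorem isOpen_P : IsOpen (P n m) := by
  rw [isOpen_iff_mem_nhds]
  intro x hx
  have hK : IsCompact (Metric.sphere (0 : Fin n → ℝ) 1) := isCompact_sphere _ _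
  let U : Set (Amb n m × (Fin n → ℝ)) := {p | 0 < p.2 ⬝ᵥ ((Y p.1).mulVec p.2)}
  have hU : IsOpen U := by
    apply isOpen_lt continuous_const
    have h1 : Continuous fun p : Amb n m × (Fin n → ℝ) => Y p.1 := Y_continuous.comp continuous_fst
    exact continuous_snd.dotProduct (h1.matrix_mulVec continuous_snd)
  have hsub : ({x} : Set (Amb n m)) ×ˢ Metric.sphere (0 : Fin n → ℝ) 1 ⊆ U := by
    rintro ⟨y, v⟩ ⟨hy, hv⟩
    simp only [Set.mem_singleton_iff] at hy
    subst hy
    have hv0 : v ≠ 0 := by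
      rintro rfl
      simp at hv
    have := (Matrix.posDef_iff_dotProduct_mulVec.1 hx).2 hv0
    simpa [U] using this
  obtain ⟨u, v, hu, _, hxu, hKv, huv⟩ := generalized_tube_lemma isCompact_singleton hK hU hsub
  refine Filter.mem_of_superset (hu.mem_nhds (hxu rfl)) fun y hy => ?_
  refine Matrix.posDef_iff_dotProduct_mulVec.2 ⟨Y_herm y, fun w hw => ?_⟩
  have hnw : (0 : ℝ) < ‖w‖ := norm_pos_iff.2 hw
  have hws : (‖w‖⁻¹ • w) ∈ Metric.sphere (0 : Fin n → ℝ) 1 := by
    simp [norm_smul, hnw.ne']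
  have h3 : (y, ‖w‖⁻¹ • w) ∈ U := huv ⟨hy, hKv hws⟩
  simp only [U, Set.mem_ofPred_eq, Matrix.mulVec_smul, dotProduct_smul, smul_dotProduct,
    smul_eq_mul] at h3
  have h4 : (0 : ℝ) < ‖w‖⁻¹ := by positivity
  have h5 := (mul_pos_iff_of_pos_left h4).1 ((mul_pos_iff_of_pos_left h4).1 h3)
  simpa using h5

/-! ### Partial derivatives -/

/-- The function `∂f/∂c` on `P_{n,m}`, for a coordinate `c`. -/
noncomputable def pdFun (c : Coord n m) (f : P n m → ℂ) (x : P n m) : ℂ :=
  fderiv ℝ (ext f) x (Pi.single c 1)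

theorem IsSmooth.pdFun (c : Coord n m) {f : P n m → ℂ} (hf : IsSmooth f) :
    IsSmooth (pdFun c f) := by
  have h := ContDiffOn.fderiv_of_isOpen (m := ∞) hf isOpen_P (by simp)
  have h2 := h.clm_apply (contDiffOn_const (c := (Pi.single c 1 : Amb n m)))
  refine h2.congr fun x hx => ?_
  rw [ext_of_mem _ hx]
  rfl

theorem IsSmooth.differentiableAt {f : P n m → ℂ} (hf : IsSmooth f) (x : P n m) :
    DifferentiableAt ℝ (ext f) x :=
  (ContDiffOn.contDiffAt hf (isOpen_P.mem_nhds x.2)).differentiableAt (by simp)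

theorem pdFun_add (c : Coord n m) {f g : P n m → ℂ} (hf : IsSmooth f) (hg : IsSmooth g) :
    pdFun c (f + g) = pdFun c f + pdFun c g := by
  funext x
  have : ext (f + g) = ext f + ext g := by
    funext y
    by_cases hy : y ∈ P n m
    · simp [ext_of_mem _ hy]
    · simp [ext_of_notMem _ hy]
  change fderiv ℝ (ext (f + g)) x _ = fderiv ℝ (ext f) x _ + fderiv ℝ (ext g) x _
  rw [this, fderiv_add (hf.differentiableAt x) (hg.differentiableAt x)]
  rfl

theorem pdFun_smul (c : Coord n m) (a : ℂ) {f : P n m → ℂ} (hf : IsSmooth f) :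
    pdFun c (a • f) = a • pdFun c f := by
  funext x
  have : ext (a • f) = a • ext f := by
    funext y
    by_cases hy : y ∈ P n m
    · simp [ext_of_mem _ hy]
    · simp [ext_of_notMem _ hy]
  change fderiv ℝ (ext (a • f)) x _ = a • fderiv ℝ (ext f) x _
  rw [this, fderiv_const_smul (hf.differentiableAt x)]
  rfl

/-- The partial derivative `∂/∂c` as an operator on `C^∞(P_{n,m})`. -/
noncomputable def pd (c : Coord n m) : Op n m where
  toFun f := toSmooth (pdFun c (fn f)) ((isSmooth_fn f).pdFun c)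
  map_add' f g := fn_inj (pdFun_add c (isSmooth_fn f) (isSmooth_fn g))
  map_smul' a f := fn_inj (pdFun_smul c a (isSmooth_fn f))

/-- Linear differential operators on `P_{n,m}` with smooth coefficients: the operators of the form
`∑ a_w ∂_{w_1} ⋯ ∂_{w_r}`, a finite sum over words `w = [w_1, …, w_r]` in the coordinates. -/
def IsDiffOp (D : Op n m) : Prop :=
  ∃ (s : Finset (List (Coord n m))) (a : List (Coord n m) → Smooth n m),
    D = ∑ w ∈ s, mulOp (a w) * (w.map pd).prod

/-! ### The group action -/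

theorem actY_symm (A : Matrix (Fin n) (Fin n) ℝ) (x : Amb n m) (i j : Fin n) :
    (A * Y x * Aᵀ) i j = (A * Y x * Aᵀ) j i := by
  have : (A * Y x * Aᵀ)ᵀ = A * Y x * Aᵀ := by
    rw [Matrix.transpose_mul, Matrix.transpose_mul, Matrix.transpose_transpose, Y_symm,
      Matrix.mul_assoc]
  conv_lhs => rw [← this]
  rfl

/-- The coordinates of the point `(A Y ᵗA, (V + b) ᵗA)`. -/
def actAmb (A : Matrix (Fin n) (Fin n) ℝ) (b : Matrix (Fin m) (Fin n) ℝ) (x : Amb n m) : Amb n m :=
  Sum.elim (Sym2.lift ⟨fun i j => (A * Y x * Aᵀ) i j, actY_symm A x⟩)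
    (fun kl => ((V x + b) * Aᵀ) kl.1 kl.2)

theorem act_mem (A : GL (Fin n) ℝ) (b : Matrix (Fin m) (Fin n) ℝ) {x : Amb n m} (hx : x ∈ P n m) :
    actAmb A.1 b x ∈ P n m := by
  have h : (Y x).PosDef := hx
  change (A.1 * Y x * A.1ᵀ).PosDef
  rw [← Matrix.conjTranspose_eq_transpose_of_trivial]
  have hinj : Function.Injective (fun v => Matrix.vecMul v A.1) := by
    exact Matrix.vecMul_injective_of_isUnit A.isUnit
  exact Matrix.PosDef.mul_mul_conjTranspose_same h hinj

/-- The map `(Y, V) ↦ (A Y ᵗA, (V + b) ᵗA)` of `P_{n,m}` to itself, `A ∈ GL(n, ℝ)`,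
`b ∈ ℝ^{(m,n)}`. -/
def act (A : GL (Fin n) ℝ) (b : Matrix (Fin m) (Fin n) ℝ) (x : P n m) : P n m :=
  ⟨actAmb A.1 b x, act_mem A b x.2⟩

theorem contDiff_actAmb (A : Matrix (Fin n) (Fin n) ℝ) (b : Matrix (Fin m) (Fin n) ℝ) :
    ContDiff ℝ ∞ (actAmb A b : Amb n m → Amb n m) := by
  rw [contDiff_pi]
  rintro (z | ⟨k, l⟩)
  · induction z using Sym2.inductionOn with
    | hf i j =>
      change ContDiff ℝ ∞ fun x : Amb n m => (A * Y x * Aᵀ) i j
      simp only [Matrix.mul_apply, Y]
      fun_prop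
  · change ContDiff ℝ ∞ fun x : Amb n m => ((V x + b) * Aᵀ) k l
    simp only [Matrix.mul_apply, V, Matrix.add_apply]
    fun_prop

theorem IsSmooth.comp_act (A : GL (Fin n) ℝ) (b : Matrix (Fin m) (Fin n) ℝ) {f : P n m → ℂ}
    (hf : IsSmooth f) : IsSmooth fun x => f (act A b x) := by
  have h : ContDiffOn ℝ ∞ (ext f ∘ actAmb A.1 b) (P n m) :=
    ContDiffOn.comp hf (contDiff_actAmb A.1 b).contDiffOn fun x hx => act_mem A b hx
  refine h.congr fun x hx => ?_
  rw [ext_of_mem _ hx, Function.comp_apply, ext_of_mem _ (act_mem A b hx)]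
  rfl

/-- The pull back `f ↦ f ∘ act A b` of smooth functions under the action. -/
def pull (A : GL (Fin n) ℝ) (b : Matrix (Fin m) (Fin n) ℝ) : Op n m where
  toFun f := toSmooth (fun x => fn f (act A b x)) ((isSmooth_fn f).comp_act A b)
  map_add' _ _ := rfl
  map_smul' _ _ := rfl

/-- `D` commutes with (the pull back by) every map `(Y, V) ↦ (A Y ᵗA, (V + b) ᵗA)`. -/
def IsInvariant (D : Op n m) : Prop :=
  ∀ (A : GL (Fin n) ℝ) (b : Matrix (Fin m) (Fin n) ℝ), D * pull A b = pull A b * D

/-! ### The operators of the problem -/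

theorem isSmooth_coord (c : Coord n m) :
    IsSmooth fun x : P n m => (((x : Amb n m) c : ℝ) : ℂ) := by
  have h : ContDiff ℝ ∞ fun x : Amb n m => ((x c : ℝ) : ℂ) :=
    Complex.ofRealCLM.contDiff.comp (contDiff_apply ℝ ℝ c)
  refine h.contDiffOn.congr fun x hx => ?_
  rw [ext_of_mem _ hx]

/-- The coordinate function `c`, as an element of `C^∞(P_{n,m})`. -/
def coord (c : Coord n m) : Smooth n m :=
  toSmooth (fun x => (((x : Amb n m) c : ℝ) : ℂ)) (isSmooth_coord c)

variable (n m) in
/-- The matrix `Y` of multiplication operators. -/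
noncomputable def YM : Matrix (Fin n) (Fin n) (Op n m) :=
  fun i j => mulOp (coord (Sum.inl s(i, j)))

variable (n m) in
/-- The matrix `∂/∂Y = ((1 + δ_ij)/2 ∂/∂y_ij)`. -/
noncomputable def dY : Matrix (Fin n) (Fin n) (Op n m) :=
  fun i j => ((1 + if i = j then 1 else 0) / 2 : ℂ) • pd (Sum.inl s(i, j))

variable (n m) in
/-- The matrix `∂/∂V = (∂/∂v_kl)`. -/
noncomputable def dV : Matrix (Fin m) (Fin n) (Op n m) :=
  fun k l => pd (Sum.inr (k, l))

variable (n m) in
/-- The matrix of operators `2 Y ∂/∂Y`. -/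
noncomputable def YdY : Matrix (Fin n) (Fin n) (Op n m) :=
  2 • (YM n m * dY n m)

variable (n m) in
/-- `D_j = Tr((2 Y ∂/∂Y)^j)`. -/
noncomputable def Dop (j : ℕ) : Op n m :=
  Matrix.trace (YdY n m ^ j)

variable (n m) in
/-- `Ω^{(k)}_{pq} = {∂/∂V (2 Y ∂/∂Y)^k Y ᵗ(∂/∂V)}_{pq}`. -/
noncomputable def Omega (k : ℕ) (p q : Fin m) : Op n m :=
  (dV n m * YdY n m ^ k * YM n m * (dV n m)ᵀ) p q

variable (n m) in
/-- The operators `D_j` (`1 ≤ j ≤ n`) and `Ω^{(k)}_{pq}` (`0 ≤ k ≤ n - 1`, `p ≤ q`). -/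
def gens : Set (Op n m) :=
  {D | ∃ j : ℕ, 1 ≤ j ∧ j ≤ n ∧ D = Dop n m j} ∪
    {D | ∃ (k : ℕ) (p q : Fin m), k ≤ n - 1 ∧ p ≤ q ∧ D = Omega n m k p q}

end MEuclid
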