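import Mathlib
import Pool.Agent.H1.ME.Stmt

/-!
# The Minkowski–Euclid space: smooth functions as an algebra
-/

open scoped ContDiff Matrix
open MEuclid

namespace MinkowskiEuclid

variable {n m : ℕ}

variable (n m) in
/-- The algebra `C^∞(P_{n,m})` of complex valued smooth functions on `P_{n,m}`. -/
noncomputable def Smooth : Subalgebra ℂ (P n m → ℂ) where
  carrier := {f | IsSmooth f}
  mul_mem' {f g} hf hg := IsSmooth.mul hf hg
  add_mem' {f g} hf hg := IsSmooth.add hf hg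
  algebraMap_mem' c := by
    refine (contDiffOn_const (c := c)).congr fun x hx => ?_
    simp [ext_of_mem _ hx]

lemma smooth_contDiffOn (f : Smooth n m) : ContDiffOn ℝ ∞ (ext f.1) (P n m) := f.2

/-! ### Partial derivatives -/

lemma pdFun_mem (c : Coord n m) (f : Smooth n m) : pdFun c f.1 ∈ Smooth n m :=
  IsSmooth.pdFun c f.2

lemma smooth_differentiableAt (f : Smooth n m) (x : P n m) :
    DifferentiableAt ℝ (ext f.1) x :=
  ((smooth_contDiffOn f).contDiffAt (isOpen_P.mem_nhds x.2)).differentiableAt (by simp)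

/-- The partial derivative `∂/∂c` as an operator on `C^∞(P_{n,m})`. -/
noncomputable def pd (c : Coord n m) : Smooth n m →ₗ[ℂ] Smooth n m where
  toFun f := ⟨pdFun c f.1, pdFun_mem c f⟩
  map_add' f g := Subtype.ext (pdFun_add c f.2 g.2)
  map_smul' a f := Subtype.ext (pdFun_smul c a f.2)

/-- Multiplication by the smooth function `a`. -/
noncomputable def mulOp (a : Smooth n m) : Module.End ℂ (Smooth n m) := LinearMap.mulLeft ℂ a

/-- The coordinate functions, as elements of `C^∞(P_{n,m})`. -/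
noncomputable def coord (c : Coord n m) : Smooth n m :=
  ⟨fun x => ((x : Amb n m) c : ℂ), isSmooth_coord c⟩

/-- Linear differential operators on `P_{n,m}` with smooth coefficients: the operators of the form
`∑ a_w ∂_{w_1} ⋯ ∂_{w_r}`, a finite sum over words `w = [w_1, …, w_r]` in the coordinates. -/
def IsDiffOp (D : Module.End ℂ (Smooth n m)) : Prop :=
  ∃ (s : Finset (List (Coord n m))) (a : List (Coord n m) → Smooth n m),
    D = ∑ w ∈ s, mulOp (a w) * (w.map fun c => (pd c : Module.End ℂ (Smooth n m))).prod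

/-! ### The group action -/

/-- The coordinates of the point `(A Y ᵗA, (V + b) ᵗA)`. -/
abbrev actAmb (A : GL (Fin n) ℝ) (b : Matrix (Fin m) (Fin n) ℝ) (x : Amb n m) : Amb n m :=
  MEuclid.actAmb A.1 b x

lemma Y_act (A : GL (Fin n) ℝ) (b : Matrix (Fin m) (Fin n) ℝ) (x : Amb n m) :
    Y (actAmb A b x) = A.1 * Y x * A.1ᵀ := rfl

lemma V_act (A : GL (Fin n) ℝ) (b : Matrix (Fin m) (Fin n) ℝ) (x : Amb n m) :
    V (actAmb A b x) = (V x + b) * A.1ᵀ := rfl

lemma contDiff_actAmb (A : GL (Fin n) ℝ) (b : Matrix (Fin m) (Fin n) ℝ) :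
    ContDiff ℝ ∞ (actAmb A b : Amb n m → Amb n m) := MEuclid.contDiff_actAmb A.1 b

lemma ext_comp_act (A : GL (Fin n) ℝ) (b : Matrix (Fin m) (Fin n) ℝ) (f : P n m → ℂ)
    {x : Amb n m} (hx : x ∈ P n m) : ext (f ∘ act A b) x = ext f (actAmb A b x) := by
  rw [ext_of_mem _ hx, ext_of_mem _ (act_mem A b hx)]
  rfl

/-- The pull back `f ↦ f ∘ act A b` of smooth functions under the action. -/
noncomputable def pull (A : GL (Fin n) ℝ) (b : Matrix (Fin m) (Fin n) ℝ) :
    Smooth n m →ₐ[ℂ] Smooth n m where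
  toFun f := ⟨f.1 ∘ act A b, IsSmooth.comp_act A b f.2⟩
  map_one' := rfl
  map_mul' _ _ := rfl
  map_zero' := rfl
  map_add' _ _ := rfl
  commutes' _ := rfl

/-- `D` commutes with (the pull back by) every map `(Y, V) ↦ (A Y ᵗA, (V + b) ᵗA)`. -/
def IsInvariant (D : Module.End ℂ (Smooth n m)) : Prop :=
  ∀ (A : GL (Fin n) ℝ) (b : Matrix (Fin m) (Fin n) ℝ) (f : Smooth n m),
    D (pull A b f) = pull A b (D f)

variable (n m) in
/-- `𝔻(P_{n,m})`: the invariant linear differential operators on `P_{n,m}`. -/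
def InvDiffOps : Set (Module.End ℂ (Smooth n m)) := {D | IsDiffOp D ∧ IsInvariant D}

/-! ### The operators of the problem -/

variable (n m) in
/-- The matrix `Y` of multiplication operators. -/
noncomputable def YM : Matrix (Fin n) (Fin n) (Module.End ℂ (Smooth n m)) :=
  Matrix.of fun i j => mulOp (coord (Sum.inl s(i, j)))

variable (n m) in
/-- The matrix `∂/∂Y = ((1 + δ_ij)/2 ∂/∂y_ij)`. -/
noncomputable def dY : Matrix (Fin n) (Fin n) (Module.End ℂ (Smooth n m)) :=
  Matrix.of fun i j => ((1 + if i = j then 1 else 0) / 2 : ℂ) •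
    (pd (Sum.inl s(i, j)) : Module.End ℂ (Smooth n m))

variable (n m) in
/-- The matrix `∂/∂V = (∂/∂v_kl)`. -/
noncomputable def dV : Matrix (Fin m) (Fin n) (Module.End ℂ (Smooth n m)) :=
  Matrix.of fun k l => pd (Sum.inr (k, l))

variable (n m) in
/-- The matrix of operators `2 Y ∂/∂Y`. -/
noncomputable def YdY : Matrix (Fin n) (Fin n) (Module.End ℂ (Smooth n m)) :=
  2 • (YM n m * dY n m)

variable (n m) in
/-- `D_j = Tr((2 Y ∂/∂Y)^j)`. -/
noncomputable def Dop (j : ℕ) : Module.End ℂ (Smooth n m) :=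
  Matrix.trace (YdY n m ^ j)

variable (n m) in
/-- `Ω^{(k)}_{pq} = {∂/∂V (2 Y ∂/∂Y)^k Y ᵗ(∂/∂V)}_{pq}`. -/
noncomputable def Omega (k : ℕ) (p q : Fin m) : Module.End ℂ (Smooth n m) :=
  (dV n m * YdY n m ^ k * YM n m * (dV n m)ᵀ) p q

variable (n m) in
/-- The operators `D_j` (`1 ≤ j ≤ n`) and `Ω^{(k)}_{pq}` (`0 ≤ k ≤ n - 1`, `p ≤ q`). -/
def gens : Set (Module.End ℂ (Smooth n m)) :=
  {D | ∃ j : ℕ, 1 ≤ j ∧ j ≤ n ∧ D = Dop n m j} ∪
    {D | ∃ (k : ℕ) (p q : Fin m), k ≤ n - 1 ∧ p ≤ q ∧ D = Omega n m k p q}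

end MinkowskiEuclid
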