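import Mathlib
import Pool.Agent.H1.ME.Apolar

/-!
# First fundamental theorem for the real orthogonal group (vectors)

`MvPolynomial (ι × κ) ℝ`: polynomial functions of `κ` vectors in `ℝ^ι`.
-/

open MvPolynomial Finset

set_option linter.unusedSectionVars false
set_option linter.unusedSimpArgs false

namespace H1.ME

variable {ι κ : Type*} [Fintype ι] [DecidableEq ι] [Fintype κ] [DecidableEq κ]

/-- substitution `x ↦ g x` (acting simultaneously on all vectors) -/
noncomputable def sub (g : Matrix ι ι ℝ) : MvPolynomial (ι × κ) ℝ →ₐ[ℝ] MvPolynomial (ι × κ) ℝ :=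
  aeval (fun a => ∑ j, C (g a.1 j) * X (j, a.2))

omit [DecidableEq ι] [Fintype κ] [DecidableEq κ] in
lemma sub_X (g : Matrix ι ι ℝ) (i : ι) (p : κ) :
    sub g (X (i, p)) = ∑ j, C (g i j) * X (j, p) := by
  simp [sub]

/-- `O(ι)`-invariance of a polynomial -/
def Inv (f : MvPolynomial (ι × κ) ℝ) : Prop :=
  ∀ g ∈ Matrix.orthogonalGroup ι ℝ, sub g f = f

/-- polarized gl-operators -/
noncomputable def E (i j : ι) : MvPolynomial (ι × κ) ℝ →ₗ[ℝ] MvPolynomial (ι × κ) ℝ :=
  ∑ p, (LinearMap.mulLeft ℝ (X (i, p))) ∘ₗ (pderiv (j, p)).toLinearMap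

lemma E_apply (i j : ι) (f : MvPolynomial (ι × κ) ℝ) :
    E i j f = ∑ p, X (i, p) * pderiv (j, p) f := by
  simp [E]

lemma ap_E (i j : ι) (f g : MvPolynomial (ι × κ) ℝ) : ap f (E i j g) = ap (E j i f) g := by
  rw [E_apply, E_apply, map_sum, ap_sum_left]
  refine Finset.sum_congr rfl fun p _ => ?_
  rw [ap_X_mul, ap_left_pderiv]

noncomputable def r (p q : κ) : MvPolynomial (ι × κ) ℝ := ∑ i, X (i, p) * X (i, q)

noncomputable def Δ (p q : κ) (f : MvPolynomial (ι × κ) ℝ) : MvPolynomial (ι × κ) ℝ :=
  ∑ j, pderiv (j, p) (pderiv (j, q) f)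

noncomputable def Mop (f : MvPolynomial (ι × κ) ℝ) : MvPolynomial (ι × κ) ℝ :=
  ∑ p, ∑ q, r p q * Δ p q f

lemma E_E_ne {i j : ι} (h : i ≠ j) (f : MvPolynomial (ι × κ) ℝ) :
    E i j (E i j f) = ∑ p, ∑ q, X (i, p) * X (i, q) * pderiv (j, p) (pderiv (j, q) f) := by
  rw [E_apply]
  refine Finset.sum_congr rfl fun p _ => ?_
  rw [E_apply, map_sum, Finset.mul_sum]
  refine Finset.sum_congr rfl fun q _ => ?_
  rw [pderiv_mul, pderiv_X_of_ne (by simp [h])]
  ring

lemma E_E_self (i : ι) (f : MvPolynomial (ι × κ) ℝ) :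
    E i i (E i i f) =
      ∑ p, ∑ q, X (i, p) * X (i, q) * pderiv (i, p) (pderiv (i, q) f) + E i i f := by
  rw [E_apply, E_apply, ← Finset.sum_add_distrib]
  refine Finset.sum_congr rfl fun p _ => ?_
  rw [map_sum, Finset.mul_sum]
  have : ∀ q, X (i, p) * pderiv (i, p) (X (i, q) * pderiv (i, q) f) =
      X (i, p) * X (i, q) * pderiv (i, p) (pderiv (i, q) f) +
        (if p = q then X (i, p) * pderiv (i, q) f else 0) := by
    intro q
    rw [pderiv_mul]
    by_cases h : p = q
    · subst h
      simp
      ring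
    · rw [pderiv_X_of_ne (by simpa using fun h' => h h'.symm)]
      simp [h]
      ring
  rw [Finset.sum_congr rfl fun q _ => this q, Finset.sum_add_distrib]
  simp

lemma Mop_eq (f : MvPolynomial (ι × κ) ℝ) :
    Mop f = ∑ i, (E i i (E i i f) - E i i f) + ∑ i, ∑ j ∈ univ.erase i, E i j (E i j f) := by
  have h1 : Mop f = ∑ i, ∑ j, ∑ p, ∑ q, X (i, p) * X (i, q) * pderiv (j, p) (pderiv (j, q) f) := by
    unfold Mop r Δ
    simp_rw [Finset.sum_mul_sum]
    rw [Finset.sum_congr rfl fun p _ => Finset.sum_comm]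
    rw [Finset.sum_comm]
    refine Finset.sum_congr rfl fun i _ => ?_
    rw [Finset.sum_congr rfl fun p _ => Finset.sum_comm]
    rw [Finset.sum_comm]
  rw [h1, ← Finset.sum_add_distrib]
  refine Finset.sum_congr rfl fun i _ => ?_
  rw [← Finset.add_sum_erase _ _ (Finset.mem_univ i), E_E_self]
  congr 1
  · ring
  · refine Finset.sum_congr rfl fun j hj => ?_
    rw [E_E_ne (Finset.ne_of_mem_erase hj).symm]

/-! ### Infinitesimal invariance -/

lemma hasDerivAt_eval {σ : Type*} [Fintype σ] (c : ℝ → σ → ℝ) (c' : σ → ℝ) (t₀ : ℝ)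
    (hc : ∀ s, HasDerivAt (fun t => c t s) (c' s) t₀) (f : MvPolynomial σ ℝ) :
    HasDerivAt (fun t => eval (c t) f) (∑ s, c' s * eval (c t₀) (pderiv s f)) t₀ := by
  classical
  induction f using MvPolynomial.induction_on with
  | C a => simpa using hasDerivAt_const t₀ a
  | add p q hp hq =>
    have := hp.fun_add hq
    simp only [map_add]
    refine this.congr_deriv ?_
    rw [← Finset.sum_add_distrib]
    exact Finset.sum_congr rfl fun s _ => by ring
  | mul_X p i hp =>
    have := hp.fun_mul (hc i)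
    simp only [map_mul, eval_X]
    refine this.congr_deriv ?_
    simp only [pderiv_mul, map_add, map_mul, eval_X, pderiv_X, Finset.sum_mul]
    have h2 : eval (c t₀) p * c' i =
        ∑ s, c' s * (eval (c t₀) p * eval (c t₀) ((Pi.single s 1 : σ → MvPolynomial σ ℝ) i)) := by
      rw [Finset.sum_eq_single i]
      · simp; ring
      · intro b _ hb
        simp [Pi.single_apply, hb.symm]
      · simp
    rw [h2, ← Finset.sum_add_distrib]
    exact Finset.sum_congr rfl fun s _ => by ring

/-- rotation matrix in the `(i,j)` plane -/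
noncomputable def rot (i j : ι) (t : ℝ) : Matrix ι ι ℝ :=
  1 + (Real.cos t - 1) • (Matrix.single i i 1 + Matrix.single j j 1) +
    Real.sin t • (Matrix.single i j 1 - Matrix.single j i 1)

omit [Fintype ι] in
lemma rot_apply_i {i j : ι} (h : i ≠ j) (t : ℝ) (b : ι) :
    rot i j t i b = if b = i then Real.cos t else if b = j then Real.sin t else 0 := by
  simp only [rot, Matrix.add_apply, Matrix.smul_apply, Matrix.sub_apply, Matrix.single_apply,
    Matrix.one_apply, smul_eq_mul]
  by_cases h1 : b = i
  · subst h1; simp [h, h.symm]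
  · by_cases h2 : b = j
    · subst h2; simp [h, h.symm]
    · simp [h1, h2, Ne.symm h1, Ne.symm h2, h, h.symm]

omit [Fintype ι] in
lemma rot_apply_j {i j : ι} (h : i ≠ j) (t : ℝ) (b : ι) :
    rot i j t j b = if b = i then -Real.sin t else if b = j then Real.cos t else 0 := by
  simp only [rot, Matrix.add_apply, Matrix.smul_apply, Matrix.sub_apply, Matrix.single_apply,
    Matrix.one_apply, smul_eq_mul]
  by_cases h1 : b = i
  · subst h1; simp [h, h.symm]
  · by_cases h2 : b = j
    · subst h2; simp [h, h.symm]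
    · simp [h1, h2, Ne.symm h1, Ne.symm h2, h, h.symm]

omit [Fintype ι] in
lemma rot_apply_of_ne {i j a : ι} (hi : a ≠ i) (hj : a ≠ j) (t : ℝ) (b : ι) :
    rot i j t a b = if a = b then 1 else 0 := by
  simp only [rot, Matrix.add_apply, Matrix.smul_apply, Matrix.sub_apply, Matrix.single_apply,
    Matrix.one_apply, smul_eq_mul]
  simp [hi, hj, Ne.symm hi, Ne.symm hj]

lemma rot_mem {i j : ι} (h : i ≠ j) (t : ℝ) : rot i j t ∈ Matrix.orthogonalGroup ι ℝ := by
  rw [Matrix.mem_orthogonalGroup_iff]
  set P : Matrix ι ι ℝ := Matrix.single i i 1 + Matrix.single j j 1 with hP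
  set J : Matrix ι ι ℝ := Matrix.single i j 1 - Matrix.single j i 1 with hJ
  have hPP : P * P = P := by
    simp [hP, mul_add, add_mul, Matrix.single_mul_single_same,
      Matrix.single_mul_single_of_ne, h, h.symm]
  have hJJ : J * J = -P := by
    simp [hP, hJ, mul_sub, sub_mul, Matrix.single_mul_single_same,
      Matrix.single_mul_single_of_ne, h, h.symm]
    abel
  have hPJ : P * J = J := by
    simp [hP, hJ, mul_sub, sub_mul, add_mul, Matrix.single_mul_single_same,
      Matrix.single_mul_single_of_ne, h, h.symm]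
  have hJP : J * P = J := by
    simp [hP, hJ, mul_add, sub_mul, Matrix.single_mul_single_same,
      Matrix.single_mul_single_of_ne, h, h.symm]
    abel
  have hst : (rot i j t).transpose = 1 + (Real.cos t - 1) • P - Real.sin t • J := by
    have e : rot i j t = 1 + (Real.cos t - 1) • P + Real.sin t • J := rfl
    rw [e, Matrix.transpose_add, Matrix.transpose_add, Matrix.transpose_smul,
      Matrix.transpose_smul, Matrix.transpose_one]
    have hPt : P.transpose = P := by simp [hP]
    have hJt : J.transpose = -J := by simp [hJ]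
    rw [hPt, hJt, smul_neg]
    abel
  have hr : rot i j t = 1 + (Real.cos t - 1) • P + Real.sin t • J := rfl
  rw [hst, hr]
  simp only [mul_add, add_mul, mul_sub, sub_mul, one_mul, mul_one, Matrix.smul_mul,
    Matrix.mul_smul, hPP, hJJ, hPJ, hJP, smul_smul]
  have hcs : Real.sin t * Real.sin t = 1 - Real.cos t * Real.cos t := by
    nlinarith [Real.sin_sq_add_cos_sq t]
  simp only [smul_neg, hcs]
  ext a b
  simp only [Matrix.add_apply, Matrix.sub_apply, Matrix.smul_apply, Matrix.neg_apply, smul_eq_mul]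
  ring

lemma eval_sub (g : Matrix ι ι ℝ) (x : ι × κ → ℝ) (f : MvPolynomial (ι × κ) ℝ) :
    eval x (sub g f) = eval (fun a => ∑ j, g a.1 j * x (j, a.2)) f := by
  induction f using MvPolynomial.induction_on with
  | C a => simp [sub]
  | add p q hp hq => rw [map_add, map_add, map_add, hp, hq]
  | mul_X p i hp =>
    rw [map_mul, map_mul, map_mul, hp]
    congr 1
    obtain ⟨a, b⟩ := i
    simp [sub_X]

lemma Inv.E_comm {f : MvPolynomial (ι × κ) ℝ} (hf : Inv f) (i j : ι) : E i j f = E j i f := by
  by_cases hij : i = j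
  · subst hij; rfl
  apply MvPolynomial.funext
  intro x
  set c : ℝ → ι × κ → ℝ := fun t a => ∑ k, rot i j t a.1 k * x (k, a.2) with hc
  set c' : ι × κ → ℝ := fun a => if a.1 = i then x (j, a.2) else if a.1 = j then - x (i, a.2) else 0
    with hc'
  have hc0 : c 0 = x := by
    funext a
    simp [hc, rot, Matrix.one_apply]
  have hd := hasDerivAt_eval c c' 0 (by
    rintro ⟨a, p⟩
    simp only [hc, hc']
    by_cases h1 : a = i
    · subst h1
      have : (fun t => ∑ k, rot a j t a k * x (k, p)) =
          fun t => Real.cos t * x (a, p) + Real.sin t * x (j, p) := by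
        funext t
        simp only [rot_apply_i hij, ite_mul, zero_mul]
        rw [← Finset.add_sum_erase _ _ (Finset.mem_univ a), if_pos rfl,
          ← Finset.add_sum_erase (univ.erase a) _ (Finset.mem_erase.2 ⟨Ne.symm hij, mem_univ j⟩),
          if_neg (Ne.symm hij), if_pos rfl, Finset.sum_eq_zero, add_zero]
        intro k hk
        simp only [Finset.mem_erase] at hk
        rw [if_neg hk.2.1, if_neg hk.1]
      rw [this]
      have h2 := ((Real.hasDerivAt_cos 0).mul_const (x (a, p))).fun_add
        ((Real.hasDerivAt_sin 0).mul_const (x (j, p)))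
      simpa using h2
    · by_cases h2 : a = j
      · subst h2
        have : (fun t => ∑ k, rot i a t a k * x (k, p)) =
            fun t => -Real.sin t * x (i, p) + Real.cos t * x (a, p) := by
          funext t
          simp only [rot_apply_j hij, ite_mul, zero_mul]
          rw [← Finset.add_sum_erase _ _ (Finset.mem_univ i), if_pos rfl,
            ← Finset.add_sum_erase (univ.erase i) _ (Finset.mem_erase.2 ⟨h1, mem_univ a⟩),
            if_neg h1, if_pos rfl, Finset.sum_eq_zero, add_zero]
          intro k hk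
          simp only [Finset.mem_erase] at hk
          rw [if_neg hk.2.1, if_neg hk.1]
        rw [this]
        have h3 := ((Real.hasDerivAt_sin 0).fun_neg.mul_const (x (i, p))).fun_add
          ((Real.hasDerivAt_cos 0).mul_const (x (a, p)))
        simpa [h1] using h3
      · have : (fun t => ∑ k, rot i j t a k * x (k, p)) = fun t => x (a, p) := by
          funext t
          simp [rot_apply_of_ne h1 h2]
        rw [this]
        simpa [h1, h2] using hasDerivAt_const (0 : ℝ) (x (a, p))) f
  have hconst : (fun t => eval (c t) f) = fun _ => eval x f := by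
    funext t
    have := hf _ (rot_mem hij t)
    conv_rhs => rw [← this]
    rw [eval_sub]
  rw [hconst] at hd
  have h0 := hd.unique (hasDerivAt_const 0 (eval x f))
  rw [hc0] at h0
  rw [Fintype.sum_prod_type] at h0
  have h1 : ∑ a, ∑ p, c' (a, p) * eval x (pderiv (a, p) f) =
      ∑ p, x (j, p) * eval x (pderiv (i, p) f) - ∑ p, x (i, p) * eval x (pderiv (j, p) f) := by
    rw [← Finset.add_sum_erase _ _ (Finset.mem_univ i),
      ← Finset.add_sum_erase (univ.erase i) _ (Finset.mem_erase.2 ⟨Ne.symm hij, mem_univ j⟩),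
      Finset.sum_eq_zero (s := (univ.erase i).erase j), add_zero]
    · simp only [hc', if_true, if_neg (Ne.symm hij)]
      rw [sub_eq_add_neg, ← Finset.sum_neg_distrib]
      congr 1
      exact Finset.sum_congr rfl fun p _ => by ring
    · intro k hk
      simp only [Finset.mem_erase] at hk
      simp [hc', hk.1, hk.2.1]
  rw [h1] at h0
  rw [E_apply, E_apply]
  simp only [map_sum, map_mul, eval_X]
  linarith


/-! ### Evenness in each row -/

/-- the reflection in the `i`-th coordinate -/
noncomputable def refl (i : ι) : Matrix ι ι ℝ := Matrix.diagonal fun a => if a = i then -1 else 1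

lemma refl_mem (i : ι) : refl i ∈ Matrix.orthogonalGroup ι ℝ := by
  rw [Matrix.mem_orthogonalGroup_iff, refl, Matrix.diagonal_transpose, Matrix.diagonal_mul_diagonal]
  rw [← Matrix.diagonal_one]
  congr 1
  funext a
  by_cases h : a = i <;> simp [h]

/-- total degree in row `i` -/
def rowDeg (i : ι) (m : ι × κ →₀ ℕ) : ℕ := ∑ p, m (i, p)

lemma sub_refl_X (i : ι) (a : ι × κ) :
    sub (refl i) (X a) = C (if a.1 = i then -1 else 1) * X a := by
  obtain ⟨a, b⟩ := a
  rw [sub_X]
  rw [Finset.sum_eq_single a]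
  · simp [refl]
  · intro c _ hc
    simp [refl, Matrix.diagonal_apply_ne _ hc.symm]
  · simp

lemma rowDeg_add_single (i : ι) (m : ι × κ →₀ ℕ) (a : ι × κ) :
    rowDeg i (m + Finsupp.single a 1) = rowDeg i m + if a.1 = i then 1 else 0 := by
  unfold rowDeg
  simp only [Finsupp.add_apply, Finset.sum_add_distrib]
  congr 1
  by_cases h : a.1 = i
  · rw [if_pos h, Finset.sum_eq_single a.2]
    · rw [← h]; simp
    · intro b _ hb
      rw [Finsupp.single_apply, if_neg]
      intro h'
      rw [h'] at hb
      exact hb rfl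
    · simp
  · rw [if_neg h]
    apply Finset.sum_eq_zero
    intro b _
    rw [Finsupp.single_apply, if_neg]
    intro h'
    rw [h'] at h
    exact h rfl

lemma coeff_sub_refl (i : ι) (f : MvPolynomial (ι × κ) ℝ) :
    ∀ m, coeff m (sub (refl i) f) = (-1) ^ rowDeg i m * coeff m f := by
  induction f using MvPolynomial.induction_on with
  | C c =>
    intro m
    have : sub (refl i) (C c : MvPolynomial (ι × κ) ℝ) = C c := by simp [sub]
    rw [this, coeff_C]
    by_cases h : 0 = m
    · subst h; simp [rowDeg]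
    · simp [h]
  | add p q hp hq => intro m; rw [map_add, coeff_add, coeff_add, hp, hq, mul_add]
  | mul_X p a hp =>
    intro m
    rw [map_mul, sub_refl_X, mul_left_comm, coeff_C_mul, coeff_mul_X', coeff_mul_X']
    by_cases h : a ∈ m.support
    · rw [if_pos h, if_pos h, hp]
      have hm : m = (m - Finsupp.single a 1) + Finsupp.single a 1 := by
        rw [Finsupp.mem_support_iff] at h
        ext b
        simp only [Finsupp.coe_add, Finsupp.coe_tsub, Pi.add_apply, Pi.sub_apply,
          Finsupp.single_apply]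
        split_ifs with hb
        · subst hb; omega
        · omega
      have hr : rowDeg i m = rowDeg i (m - Finsupp.single a 1) + if a.1 = i then 1 else 0 := by
        conv_lhs => rw [hm]
        rw [rowDeg_add_single]
      rw [hr, pow_add]
      split_ifs <;> ring
    · rw [if_neg h, if_neg h]; simp

lemma Inv.even {f : MvPolynomial (ι × κ) ℝ} (hf : Inv f) (i : ι) {m : ι × κ →₀ ℕ}
    (hm : m ∈ f.support) : Even (rowDeg i m) := by
  have h2 := coeff_sub_refl i f m
  rw [hf _ (refl_mem i)] at h2
  by_contra h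
  rw [Nat.not_even_iff_odd] at h
  rw [h.neg_one_pow] at h2
  have : coeff m f = 0 := by linarith
  exact (MvPolynomial.mem_support_iff.1 hm) this

/-- `E i i` is diagonal on monomials -/
lemma coeff_E_self (i : ι) (f : MvPolynomial (ι × κ) ℝ) (m : ι × κ →₀ ℕ) :
    coeff m (E i i f) = rowDeg i m * coeff m f := by
  rw [E_apply, coeff_sum]
  have : ∀ p, coeff m (X (i, p) * pderiv (i, p) f) = (m (i, p) : ℝ) * coeff m f := by
    intro p
    induction f using MvPolynomial.induction_on' with
    | monomial k c =>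
      rw [X_mul_pderiv_monomial, coeff_smul, coeff_monomial]
      by_cases h : k = m
      · subst h; simp
      · simp [h]
    | add f g hf hg => rw [map_add, mul_add, coeff_add, coeff_add, hf, hg, mul_add]
  simp_rw [this, rowDeg, Nat.cast_sum, Finset.sum_mul]

lemma sum_rowDeg (m : ι × κ →₀ ℕ) : ∑ i, rowDeg i m = m.degree := by
  unfold rowDeg
  rw [Finsupp.degree_eq_sum, Fintype.sum_prod_type]

/-- key positivity -/
lemma Inv.ap_Mop {f : MvPolynomial (ι × κ) ℝ} (hf : Inv f) {N : ℕ} (hN : f.IsHomogeneous N) :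
    N * ap f f ≤ ap f (Mop f) := by
  rw [Mop_eq, map_add, map_sum, map_sum]
  have h1 : 0 ≤ ∑ i, ap f (∑ j ∈ univ.erase i, E i j (E i j f)) := by
    refine Finset.sum_nonneg fun i _ => ?_
    rw [map_sum]
    refine Finset.sum_nonneg fun j _ => ?_
    rw [ap_E, hf.E_comm i j]
    exact ap_self_nonneg _
  have h2 : N * ap f f ≤ ∑ i, ap f (E i i (E i i f) - E i i f) := by
    have h3 : ∀ i, ap f (E i i (E i i f) - E i i f) =
        ∑ m ∈ f.support, wt m * coeff m f * ((rowDeg i m * (rowDeg i m) - rowDeg i m) * coeff m f) := by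
      intro i
      rw [ap_eq_sum' _ _ f.support]
      · refine Finset.sum_congr rfl fun m _ => ?_
        rw [coeff_sub, coeff_E_self, coeff_E_self]
        ring
      · intro m hm
        rw [MvPolynomial.mem_support_iff, coeff_sub, coeff_E_self, coeff_E_self] at hm
        rw [MvPolynomial.mem_support_iff]
        intro h0
        rw [h0] at hm
        simp at hm
    simp_rw [h3]
    rw [Finset.sum_comm, ap_eq_sum, Finset.mul_sum]
    refine Finset.sum_le_sum fun m hm => ?_
    have hdeg : m.degree = N := by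
      have := hN (MvPolynomial.mem_support_iff.1 hm)
      rw [Finsupp.degree_eq_weight_one]
      exact this
    have h4 : (N : ℝ) = ∑ i, (rowDeg i m : ℝ) := by
      rw [← hdeg, ← sum_rowDeg]; push_cast; rfl
    rw [h4, Finset.sum_mul]
    refine Finset.sum_le_sum fun i _ => ?_
    have h5 : (rowDeg i m : ℝ) ≤ rowDeg i m * rowDeg i m - rowDeg i m := by
      obtain ⟨k, hk⟩ := hf.even i hm
      have : 2 * rowDeg i m ≤ rowDeg i m * rowDeg i m := by
        rw [hk]
        nlinarith [Nat.zero_le k, sq_nonneg k, Nat.le_self_pow (n := 2) (by norm_num) k]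
      have : (2 : ℝ) * rowDeg i m ≤ rowDeg i m * rowDeg i m := by exact_mod_cast this
      linarith
    have h6 : 0 ≤ wt m * (coeff m f * coeff m f) :=
      mul_nonneg (wt_pos m).le (mul_self_nonneg _)
    nlinarith [mul_le_mul_of_nonneg_right h5 h6]
  linarith

/-! ### Chain rule for linear substitutions, invariance of `Mop f` -/

lemma pderiv_X' (j k : ι) (p q : κ) :
    pderiv (j, p) (X (k, q) : MvPolynomial (ι × κ) ℝ) = if k = j ∧ q = p then 1 else 0 := by
  rw [pderiv_X, Pi.single_apply]
  simp [Prod.ext_iff]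

lemma pderiv_sub (g : Matrix ι ι ℝ) (j : ι) (p : κ) (f : MvPolynomial (ι × κ) ℝ) :
    pderiv (j, p) (sub g f) = ∑ i, C (g i j) * sub g (pderiv (i, p) f) := by
  induction f using MvPolynomial.induction_on with
  | C c => simp [sub]
  | add a b ha hb => simp only [map_add, ha, hb, mul_add, Finset.sum_add_distrib]
  | mul_X f a hf =>
    obtain ⟨k, q⟩ := a
    rw [map_mul, pderiv_mul, hf]
    simp only [pderiv_mul, map_add, map_mul, mul_add, Finset.sum_add_distrib]
    congr 1
    · rw [Finset.sum_mul]
      exact Finset.sum_congr rfl fun i _ => by ring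
    · rw [sub_X, map_sum]
      simp only [pderiv_C_mul, pderiv_X', apply_ite (sub g), map_one, map_zero]
      by_cases hpq : q = p
      · simp only [hpq, and_true, mul_ite, mul_one, mul_zero, Finset.sum_ite_eq,
          Finset.sum_ite_eq', Finset.mem_univ, if_true]
        ring
      · simp [hpq]

lemma Inv.Δ {f : MvPolynomial (ι × κ) ℝ} (hf : Inv f) (p q : κ) : Inv (Δ p q f) := by
  intro g hg
  have h1 : ∀ j, pderiv (j, p) (pderiv (j, q) f) =
      ∑ i, ∑ k, C (g i j * g k j) * sub g (pderiv (k, p) (pderiv (i, q) f)) := by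
    intro j
    conv_lhs => rw [← hf g hg, pderiv_sub, map_sum]
    refine Finset.sum_congr rfl fun i _ => ?_
    rw [pderiv_C_mul, pderiv_sub, Finset.mul_sum]
    refine Finset.sum_congr rfl fun k _ => ?_
    rw [C_mul]; ring
  have h2 : ∀ i k, ∑ j, g i j * g k j = if i = k then 1 else 0 := by
    intro i k
    rw [Matrix.mem_orthogonalGroup_iff] at hg
    have := congrFun (congrFun hg i) k
    rw [Matrix.mul_apply] at this
    simpa [Matrix.one_apply] using this
  unfold H1.ME.Δ
  conv_rhs => rw [Finset.sum_congr rfl (fun j _ => h1 j), Finset.sum_comm]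
  rw [map_sum]
  refine Finset.sum_congr rfl fun i _ => ?_
  symm
  rw [Finset.sum_comm]
  have h3 : ∀ k, ∑ j, C (g i j * g k j) * sub g (pderiv (k, p) (pderiv (i, q) f)) =
      if i = k then sub g (pderiv (k, p) (pderiv (i, q) f)) else 0 := by
    intro k
    rw [← Finset.sum_mul, ← map_sum, h2]
    split_ifs <;> simp
  simp_rw [h3]
  simp

lemma Inv.mul {f g : MvPolynomial (ι × κ) ℝ} (hf : Inv f) (hg : Inv g) : Inv (f * g) := by
  intro A hA
  rw [map_mul, hf A hA, hg A hA]

lemma Inv.add {f g : MvPolynomial (ι × κ) ℝ} (hf : Inv f) (hg : Inv g) : Inv (f + g) := by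
  intro A hA
  rw [map_add, hf A hA, hg A hA]

lemma inv_r (p q : κ) : Inv (r p q : MvPolynomial (ι × κ) ℝ) := by
  intro g hg
  have h2 : ∀ i k, ∑ j, g j i * g j k = if i = k then 1 else 0 := by
    intro i k
    rw [Matrix.mem_orthogonalGroup_iff'] at hg
    have := congrFun (congrFun hg i) k
    rw [Matrix.mul_apply] at this
    simpa [Matrix.one_apply] using this
  unfold r
  rw [map_sum]
  simp_rw [map_mul, sub_X, Finset.sum_mul_sum]
  rw [Finset.sum_comm]
  refine Finset.sum_congr rfl fun i _ => ?_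
  rw [Finset.sum_comm]
  have h3 : ∀ k, ∑ j, (C (g j i) * X (i, p)) * (C (g j k) * X (k, q)) =
      (if i = k then X (i, p) * X (k, q) else 0 : MvPolynomial (ι × κ) ℝ) := by
    intro k
    have : ∀ j, (C (g j i) * X (i, p)) * (C (g j k) * X (k, q)) =
        (C (g j i * g j k) * (X (i, p) * X (k, q)) : MvPolynomial (ι × κ) ℝ) := by
      intro j; rw [C_mul]; ring
    simp_rw [this]
    rw [← Finset.sum_mul, ← map_sum, h2]
    split_ifs <;> simp
  simp_rw [h3]
  simp

lemma Inv.Mop {f : MvPolynomial (ι × κ) ℝ} (hf : Inv f) : Inv (Mop f) := by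
  intro g hg
  unfold H1.ME.Mop
  rw [map_sum]
  refine Finset.sum_congr rfl fun p _ => ?_
  rw [map_sum]
  exact Finset.sum_congr rfl fun q _ => ((inv_r p q).mul (hf.Δ p q)) g hg

lemma homog_Δ {f : MvPolynomial (ι × κ) ℝ} {N : ℕ} (hf : f.IsHomogeneous N) (p q : κ) :
    (Δ p q f).IsHomogeneous (N - 1 - 1) :=
  IsHomogeneous.sum _ _ _ fun _ _ => hf.pderiv.pderiv

lemma homog_r (p q : κ) : (r p q : MvPolynomial (ι × κ) ℝ).IsHomogeneous 2 :=
  IsHomogeneous.sum _ _ _ fun _ _ => (isHomogeneous_X _ _).mul (isHomogeneous_X _ _)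

lemma Δ_eq_zero {f : MvPolynomial (ι × κ) ℝ} {N : ℕ} (hf : f.IsHomogeneous N) (hN : N ≤ 1)
    (p q : κ) : Δ p q f = 0 := by
  refine Finset.sum_eq_zero fun j _ => ?_
  have h : (pderiv (j, q) f).IsHomogeneous 0 := by
    have := hf.pderiv (i := (j, q))
    rwa [show N - 1 = 0 by omega] at this
  rw [← totalDegree_zero_iff_isHomogeneous, totalDegree_eq_zero_iff_eq_C] at h
  rw [h, pderiv_C]

lemma homog_Mop {f : MvPolynomial (ι × κ) ℝ} {N : ℕ} (hf : f.IsHomogeneous N) :
    (Mop f).IsHomogeneous N := by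
  rcases Nat.lt_or_ge N 2 with h | h
  · have : Mop f = 0 := by
      unfold H1.ME.Mop
      refine Finset.sum_eq_zero fun p _ => Finset.sum_eq_zero fun q _ => ?_
      rw [Δ_eq_zero hf (by omega), mul_zero]
    rw [this]
    exact isHomogeneous_zero _ _ _
  · refine IsHomogeneous.sum _ _ _ fun p _ => IsHomogeneous.sum _ _ _ fun q _ => ?_
    have := (homog_r (ι := ι) p q).mul (homog_Δ hf p q)
    rwa [show 2 + (N - 1 - 1) = N by omega] at this

/-- The space of invariants of degree `N`. -/
noncomputable def WN (ι κ : Type*) [Fintype ι] [DecidableEq ι] [Fintype κ] [DecidableEq κ] (N : ℕ) :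
    Submodule ℝ (MvPolynomial (ι × κ) ℝ) where
  carrier := {f | f.IsHomogeneous N ∧ Inv f}
  add_mem' := fun ha hb => ⟨ha.1.add hb.1, ha.2.add hb.2⟩
  zero_mem' := ⟨isHomogeneous_zero _ _ _, fun g _ => map_zero _⟩
  smul_mem' := fun c f hf => ⟨(homogeneousSubmodule _ _ N).smul_mem c hf.1, fun g hg => by
    rw [map_smul, hf.2 g hg]⟩

lemma WN_le (N : ℕ) : WN ι κ N ≤ homogeneousSubmodule (ι × κ) ℝ N := fun _ h => h.1

instance (N : ℕ) : FiniteDimensional ℝ (WN ι κ N) := by
  have h : FiniteDimensional ℝ (homogeneousSubmodule (ι × κ) ℝ N) :=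
    Module.Finite.iff_fg.2 (homogeneousSubmodule_fg (ι × κ) ℝ N)
  exact Submodule.finiteDimensional_of_le (WN_le N)

noncomputable def MopL (N : ℕ) : WN ι κ N →ₗ[ℝ] WN ι κ N where
  toFun f := ⟨Mop f.1, homog_Mop f.2.1, f.2.2.Mop⟩
  map_add' f g := by
    apply Subtype.ext
    simp [Mop, Δ, mul_add, Finset.sum_add_distrib]
  map_smul' c f := by
    apply Subtype.ext
    simp [Mop, Δ, Finset.smul_sum, Finset.mul_sum]

/-- **First fundamental theorem for `O(n)`** (homogeneous version) -/
theorem fft_homog (N : ℕ) : ∀ f : MvPolynomial (ι × κ) ℝ, f.IsHomogeneous N → Inv f →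
    f ∈ Algebra.adjoin ℝ (Set.range fun pq : κ × κ => (r pq.1 pq.2 : MvPolynomial (ι × κ) ℝ)) := by
  induction N using Nat.strong_induction_on with
  | _ N ih =>
    intro f hN hf
    rcases Nat.eq_zero_or_pos N with h0 | hpos
    · subst h0
      rw [← totalDegree_zero_iff_isHomogeneous, totalDegree_eq_zero_iff_eq_C] at hN
      rw [hN]
      exact Subalgebra.algebraMap_mem _ _
    · have hinj : Function.Injective (MopL (ι := ι) (κ := κ) N) := by
        rw [← LinearMap.ker_eq_bot, LinearMap.ker_eq_bot']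
        rintro ⟨g, hgN, hg⟩ hg0
        have hg1 : Mop g = 0 := congrArg Subtype.val hg0
        have := hg.ap_Mop hgN
        rw [hg1, map_zero] at this
        have h3 := ap_self_nonneg g
        have hNr : (1 : ℝ) ≤ N := by exact_mod_cast hpos
        have h4 : ap g g = 0 := by nlinarith
        exact Subtype.ext (ap_self_eq_zero h4)
      have hsurj := LinearMap.injective_iff_surjective.1 hinj
      obtain ⟨⟨g, hgN, hg⟩, hgf⟩ := hsurj ⟨f, hN, hf⟩
      have hgf' : Mop g = f := congrArg Subtype.val hgf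
      rw [← hgf']
      unfold Mop
      refine Subalgebra.sum_mem _ fun p _ => Subalgebra.sum_mem _ fun q _ => ?_
      refine Subalgebra.mul_mem _ (Algebra.subset_adjoin ⟨(p, q), rfl⟩) ?_
      exact ih (N - 1 - 1) (by omega) _ (homog_Δ hgN p q) (hg.Δ p q)

lemma homogComp_sub (g : Matrix ι ι ℝ) (f : MvPolynomial (ι × κ) ℝ) (N : ℕ) :
    homogeneousComponent N (sub g f) = sub g (homogeneousComponent N f) := by
  have hsub : ∀ (M : ℕ) (h : MvPolynomial (ι × κ) ℝ), h.IsHomogeneous M →
      (sub g h).IsHomogeneous M := by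
    intro M h hh
    have := IsHomogeneous.aeval hh (fun a : ι × κ => ∑ j, C (g a.1 j) * X (j, a.2)) (n := 1)
      (fun a => IsHomogeneous.sum _ _ _ fun j _ => by
        simpa using (isHomogeneous_C (ι × κ) (g a.1 j)).mul (isHomogeneous_X ℝ (j, a.2)))
    rw [one_mul] at this
    exact this
  conv_lhs => rw [← sum_homogeneousComponent f, map_sum, map_sum]
  have : ∀ i, homogeneousComponent N (sub g (homogeneousComponent i f)) =
      if i = N then sub g (homogeneousComponent i f) else 0 := by
    intro i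
    have h1 := hsub i _ (homogeneousComponent_isHomogeneous i f)
    split_ifs with h
    · subst h
      exact homogeneousComponent_of_mem h1 |>.trans (by simp)
    · exact homogeneousComponent_of_mem h1 |>.trans (by simp [Ne.symm h])
  simp_rw [this]
  rw [Finset.sum_ite_eq']
  split_ifs with h
  · rfl
  · rw [Finset.mem_range, not_lt] at h
    rw [homogeneousComponent_eq_zero _ _ (by omega), map_zero]

/-- **First fundamental theorem for `O(n)`** -/
theorem fft (f : MvPolynomial (ι × κ) ℝ) (hf : Inv f) :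
    f ∈ Algebra.adjoin ℝ (Set.range fun pq : κ × κ => (r pq.1 pq.2 : MvPolynomial (ι × κ) ℝ)) := by
  rw [← sum_homogeneousComponent f]
  refine Subalgebra.sum_mem _ fun i _ => ?_
  refine fft_homog i _ (homogeneousComponent_isHomogeneous i f) ?_
  intro g hg
  rw [← homogComp_sub, hf g hg]

end H1.ME
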