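import Mathlib
import Pool.Agent.H1.ME.FFTVec

/-!
# First fundamental theorem for `O(n)` acting on a symmetric matrix and vectors
-/

open MvPolynomial Finset

set_option linter.unusedSectionVars false
set_option linter.unusedSimpArgs false

namespace H1.ME

variable {ι κ : Type*} [Fintype ι] [DecidableEq ι] [Fintype κ] [DecidableEq κ]

/-- polynomial functions of a symmetric matrix (`Sum.inl s(a,b)`) and of vectors. -/
abbrev P2 (ι κ : Type*) := MvPolynomial (Sym2 ι ⊕ ι × κ) ℝ

/-- generic symmetric matrix -/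
noncomputable def SM : Matrix ι ι (P2 ι κ) := Matrix.of fun a b => X (Sum.inl s(a, b))

lemma SM_apply (a b : ι) : (SM a b : P2 ι κ) = X (Sum.inl s(a, b)) := rfl

lemma SM_symm : (SM : Matrix ι ι (P2 ι κ)).transpose = SM := by
  ext a b
  simp [SM_apply, Sym2.eq_swap]

/-- generic vectors -/
noncomputable def vv (p : κ) (a : ι) : P2 ι κ := X (Sum.inr (a, p))

noncomputable def gT (j : ℕ) : P2 ι κ := (SM ^ j : Matrix ι ι (P2 ι κ)).trace

noncomputable def gV (l : ℕ) (p q : κ) : P2 ι κ := vv p ⬝ᵥ ((SM ^ l : Matrix ι ι (P2 ι κ)).mulVec (vv q))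

/-- the algebra generated by the basic invariants -/
noncomputable def AA (ι κ : Type*) [Fintype ι] [DecidableEq ι] [Fintype κ] [DecidableEq κ] :
    Subalgebra ℝ (P2 ι κ) :=
  Algebra.adjoin ℝ (Set.range gT ∪ Set.range fun x : ℕ × κ × κ => gV x.1 x.2.1 x.2.2)

lemma gT_mem (j : ℕ) : (gT j : P2 ι κ) ∈ AA ι κ :=
  Algebra.subset_adjoin (Or.inl ⟨j, rfl⟩)

lemma gV_mem (l : ℕ) (p q : κ) : (gV l p q : P2 ι κ) ∈ AA ι κ :=
  Algebra.subset_adjoin (Or.inr ⟨(l, p, q), rfl⟩)

/-- simultaneous substitution `S ↦ g S gᵀ`, `v ↦ g v`. -/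
noncomputable def sub2 (g : Matrix ι ι ℝ) : P2 ι κ →ₐ[ℝ] P2 ι κ :=
  aeval (Sum.elim
    (Sym2.lift ⟨fun a b => ∑ c, ∑ e, C (g a c * g b e) * X (Sum.inl s(c, e)), by
      intro a b
      dsimp only
      rw [Finset.sum_comm]
      refine Finset.sum_congr rfl fun c _ => Finset.sum_congr rfl fun e _ => ?_
      rw [Sym2.eq_swap, mul_comm (g a e)]⟩)
    (fun a => ∑ j, C (g a.1 j) * X (Sum.inr (j, a.2))))

lemma sub2_inl (g : Matrix ι ι ℝ) (a b : ι) :
    (sub2 g (X (Sum.inl s(a, b))) : P2 ι κ) =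
      ∑ c, ∑ e, C (g a c * g b e) * X (Sum.inl s(c, e)) := by
  simp [sub2]

lemma sub2_inr (g : Matrix ι ι ℝ) (a : ι) (p : κ) :
    (sub2 g (X (Sum.inr (a, p))) : P2 ι κ) = ∑ j, C (g a j) * X (Sum.inr (j, p)) := by
  simp [sub2]

def Inv2 (f : P2 ι κ) : Prop := ∀ g ∈ Matrix.orthogonalGroup ι ℝ, sub2 g f = f

/-- the product `u_a u_b`, `z = s(a,b)`, for the distinguished vector `u`. -/
noncomputable def uz (z : Sym2 ι) : P2 ι (Option κ) :=
  Sym2.lift ⟨fun a b => X (Sum.inr (a, none)) * X (Sum.inr (b, none)), fun a b => mul_comm _ _⟩ z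

lemma uz_mk (a b : ι) : (uz s(a, b) : P2 ι (Option κ)) =
    X (Sum.inr (a, none)) * X (Sum.inr (b, none)) := rfl

/-- the inclusion of variables -/
def emv : Sym2 ι ⊕ ι × κ → Sym2 ι ⊕ ι × Option κ :=
  Sum.map id (Prod.map id some)

lemma emv_inj : Function.Injective (emv : Sym2 ι ⊕ ι × κ → _) :=
  Function.Injective.sumMap Function.injective_id
    (Function.Injective.prodMap Function.injective_id (Option.some_injective _))

noncomputable def emb : P2 ι κ →ₐ[ℝ] P2 ι (Option κ) := rename emv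

lemma emb_inl (z : Sym2 ι) : (emb (X (Sum.inl z) : P2 ι κ)) = X (Sum.inl z) := by
  simp [emb, emv]

lemma emb_inr (a : ι) (p : κ) : (emb (X (Sum.inr (a, p)) : P2 ι κ)) = X (Sum.inr (a, some p)) := by
  simp [emb, emv]

/-- derivative in the direction `u uᵀ`. -/
noncomputable def DU (f : P2 ι κ) : P2 ι (Option κ) := ∑ z, uz z * emb (pderiv (Sum.inl z) f)

lemma DU_add (f h : P2 ι κ) : DU (f + h) = DU f + DU h := by
  simp [DU, mul_add, Finset.sum_add_distrib]

lemma DU_C (c : ℝ) : DU (C c : P2 ι κ) = 0 := by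
  simp [DU]

lemma DU_mul (f h : P2 ι κ) : DU (f * h) = DU f * emb h + emb f * DU h := by
  simp only [DU, pderiv_mul, map_add, map_mul, mul_add, Finset.sum_add_distrib, Finset.sum_mul,
    Finset.mul_sum]
  congr 1 <;> exact Finset.sum_congr rfl fun z _ => by ring

lemma DU_inl (z : Sym2 ι) : DU (X (Sum.inl z) : P2 ι κ) = uz z := by
  unfold DU
  rw [Finset.sum_eq_single z]
  · simp
  · intro b _ hb
    rw [pderiv_X_of_ne (by simpa using hb.symm)]; simp
  · simp

lemma DU_inr (a : ι × κ) : DU (X (Sum.inr a) : P2 ι κ) = 0 := by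
  unfold DU
  refine Finset.sum_eq_zero fun z _ => ?_
  rw [pderiv_X_of_ne (by simp)]; simp

lemma DU_sum {α : Type*} (s : Finset α) (f : α → P2 ι κ) : DU (∑ a ∈ s, f a) = ∑ a ∈ s, DU (f a) := by
  simp only [DU, map_sum, Finset.mul_sum]
  rw [Finset.sum_comm]

lemma DU_C_mul (c : ℝ) (f : P2 ι κ) : DU (C c * f) = C c * DU f := by
  rw [DU_mul, DU_C]; simp [emb]

lemma sub2_emb (g : Matrix ι ι ℝ) (f : P2 ι κ) : sub2 g (emb f) = emb (sub2 g f) := by
  have : (sub2 g).comp emb = (emb.comp (sub2 g) : P2 ι κ →ₐ[ℝ] P2 ι (Option κ)) := by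
    apply MvPolynomial.algHom_ext
    rintro (z | ⟨a, p⟩)
    · induction z using Sym2.inductionOn with
      | hf a b =>
        simp only [AlgHom.comp_apply, emb_inl, sub2_inl, map_sum, map_mul]
        simp [emb, emv]
    · simp only [AlgHom.comp_apply, emb_inr, sub2_inr, map_sum, map_mul]
      simp [emb, emv]
  exact congrArg (fun F => F f) this

lemma sub2_DU_X (g : Matrix ι ι ℝ) (i : Sym2 ι ⊕ ι × κ) :
    sub2 g (DU (X i : P2 ι κ)) = DU (sub2 g (X i)) := by
  rcases i with z | a
  · induction z using Sym2.inductionOn with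
    | hf a b =>
      rw [DU_inl, sub2_inl, DU_sum]
      simp_rw [DU_sum, DU_C_mul, DU_inl, uz_mk]
      rw [map_mul, sub2_inr, sub2_inr, Finset.sum_mul_sum]
      refine Finset.sum_congr rfl fun c _ => Finset.sum_congr rfl fun e _ => ?_
      rw [C_mul]; ring
  · rw [DU_inr, map_zero]
    obtain ⟨a, p⟩ := a
    rw [sub2_inr, DU_sum]
    symm
    refine Finset.sum_eq_zero fun j _ => ?_
    rw [DU_C_mul, DU_inr, mul_zero]

lemma sub2_C (g : Matrix ι ι ℝ) (c : ℝ) : sub2 g (C c : P2 ι κ) = C c := by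
  simp [sub2]

lemma sub2_DU (g : Matrix ι ι ℝ) (f : P2 ι κ) : sub2 g (DU f) = DU (sub2 g f) := by
  induction f using MvPolynomial.induction_on with
  | C c => rw [DU_C, sub2_C, DU_C, map_zero]
  | add p q hp hq => rw [DU_add, map_add, map_add, DU_add, hp, hq]
  | mul_X p i hp =>
    have e1 : sub2 g (DU (p * X i)) =
        sub2 g (DU p) * sub2 g (emb (X i)) + sub2 g (emb p) * sub2 g (DU (X i)) := by
      rw [DU_mul, map_add, map_mul, map_mul]
    have e2 : DU (sub2 g (p * X i)) =
        DU (sub2 g p) * emb (sub2 g (X i)) + emb (sub2 g p) * DU (sub2 g (X i)) := by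
      rw [map_mul, DU_mul]
    rw [e1, e2, hp, sub2_emb, sub2_emb, sub2_DU_X]

lemma Inv2.DU {f : P2 ι κ} (hf : Inv2 f) : Inv2 (DU f) := by
  intro g hg
  rw [sub2_DU, hf g hg]

/-! ### The contraction operator `L` -/

/-- derivative with respect to the `a`-th coordinate of the distinguished vector -/
noncomputable abbrev du (a : ι) : Derivation ℝ (P2 ι (Option κ)) (P2 ι (Option κ)) :=
  pderiv (Sum.inr (a, none))

noncomputable def Lop (h : P2 ι (Option κ)) : P2 ι (Option κ) :=
  ∑ a, ∑ b, SM a b * du a (du b h)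

lemma du_emb (a : ι) (f : P2 ι κ) : du a (emb f) = 0 := by
  induction f using MvPolynomial.induction_on with
  | C c => simp [emb]
  | add p q hp hq => rw [map_add, map_add, hp, hq, add_zero]
  | mul_X p i hp =>
    rw [map_mul, Derivation.leibniz, hp, smul_zero, add_zero]
    rcases i with z | ⟨b, p⟩
    · rw [emb_inl, pderiv_X_of_ne (by simp), smul_zero]
    · rw [emb_inr, pderiv_X_of_ne (by simp), smul_zero]

lemma du_u (a b : ι) : du a (X (Sum.inr (b, none)) : P2 ι (Option κ)) = if a = b then 1 else 0 := by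
  by_cases h : a = b
  · subst h; simp
  · rw [pderiv_X_of_ne (by simpa using Ne.symm h), if_neg h]

lemma Lop_DU {f : P2 ι κ} {d : ℕ}
    (hf : f.IsWeightedHomogeneous (Sum.elim (fun _ => 1) (fun _ => 0)) d) :
    Lop (DU f) = (2 * d : ℕ) • emb f := by
  have h1 : ∀ a b : ι, ∀ z : Sym2 ι, du a (du b (uz z * emb (pderiv (Sum.inl z) f))) =
      du a (du b (uz z)) * emb (pderiv (Sum.inl z) f) := by
    intro a b z
    rw [pderiv_mul, du_emb, mul_zero, add_zero, pderiv_mul, du_emb, mul_zero, add_zero]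
  have h2 : ∀ z : Sym2 ι, ∑ a, ∑ b, SM a b * du a (du b (uz z)) =
      (2 * X (Sum.inl z) : P2 ι (Option κ)) := by
    intro z
    induction z using Sym2.inductionOn with
    | hf c e =>
      have h3 : ∀ a b : ι, SM a b * du a (du b (uz s(c, e))) =
          ((if a = c then (if b = e then SM a b else 0) else 0) +
            (if a = e then (if b = c then SM a b else 0) else 0) : P2 ι (Option κ)) := by
        intro a b
        rw [uz_mk, pderiv_mul, du_u, du_u, map_add, pderiv_mul, pderiv_mul, du_u, du_u]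
        have e1 : ∀ (P : Prop) [Decidable P], du a (if P then 1 else 0 : P2 ι (Option κ)) = 0 := by
          intro P _; split_ifs <;> simp
        rw [e1, e1]
        split_ifs <;> simp [mul_add]
      simp_rw [h3, Finset.sum_add_distrib]
      simp only [Finset.sum_ite_eq', Finset.mem_univ, if_true, Finset.sum_ite_irrel,
        Finset.sum_const_zero]
      rw [SM_apply, SM_apply, Sym2.eq_swap]
      ring
  unfold Lop DU
  simp only [map_sum, h1, Finset.mul_sum]
  have h4 : ∑ a, ∑ b, ∑ z, SM a b * (du a (du b (uz z)) * emb (pderiv (Sum.inl z) f)) =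
      ∑ z, (∑ a, ∑ b, SM a b * du a (du b (uz z))) * emb (pderiv (Sum.inl z) f) := by
    rw [Finset.sum_congr rfl fun a _ => Finset.sum_comm, Finset.sum_comm]
    refine Finset.sum_congr rfl fun z _ => ?_
    rw [Finset.sum_mul]
    refine Finset.sum_congr rfl fun a _ => ?_
    rw [Finset.sum_mul]
    exact Finset.sum_congr rfl fun b _ => by ring
  rw [h4]
  simp_rw [h2]
  have h5 := hf.sum_weight_X_mul_pderiv
  rw [Fintype.sum_sum_type] at h5
  simp only [Sum.elim_inl, one_smul, Sum.elim_inr, zero_smul, Finset.sum_const_zero, add_zero] at h5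
  rw [mul_smul, ← map_nsmul, ← h5, map_sum, Finset.smul_sum]
  refine Finset.sum_congr rfl fun z _ => ?_
  rw [map_mul, emb_inl]
  simp
  ring

/-! ### `L` preserves the algebra of basic invariants -/

lemma emb_SM_pow (j : ℕ) :
    ((SM ^ j : Matrix ι ι (P2 ι κ)).map emb) = (SM ^ j : Matrix ι ι (P2 ι (Option κ))) := by
  have h : (SM : Matrix ι ι (P2 ι κ)).map emb = (SM : Matrix ι ι (P2 ι (Option κ))) := by
    ext1 a b
    rw [Matrix.map_apply, SM_apply, SM_apply, emb_inl]
  have h2 := map_pow (emb : P2 ι κ →ₐ[ℝ] P2 ι (Option κ)).toRingHom.mapMatrix SM j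
  have h3 : ∀ A : Matrix ι ι (P2 ι κ),
      (emb : P2 ι κ →ₐ[ℝ] P2 ι (Option κ)).toRingHom.mapMatrix A = A.map emb := fun A => rfl
  rw [h3, h3, h] at h2
  exact h2

lemma du_SM_pow (a b c : ι) (j : ℕ) : du a ((SM ^ j : Matrix ι ι (P2 ι (Option κ))) b c) = 0 := by
  rw [← emb_SM_pow, Matrix.map_apply, du_emb]

/-- the module of covariant vectors -/
noncomputable def VV (ι κ : Type*) [Fintype ι] [DecidableEq ι] [Fintype κ] [DecidableEq κ] :
    Submodule (AA ι κ) (ι → P2 ι κ) :=
  Submodule.span (AA ι κ) (Set.range fun x : ℕ × κ => (SM ^ x.1 : Matrix ι ι (P2 ι κ)).mulVec (vv x.2))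

lemma gen_mem_VV (l : ℕ) (p : κ) : (SM ^ l : Matrix ι ι (P2 ι κ)).mulVec (vv p) ∈ VV ι κ :=
  Submodule.subset_span ⟨(l, p), rfl⟩

lemma SM_pow_symm (l : ℕ) : (SM ^ l : Matrix ι ι (P2 ι κ)).transpose = SM ^ l := by
  rw [Matrix.transpose_pow, SM_symm]

lemma dotS_gen (l k : ℕ) (p q : κ) :
    ((SM ^ l : Matrix ι ι (P2 ι κ)).mulVec (vv p)) ⬝ᵥ
      (SM.mulVec ((SM ^ k : Matrix ι ι (P2 ι κ)).mulVec (vv q))) = gV (l + 1 + k) p q := by
  rw [gV, Matrix.mulVec_mulVec, ← Matrix.vecMul_transpose, SM_pow_symm, ← Matrix.dotProduct_mulVec,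
    Matrix.mulVec_mulVec]
  congr 2
  rw [pow_add, pow_add, pow_one, mul_assoc]

lemma dotS_mem {x y : ι → P2 ι κ} (hx : x ∈ VV ι κ) (hy : y ∈ VV ι κ) :
    x ⬝ᵥ (SM.mulVec y) ∈ AA ι κ := by
  induction hx using Submodule.span_induction with
  | mem x hx =>
    obtain ⟨⟨l, p⟩, rfl⟩ := hx
    induction hy using Submodule.span_induction with
    | mem y hy =>
      obtain ⟨⟨k, q⟩, rfl⟩ := hy
      rw [dotS_gen]
      exact gV_mem _ _ _
    | zero => rw [Matrix.mulVec_zero, dotProduct_zero]; exact Subalgebra.zero_mem _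
    | add y z _ _ hy hz =>
      rw [Matrix.mulVec_add, dotProduct_add]; exact Subalgebra.add_mem _ hy hz
    | smul c y _ hy =>
      have : (c • y : ι → P2 ι κ) = (c : P2 ι κ) • y := rfl
      rw [this, Matrix.mulVec_smul, dotProduct_smul, smul_eq_mul]
      exact Subalgebra.mul_mem _ c.2 hy
  | zero => rw [zero_dotProduct]; exact Subalgebra.zero_mem _
  | add y z _ _ hy hz => rw [add_dotProduct]; exact Subalgebra.add_mem _ hy hz
  | smul c y _ hy =>
    have : (c • y : ι → P2 ι κ) = (c : P2 ι κ) • y := rfl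
    rw [this, smul_dotProduct, smul_eq_mul]
    exact Subalgebra.mul_mem _ c.2 hy

lemma du_vv (a b : ι) (p : Option κ) :
    du a (vv p b : P2 ι (Option κ)) = if p = none ∧ a = b then 1 else 0 := by
  unfold vv
  rcases p with _ | p
  · rw [du_u]; simp
  · rw [pderiv_X_of_ne (by simp)]; simp

lemma du_mulVec (a b : ι) (l : ℕ) (p : Option κ) :
    du a ((SM ^ l : Matrix ι ι (P2 ι (Option κ))).mulVec (vv p) b) =
      if p = none then (SM ^ l : Matrix ι ι (P2 ι (Option κ))) b a else 0 := by
  rw [Matrix.mulVec, dotProduct, map_sum]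
  have : ∀ c, du a ((SM ^ l : Matrix ι ι (P2 ι (Option κ))) b c * vv p c) =
      if p = none ∧ a = c then (SM ^ l : Matrix ι ι (P2 ι (Option κ))) b c else 0 := by
    intro c
    rw [pderiv_mul, du_SM_pow, zero_mul, zero_add, du_vv]
    split_ifs <;> simp
  simp_rw [this]
  by_cases hp : p = none
  · simp [hp]
  · simp [hp]

lemma grad_mem {h : P2 ι (Option κ)} (hh : h ∈ AA ι (Option κ)) :
    (fun a => du a h) ∈ VV ι (Option κ) := by
  unfold AA at hh
  induction hh using Algebra.adjoin_induction with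
  | mem x hx =>
    rcases hx with ⟨j, rfl⟩ | ⟨⟨l, p, q⟩, rfl⟩
    · have : (fun a => du a (gT j : P2 ι (Option κ))) = 0 := by
        funext a
        rw [gT, Matrix.trace, map_sum]
        exact Finset.sum_eq_zero fun b _ => du_SM_pow _ _ _ _
      rw [this]
      exact Submodule.zero_mem _
    · have : (fun a => du a (gV l p q : P2 ι (Option κ))) =
          (if p = none then (SM ^ l : Matrix ι ι (P2 ι (Option κ))).mulVec (vv q) else 0) +
          (if q = none then (SM ^ l : Matrix ι ι (P2 ι (Option κ))).mulVec (vv p) else 0) := by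
        funext a
        rw [gV, dotProduct, map_sum]
        have e1 : ∀ b, du a (vv p b * (SM ^ l : Matrix ι ι (P2 ι (Option κ))).mulVec (vv q) b) =
            (if p = none ∧ a = b then
              (SM ^ l : Matrix ι ι (P2 ι (Option κ))).mulVec (vv q) b else 0) +
            (if q = none then (SM ^ l : Matrix ι ι (P2 ι (Option κ))) a b * vv p b else 0) := by
          intro b
          rw [pderiv_mul, du_vv, du_mulVec]
          have : (SM ^ l : Matrix ι ι (P2 ι (Option κ))) b a = (SM ^ l : Matrix ι ι (P2 ι (Option κ))) a b := by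
            conv_rhs => rw [← SM_pow_symm]
            rfl
          rw [this]
          split_ifs <;> ring
        simp_rw [e1, Finset.sum_add_distrib]
        rw [Pi.add_apply]
        congr 1
        · by_cases hp : p = none
          · simp [hp]
          · simp [hp]
        · by_cases hp : q = none
          · simp [hp, Matrix.mulVec, dotProduct]
          · simp [hp]
      rw [this]
      refine Submodule.add_mem _ ?_ ?_
      · split_ifs
        · exact gen_mem_VV _ _
        · exact Submodule.zero_mem _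
      · split_ifs
        · exact gen_mem_VV _ _
        · exact Submodule.zero_mem _
  | algebraMap c =>
    have : (fun a => du a (algebraMap ℝ (P2 ι (Option κ)) c)) = 0 := by
      funext a; simp
    rw [this]; exact Submodule.zero_mem _
  | add x y _ _ hx hy =>
    have : (fun a => du a (x + y)) = (fun a => du a x) + fun a => du a y := by
      funext a; simp
    rw [this]; exact Submodule.add_mem _ hx hy
  | mul x y hx' hy' hx hy =>
    have : (fun a => du a (x * y)) =
        (⟨y, hy'⟩ : AA ι (Option κ)) • (fun a => du a x) +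
        (⟨x, hx'⟩ : AA ι (Option κ)) • fun a => du a y := by
      funext a
      rw [pderiv_mul]
      change _ = y * du a x + x * du a y
      ring
    rw [this]
    exact Submodule.add_mem _ (Submodule.smul_mem _ _ hx) (Submodule.smul_mem _ _ hy)

lemma div_mem {x : ι → P2 ι (Option κ)} (hx : x ∈ VV ι (Option κ)) :
    ∑ a, ∑ b, SM a b * du a (x b) ∈ AA ι (Option κ) := by
  induction hx using Submodule.span_induction with
  | mem x hx =>
    obtain ⟨⟨l, p⟩, rfl⟩ := hx
    simp only [du_mulVec]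
    by_cases hp : p = none
    · simp only [hp, if_true]
      have : ∑ a, ∑ b, SM a b * (SM ^ l : Matrix ι ι (P2 ι (Option κ))) b a = gT (l + 1) := by
        rw [gT, Matrix.trace, pow_succ']
        exact Finset.sum_congr rfl fun a _ => by rw [Matrix.diag_apply, Matrix.mul_apply]
      rw [this]
      exact gT_mem _
    · simp only [if_neg hp, mul_zero, Finset.sum_const_zero]
      exact Subalgebra.zero_mem _
  | zero =>
    simp only [Pi.zero_apply, map_zero, mul_zero, Finset.sum_const_zero]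
    exact Subalgebra.zero_mem _
  | add y z _ _ hy hz =>
    simp only [Pi.add_apply, map_add, mul_add, Finset.sum_add_distrib]
    exact Subalgebra.add_mem _ hy hz
  | smul c y hy' hy =>
    have e1 : ∀ b, (c • y : ι → P2 ι (Option κ)) b = (c : P2 ι (Option κ)) * y b := fun b => rfl
    have e2 : ∑ a, ∑ b, SM a b * du a ((c • y : ι → P2 ι (Option κ)) b) =
        (fun a => du a (c : P2 ι (Option κ))) ⬝ᵥ (SM.mulVec y) +
        (c : P2 ι (Option κ)) * ∑ a, ∑ b, SM a b * du a (y b) := by
      simp only [e1, pderiv_mul, mul_add, Finset.sum_add_distrib]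
      congr 1
      · rw [dotProduct]
        refine Finset.sum_congr rfl fun a _ => ?_
        rw [Matrix.mulVec, dotProduct, Finset.mul_sum]
        exact Finset.sum_congr rfl fun b _ => by ring
      · rw [Finset.mul_sum]
        refine Finset.sum_congr rfl fun a _ => ?_
        rw [Finset.mul_sum]
        exact Finset.sum_congr rfl fun b _ => by ring
    rw [e2]
    exact Subalgebra.add_mem _ (dotS_mem (grad_mem c.2) hy') (Subalgebra.mul_mem _ c.2 hy)

lemma Lop_mem {h : P2 ι (Option κ)} (hh : h ∈ AA ι (Option κ)) : Lop h ∈ AA ι (Option κ) :=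
  div_mem (grad_mem hh)

/-! ### Retraction -/

/-- set the distinguished vector to zero -/
noncomputable def ret : P2 ι (Option κ) →ₐ[ℝ] P2 ι κ :=
  aeval (Sum.elim (fun z => X (Sum.inl z))
    (fun a => Option.elim a.2 0 fun p => X (Sum.inr (a.1, p))))

lemma ret_emb (f : P2 ι κ) : ret (emb f) = f := by
  have : ret.comp emb = AlgHom.id ℝ (P2 ι κ) := by
    apply MvPolynomial.algHom_ext
    rintro (z | ⟨a, p⟩)
    · simp only [AlgHom.comp_apply, emb_inl]; simp [ret]
    · simp only [AlgHom.comp_apply, emb_inr]; simp [ret]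
  exact congrArg (fun F => F f) this

lemma ret_SM_pow (j : ℕ) :
    ((SM ^ j : Matrix ι ι (P2 ι (Option κ))).map ret) = (SM ^ j : Matrix ι ι (P2 ι κ)) := by
  rw [← emb_SM_pow]
  ext1 a b
  rw [Matrix.map_apply, Matrix.map_apply, ret_emb]

lemma ret_SM_pow_apply (j : ℕ) (a b : ι) :
    ret ((SM ^ j : Matrix ι ι (P2 ι (Option κ))) a b) = (SM ^ j : Matrix ι ι (P2 ι κ)) a b :=
  congrFun (congrFun (ret_SM_pow j) a) b

lemma ret_vv (p : Option κ) (a : ι) :
    ret (vv p a : P2 ι (Option κ)) = Option.elim p 0 fun q => vv q a := by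
  rcases p with _ | p <;> simp [ret, vv]

lemma ret_gT (j : ℕ) : ret (gT j : P2 ι (Option κ)) = gT j := by
  rw [gT, gT, Matrix.trace, Matrix.trace, map_sum]
  refine Finset.sum_congr rfl fun a _ => ?_
  rw [Matrix.diag_apply, Matrix.diag_apply, ret_SM_pow_apply]

lemma ret_gV (l : ℕ) (p q : Option κ) : ret (gV l p q : P2 ι (Option κ)) ∈ AA ι κ := by
  have h1 : ret (gV l p q : P2 ι (Option κ)) =
      ∑ a, ret (vv p a) * ∑ b, (SM ^ l : Matrix ι ι (P2 ι κ)) a b * ret (vv q b) := by
    rw [gV, dotProduct, map_sum]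
    refine Finset.sum_congr rfl fun a _ => ?_
    rw [map_mul, Matrix.mulVec, dotProduct, map_sum]
    congr 1
    refine Finset.sum_congr rfl fun b _ => ?_
    rw [map_mul, ret_SM_pow_apply]
  rw [h1]
  simp only [ret_vv]
  rcases p with _ | p
  · simp
  · rcases q with _ | q
    · simp
    · exact gV_mem l p q

lemma ret_mem {h : P2 ι (Option κ)} (hh : h ∈ AA ι (Option κ)) : ret h ∈ AA ι κ := by
  unfold AA at hh
  induction hh using Algebra.adjoin_induction with
  | mem x hx =>
    rcases hx with ⟨j, rfl⟩ | ⟨⟨l, p, q⟩, rfl⟩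
    · rw [ret_gT]; exact gT_mem j
    · exact ret_gV l p q
  | algebraMap c => rw [AlgHom.commutes]; exact Subalgebra.algebraMap_mem _ _
  | add x y _ _ hx hy => rw [map_add]; exact Subalgebra.add_mem _ hx hy
  | mul x y _ _ hx hy => rw [map_mul]; exact Subalgebra.mul_mem _ hx hy

/-! ### The theorem -/

/-- weight counting the degree in the symmetric matrix -/
def wX : Sym2 ι ⊕ ι × κ → ℕ := Sum.elim (fun _ => 1) (fun _ => 0)

lemma DU_homog {f : P2 ι κ} {d : ℕ} (hf : f.IsWeightedHomogeneous wX d) (hd : 0 < d) :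
    (DU f).IsWeightedHomogeneous wX (d - 1) := by
  refine IsWeightedHomogeneous.sum _ _ _ fun z _ => ?_
  have h1 : (uz z : P2 ι (Option κ)).IsWeightedHomogeneous wX 0 := by
    induction z using Sym2.inductionOn with
    | hf a b =>
      rw [uz_mk]
      have := (isWeightedHomogeneous_X ℝ (wX (ι := ι) (κ := Option κ)) (Sum.inr (a, none))).mul
        (isWeightedHomogeneous_X ℝ (wX (ι := ι) (κ := Option κ)) (Sum.inr (b, none)))
      simpa [wX] using this
  have h2 : (pderiv (Sum.inl z) f).IsWeightedHomogeneous wX (d - 1) := by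
    apply hf.pderiv
    simp only [wX, Sum.elim_inl]
    omega
  have h3 : (emb (pderiv (Sum.inl z) f)).IsWeightedHomogeneous wX (d - 1) := by
    intro m hm
    unfold emb at hm
    obtain ⟨u, hu, hu'⟩ := coeff_rename_ne_zero _ _ _ hm
    rw [← hu, Finsupp.weight_apply, Finsupp.sum_mapDomain_index (by simp) (by intros; ring),
      ← h2 hu', Finsupp.weight_apply]
    refine Finsupp.sum_congr fun a _ => ?_
    rcases a with z | a <;> simp [wX, emv]
  simpa using h1.mul h3

lemma exists_rename_of_wX_zero {f : P2 ι κ} (hf : f.IsWeightedHomogeneous wX 0) :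
    ∃ f0 : MvPolynomial (ι × κ) ℝ, rename Sum.inr f0 = f := by
  apply exists_rename_eq_of_vars_subset_range f Sum.inr Sum.inr_injective
  intro i hi
  rcases i with z | a
  · exfalso
    rw [Finset.mem_coe, mem_vars] at hi
    obtain ⟨m, hm, hz⟩ := hi
    have h0 := hf (mem_support_iff.1 hm)
    rw [Finsupp.weight_apply, Finsupp.sum, Finset.sum_eq_zero_iff] at h0
    have := h0 _ hz
    simp only [wX, Sum.elim_inl, smul_eq_mul, mul_one] at this
    exact (Finsupp.mem_support_iff.1 hz) this
  · exact ⟨a, rfl⟩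

lemma sub2_rename (g : Matrix ι ι ℝ) (f : MvPolynomial (ι × κ) ℝ) :
    (sub2 g (rename Sum.inr f) : P2 ι κ) = rename Sum.inr (sub g f) := by
  have : (sub2 g).comp (rename Sum.inr) =
      ((rename Sum.inr).comp (sub g) : MvPolynomial (ι × κ) ℝ →ₐ[ℝ] P2 ι κ) := by
    apply MvPolynomial.algHom_ext
    rintro ⟨a, p⟩
    simp only [AlgHom.comp_apply, rename_X, sub2_inr, sub_X, map_sum, map_mul]
    simp
  exact congrArg (fun F => F f) this

lemma rename_r (p q : κ) : (rename Sum.inr (r p q : MvPolynomial (ι × κ) ℝ) : P2 ι κ) = gV 0 p q := by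
  rw [r, gV, map_sum, dotProduct]
  refine Finset.sum_congr rfl fun a _ => ?_
  simp [vv]

lemma rename_mem {x : MvPolynomial (ι × κ) ℝ}
    (h1 : x ∈ Algebra.adjoin ℝ (Set.range fun pq : κ × κ => (r pq.1 pq.2 : MvPolynomial (ι × κ) ℝ))) :
    (rename Sum.inr x : P2 ι κ) ∈ AA ι κ := by
  induction h1 using Algebra.adjoin_induction with
  | mem x hx =>
    obtain ⟨⟨p, q⟩, rfl⟩ := hx
    rw [rename_r]; exact gV_mem _ _ _
  | algebraMap c => rw [AlgHom.commutes]; exact Subalgebra.algebraMap_mem _ _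
  | add x y _ _ hx hy => rw [map_add]; exact Subalgebra.add_mem _ hx hy
  | mul x y _ _ hx hy => rw [map_mul]; exact Subalgebra.mul_mem _ hx hy

theorem fft2_homog (d : ℕ) : ∀ (κ : Type) [Fintype κ] [DecidableEq κ] (f : P2 ι κ),
    f.IsWeightedHomogeneous wX d → Inv2 f → f ∈ AA ι κ := by
  induction d with
  | zero =>
    intro κ _ _ f hf hinv
    obtain ⟨f0, rfl⟩ := exists_rename_of_wX_zero hf
    have h0 : Inv f0 := by
      intro g hg
      have := hinv g hg
      rw [sub2_rename] at this
      exact rename_injective _ Sum.inr_injective this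
    exact rename_mem (fft f0 h0)
  | succ d ih =>
    intro κ _ _ f hf hinv
    have h1 : DU f ∈ AA ι (Option κ) :=
      ih (Option κ) (DU f) (by simpa using DU_homog hf (Nat.succ_pos d)) hinv.DU
    have h2 := Lop_mem h1
    rw [Lop_DU hf] at h2
    have h3 := ret_mem h2
    rw [map_nsmul, ret_emb] at h3
    have h4 : f = ((2 * (d + 1) : ℕ) : ℝ)⁻¹ • ((2 * (d + 1)) • f) := by
      rw [← Nat.cast_smul_eq_nsmul ℝ, smul_smul, inv_mul_cancel₀ (by positivity), one_smul]
    rw [h4]
    exact Subalgebra.smul_mem _ h3 _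

lemma sum_whc {σ : Type*} (w : σ → ℕ) (f : MvPolynomial σ ℝ) :
    ∑ i ∈ range (weightedTotalDegree w f + 1), weightedHomogeneousComponent w i f = f := by
  classical
  ext m
  rw [coeff_sum]
  simp only [coeff_weightedHomogeneousComponent]
  rw [Finset.sum_ite_eq]
  split_ifs with h
  · rfl
  · rw [Finset.mem_range, not_lt] at h
    by_contra hc
    have := le_weightedTotalDegree w (φ := f) (mem_support_iff.2 (Ne.symm hc))
    omega

lemma sub2_X_homog (g : Matrix ι ι ℝ) (i : Sym2 ι ⊕ ι × κ) :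
    (sub2 g (X i) : P2 ι κ).IsWeightedHomogeneous wX (wX i) := by
  rcases i with z | ⟨a, p⟩
  · induction z using Sym2.inductionOn with
    | hf a b =>
      rw [sub2_inl]
      refine IsWeightedHomogeneous.sum _ _ _ fun c _ => IsWeightedHomogeneous.sum _ _ _ fun e _ => ?_
      exact (isWeightedHomogeneous_X ℝ (wX (ι := ι) (κ := κ)) (Sum.inl s(c, e))).C_mul _
  · rw [sub2_inr]
    refine IsWeightedHomogeneous.sum _ _ _ fun c _ => ?_
    exact (isWeightedHomogeneous_X ℝ (wX (ι := ι) (κ := κ)) (Sum.inr (c, p))).C_mul _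

lemma sub2_homog (g : Matrix ι ι ℝ) {f : P2 ι κ} {d : ℕ} (hf : f.IsWeightedHomogeneous wX d) :
    (sub2 g f).IsWeightedHomogeneous wX d := by
  rw [f.as_sum, map_sum]
  refine IsWeightedHomogeneous.sum _ _ _ fun m hm => ?_
  rw [monomial_eq, map_mul, sub2_C]
  refine IsWeightedHomogeneous.C_mul ?_ _
  rw [Finsupp.prod, map_prod]
  have := IsWeightedHomogeneous.prod m.support
    (fun i => sub2 g (X i ^ m i : P2 ι κ)) (fun i => m i • wX i) (w := wX) (fun i _ => by
      rw [map_pow]
      exact (sub2_X_homog g i).pow (m i))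
  have h2 : ∑ i ∈ m.support, m i • wX i = d := by
    rw [← hf (mem_support_iff.1 hm), Finsupp.weight_apply]
    rfl
  rw [h2] at this
  exact this

lemma whc_sub2 (g : Matrix ι ι ℝ) (f : P2 ι κ) (N : ℕ) :
    weightedHomogeneousComponent wX N (sub2 g f) =
      sub2 g (weightedHomogeneousComponent wX N f) := by
  conv_lhs => rw [← sum_whc wX f, map_sum, map_sum]
  have : ∀ i, weightedHomogeneousComponent wX N (sub2 g (weightedHomogeneousComponent wX i f)) =
      if N = i then sub2 g (weightedHomogeneousComponent wX i f) else 0 := by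
    intro i
    exact weightedHomogeneousComponent_of_mem
      (sub2_homog g (weightedHomogeneousComponent_isWeightedHomogeneous i f))
  simp_rw [this]
  rw [Finset.sum_ite_eq]
  split_ifs with h
  · rfl
  · rw [Finset.mem_range, not_lt] at h
    rw [weightedHomogeneousComponent_eq_zero _ _ (by omega), map_zero]

/-- **First fundamental theorem for `O(n)`** on a symmetric matrix and vectors. -/
theorem fft2 {κ : Type} [Fintype κ] [DecidableEq κ] (f : P2 ι κ) (hf : Inv2 f) : f ∈ AA ι κ := by
  rw [← sum_whc wX f]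
  refine Subalgebra.sum_mem _ fun i _ => ?_
  refine fft2_homog i κ _ (weightedHomogeneousComponent_isWeightedHomogeneous i f) ?_
  intro g hg
  rw [← whc_sub2, hf g hg]

end H1.ME
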