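import Mathlib

/-!
# Symbols of differential operators, abstractly
-/

open MvPolynomial Finset

set_option linter.unusedSectionVars false
set_option linter.unusedSimpArgs false

namespace H1.ME

variable {R : Type*} [CommRing R] [Algebra ℂ R] {Cd : Type*}
  (der : Cd → Derivation ℂ R R)

/-- The iterated derivative along a word of coordinates. -/
noncomputable def dW (w : List Cd) : Module.End ℂ R :=
  (w.map fun c => ((der c : Derivation ℂ R R) : R →ₗ[ℂ] R)).prod

/-- monomial attached to a word -/
noncomputable def xW (w : List Cd) : MvPolynomial Cd R := (w.map X).prod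

lemma dW_nil : dW der [] = 1 := rfl

lemma dW_cons (c : Cd) (w : List Cd) (f : R) : dW der (c :: w) f = der c (dW der w f) := by
  rw [dW, List.map_cons, List.prod_cons]; rfl

lemma dW_cons' (c : Cd) (w : List Cd) :
    dW der (c :: w) = ((der c : Derivation ℂ R R) : R →ₗ[ℂ] R) * dW der w := by
  rw [dW, List.map_cons, List.prod_cons]; rfl

lemma dW_append (w v : List Cd) : dW der (w ++ v) = dW der w * dW der v := by
  rw [dW, List.map_append, List.prod_append]; rfl

lemma xW_cons (c : Cd) (w : List Cd) : (xW (c :: w) : MvPolynomial Cd R) = X c * xW w := by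
  rw [xW, List.map_cons, List.prod_cons]; rfl

/-- pairs (operator of order `≤ N`, its symbol of order `N`). -/
noncomputable def GG (N : ℕ) : Submodule R (Module.End ℂ R × MvPolynomial Cd R) :=
  Submodule.span R {x | ∃ w : List Cd, w.length ≤ N ∧
    x = (dW der w, if w.length = N then xW w else 0)}

lemma GG_gen (w : List Cd) {N : ℕ} (h : w.length = N) : (dW der w, xW w) ∈ GG der N :=
  Submodule.subset_span ⟨w, h.le, by rw [if_pos h]⟩

lemma GG_gen_lt (w : List Cd) {N : ℕ} (h : w.length < N) :
    (dW der w, (0 : MvPolynomial Cd R)) ∈ GG der N :=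
  Submodule.subset_span ⟨w, h.le, by rw [if_neg h.ne]⟩

lemma GG_mono {N M : ℕ} (h : N < M) {x : Module.End ℂ R × MvPolynomial Cd R} (hx : x ∈ GG der N) :
    (x.1, (0 : MvPolynomial Cd R)) ∈ GG der M := by
  unfold GG at hx
  induction hx using Submodule.span_induction with
  | mem x hx =>
    obtain ⟨w, hw, rfl⟩ := hx
    exact GG_gen_lt der w (by omega)
  | zero => exact Submodule.zero_mem _
  | add x y _ _ hx hy =>
    have := Submodule.add_mem _ hx hy
    simpa using this
  | smul a x _ hx =>
    have := Submodule.smul_mem _ a hx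
    simpa using this

lemma GG_der (c : Cd) {N : ℕ} {x : Module.End ℂ R × MvPolynomial Cd R} (hx : x ∈ GG der N) :
    ((((der c : Derivation ℂ R R) : R →ₗ[ℂ] R) : Module.End ℂ R) * x.1, X c * x.2) ∈
      GG der (N + 1) := by
  unfold GG at hx
  induction hx using Submodule.span_induction with
  | mem x hx =>
    obtain ⟨w, hw, rfl⟩ := hx
    by_cases h : w.length = N
    · have := GG_gen der (c :: w) (N := N + 1) (by simp [h])
      simp only [if_pos h]
      rw [dW_cons', xW_cons] at this
      exact this
    · have := GG_gen_lt der (c :: w) (N := N + 1) (by simp; omega)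
      simp only [if_neg h, mul_zero]
      rw [dW_cons'] at this
      exact this
  | zero =>
    simp only [Prod.fst_zero, Prod.snd_zero, mul_zero]
    exact Submodule.zero_mem (GG der (N + 1))
  | add x y _ _ hx hy =>
    have := Submodule.add_mem _ hx hy
    simpa [mul_add] using this
  | smul a x hx' hx =>
    have h1 := Submodule.smul_mem _ a hx
    have h2 := Submodule.smul_mem _ (der c a) (GG_mono der (Nat.lt_succ_self N) hx')
    have := Submodule.add_mem _ h1 h2
    convert this using 1
    ext1
    · ext f
      simp [Module.End.mul_apply]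
      ring
    · simp

lemma GG_dW_mul (w : List Cd) {M : ℕ} {x : Module.End ℂ R × MvPolynomial Cd R}
    (hx : x ∈ GG der M) : (dW der w * x.1, xW w * x.2) ∈ GG der (w.length + M) := by
  induction w with
  | nil =>
    simpa [dW, xW] using hx
  | cons c w ih =>
    have := GG_der der c ih
    rw [dW_cons', mul_assoc]
    have e : xW (c :: w) * x.2 = X c * (xW w * x.2) := by
      rw [xW, List.map_cons, List.prod_cons, mul_assoc]; rfl
    rw [e]
    have e2 : (c :: w).length + M = w.length + M + 1 := by simp; omega
    rw [e2]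
    exact this

theorem GG_mul {N M : ℕ} {x y : Module.End ℂ R × MvPolynomial Cd R}
    (hx : x ∈ GG der N) (hy : y ∈ GG der M) : (x.1 * y.1, x.2 * y.2) ∈ GG der (N + M) := by
  unfold GG at hx
  induction hx using Submodule.span_induction with
  | mem x hx =>
    obtain ⟨w, hw, rfl⟩ := hx
    have := GG_dW_mul der w hy
    by_cases h : w.length = N
    · simp only [if_pos h]
      rw [← h]; exact this
    · simp only [if_neg h, zero_mul]
      exact GG_mono der (by omega) this
  | zero =>
    simp only [Prod.fst_zero, Prod.snd_zero, zero_mul]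
    exact Submodule.zero_mem (GG der (N + M))
  | add x z _ _ hx hz =>
    have := Submodule.add_mem _ hx hz
    simpa [add_mul] using this
  | smul a x hx' hx =>
    have := Submodule.smul_mem _ a hx
    convert this using 1
    ext1
    · ext f; simp
    · simp

lemma GG_mulOp (a : R) : ((LinearMap.mulLeft ℂ a : Module.End ℂ R), (C a : MvPolynomial Cd R)) ∈
    GG der 0 := by
  have := Submodule.smul_mem _ a (GG_gen der [] (N := 0) rfl)
  convert this using 1
  ext1
  · ext f; simp [dW]
  · simp [xW, MvPolynomial.C_eq_smul_one]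

lemma GG_one : ((1 : Module.End ℂ R), (1 : MvPolynomial Cd R)) ∈ GG der 0 :=
  GG_gen der [] (N := 0) rfl

lemma GG_der1 (c : Cd) :
    ((((der c : Derivation ℂ R R) : R →ₗ[ℂ] R) : Module.End ℂ R), (X c : MvPolynomial Cd R)) ∈
      GG der 1 := by
  have := GG_der der c (GG_one der)
  simpa using this

/-! ### Evaluation of the symbol -/

lemma dW_pow (w : List Cd) (φ : R) (η : Cd → ℂ) (hφ : ∀ c, der c φ = algebraMap ℂ R (η c)) (N : ℕ) :
    dW der w (φ ^ N) =
      algebraMap ℂ R ((N.descFactorial w.length : ℂ) * (w.map η).prod) * φ ^ (N - w.length) := by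
  induction w with
  | nil => simp [dW]
  | cons c w ih =>
    rw [dW_cons, ih, Derivation.leibniz, Derivation.map_algebraMap, smul_zero, add_zero,
      Derivation.leibniz_pow, hφ]
    rw [List.length_cons, Nat.descFactorial_succ, List.map_cons, List.prod_cons]
    simp only [smul_eq_mul, nsmul_eq_mul, map_mul, map_natCast, Nat.cast_mul]
    rw [Nat.sub_sub]
    ring

lemma eval₂_xW (g : R →+* ℂ) (η : Cd → ℂ) (w : List Cd) :
    eval₂ g η (xW w : MvPolynomial Cd R) = (w.map η).prod := by
  induction w with
  | nil => simp [xW]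
  | cons c w ih => rw [xW_cons, eval₂_mul, eval₂_X, ih, List.map_cons, List.prod_cons]

theorem GG_eval {N : ℕ} {x : Module.End ℂ R × MvPolynomial Cd R} (hx : x ∈ GG der N)
    (ev : R →ₐ[ℂ] ℂ) (φ : R) (η : Cd → ℂ) (hφ : ∀ c, der c φ = algebraMap ℂ R (η c))
    (hφ0 : ev φ = 0) :
    ev (x.1 (φ ^ N)) = (N.factorial : ℂ) * eval₂ ev.toRingHom η x.2 := by
  unfold GG at hx
  induction hx using Submodule.span_induction with
  | mem x hx =>
    obtain ⟨w, hw, rfl⟩ := hx
    rw [dW_pow der w φ η hφ, map_mul, map_pow, hφ0, AlgHom.commutes]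
    by_cases h : w.length = N
    · simp only [if_pos h]
      rw [h, Nat.sub_self, pow_zero, mul_one, Nat.descFactorial_self]
      simp only [Algebra.algebraMap_self, RingHom.id_apply]
      congr 1
      rw [eval₂_xW]
    · simp only [if_neg h]
      rw [zero_pow (by omega)]
      simp
  | zero => simp
  | add x y _ _ hx hy =>
    simp only [Prod.fst_add, LinearMap.add_apply, map_add, Prod.snd_add, eval₂_add, hx, hy]
    ring
  | smul a x _ hx =>
    simp only [Prod.smul_fst, LinearMap.smul_apply, smul_eq_mul, map_mul, hx, Prod.smul_snd]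
    rw [MvPolynomial.smul_eq_C_mul, eval₂_mul, eval₂_C]
    simp only [AlgHom.toRingHom_eq_coe, RingHom.coe_coe]
    ring

/-! ### Section of the symbol map -/

/-- quantization: `a ξ^α ↦ a ∂^α` -/
noncomputable def QQ : MvPolynomial Cd R →ₗ[R] Module.End ℂ R :=
  (basisMonomials Cd R).constr R fun α => dW der (Finsupp.toMultiset α).toList

lemma xW_eq_monomial [DecidableEq Cd] (w : List Cd) :
    (xW w : MvPolynomial Cd R) = monomial (Multiset.toFinsupp (w : Multiset Cd)) 1 := by
  induction w with
  | nil => simp [xW]
  | cons c w ih =>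
    rw [xW_cons, ih, X, monomial_mul, one_mul, ← Multiset.cons_coe, ← Multiset.singleton_add,
      map_add, Multiset.toFinsupp_singleton]

lemma QQ_xW (hcomm : ∀ c d f, der c (der d f) = der d (der c f)) (w : List Cd) :
    QQ der (xW w) = dW der w := by
  classical
  have h1 : QQ der (xW w) =
      dW der (Finsupp.toMultiset (Multiset.toFinsupp (w : Multiset Cd))).toList := by
    rw [xW_eq_monomial, QQ]
    have := (basisMonomials Cd R).constr_basis R
      (fun α => dW der (Finsupp.toMultiset α).toList) (Multiset.toFinsupp (w : Multiset Cd))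
    rw [coe_basisMonomials] at this
    exact this
  rw [h1, Multiset.toFinsupp_toMultiset]
  have hp : List.Perm (Multiset.toList (w : Multiset Cd)) w := by
    rw [← Multiset.coe_eq_coe, Multiset.coe_toList]
  unfold dW
  refine List.Perm.prod_eq' (hp.map _) ?_
  rw [List.pairwise_map]
  refine List.pairwise_of_forall fun c d => ?_
  ext f
  exact hcomm c d f

/-- Subtracting the quantized symbol lowers the order. -/
theorem GG_sub_QQ (hcomm : ∀ c d f, der c (der d f) = der d (der c f)) {N : ℕ}
    {x : Module.End ℂ R × MvPolynomial Cd R} (hx : x ∈ GG der (N + 1)) :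
    ∃ q, (x.1 - QQ der x.2, q) ∈ GG der N := by
  unfold GG at hx
  induction hx using Submodule.span_induction with
  | mem x hx =>
    obtain ⟨w, hw, rfl⟩ := hx
    by_cases h : w.length = N + 1
    · simp only [if_pos h]
      rw [QQ_xW der hcomm, sub_self]
      exact ⟨0, Submodule.zero_mem _⟩
    · simp only [if_neg h, map_zero, sub_zero]
      exact ⟨_, Submodule.subset_span ⟨w, by omega, rfl⟩⟩
  | zero =>
    refine ⟨0, ?_⟩
    simp only [Prod.fst_zero, Prod.snd_zero, map_zero, sub_zero]
    exact Submodule.zero_mem _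
  | add x y _ _ hx hy =>
    obtain ⟨p, hp⟩ := hx
    obtain ⟨q, hq⟩ := hy
    refine ⟨p + q, ?_⟩
    have := Submodule.add_mem _ hp hq
    convert this using 1
    simp only [Prod.fst_add, Prod.snd_add, map_add, Prod.mk_add_mk]
    congr 1
    abel
  | smul a x _ hx =>
    obtain ⟨p, hp⟩ := hx
    refine ⟨a • p, ?_⟩
    have := Submodule.smul_mem _ a hp
    convert this using 1
    simp only [Prod.smul_fst, Prod.smul_snd, map_smul, Prod.smul_mk, smul_sub]

theorem GG_zero_eq (hcomm : ∀ c d f, der c (der d f) = der d (der c f))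
    {x : Module.End ℂ R × MvPolynomial Cd R} (hx : x ∈ GG der 0) : x.1 = QQ der x.2 := by
  unfold GG at hx
  induction hx using Submodule.span_induction with
  | mem x hx =>
    obtain ⟨w, hw, rfl⟩ := hx
    have : w.length = 0 := by omega
    simp only [if_pos this]
    rw [QQ_xW der hcomm]
  | zero => simp
  | add x y _ _ hx hy => simp [hx, hy]
  | smul a x _ hx => simp [hx]

end H1.ME
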