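import Mathlib
import Pool.Agent.H1.ME.Defs
import Pool.Agent.H1.ME.Symbol

/-!
# Basic calculus on `P_{n,m}`
-/

open scoped ContDiff Matrix
open MEuclid H1.ME

set_option linter.unusedSectionVars false
set_option linter.unusedSimpArgs false

namespace MinkowskiEuclid

variable {n m : ℕ}

lemma ext_mul (f g : P n m → ℂ) : ext (f * g) = ext f * ext g := by
  funext y
  by_cases hy : y ∈ P n m
  · simp [ext_of_mem _ hy]
  · simp [ext_of_notMem _ hy]

lemma pd_apply (c : Coord n m) (f : Smooth n m) (x : P n m) :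
    (pd c f).1 x = fderiv ℝ (ext f.1) x (Pi.single c 1) := rfl

lemma pd_mul (c : Coord n m) (f g : Smooth n m) : pd c (f * g) = f * pd c g + g * pd c f := by
  apply Subtype.ext
  funext x
  change fderiv ℝ (ext (f.1 * g.1)) x _ = f.1 x * fderiv ℝ (ext g.1) x _ + g.1 x * fderiv ℝ (ext f.1) x _
  rw [ext_mul, fderiv_mul (smooth_differentiableAt f x) (smooth_differentiableAt g x), ext_coe,
    ext_coe]
  simp

/-- partial derivative as a derivation -/
noncomputable def pdD (c : Coord n m) : Derivation ℂ (Smooth n m) (Smooth n m) :=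
  Derivation.mk' (pd c) fun f g => by
    rw [pd_mul]; rfl

lemma pdD_apply (c : Coord n m) (f : Smooth n m) : pdD c f = pd c f := rfl

lemma coe_pdD (c : Coord n m) : ((pdD c : Derivation ℂ (Smooth n m) (Smooth n m)) :
    Smooth n m →ₗ[ℂ] Smooth n m) = pd c := rfl

lemma pd_comm (c d : Coord n m) (f : Smooth n m) : pd c (pd d f) = pd d (pd c f) := by
  have key : ∀ c d : Coord n m, ∀ x : P n m, (pd c (pd d f)).1 x =
      fderiv ℝ (fderiv ℝ (ext f.1)) x (Pi.single c 1) (Pi.single d 1) := by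
    intro c d x
    rw [pd_apply]
    have h1 : ext (pd d f).1 =ᶠ[nhds (x : Amb n m)] fun y => fderiv ℝ (ext f.1) y (Pi.single d 1) := by
      filter_upwards [isOpen_P.mem_nhds x.2] with y hy
      rw [ext_of_mem _ hy]
      rfl
    rw [h1.fderiv_eq]
    have h2 : DifferentiableAt ℝ (fderiv ℝ (ext f.1)) x := by
      have h := (smooth_contDiffOn f).fderiv_of_isOpen (m := ∞) isOpen_P (by simp)
      exact (h.contDiffAt (isOpen_P.mem_nhds x.2)).differentiableAt (by simp)
    rw [fderiv_clm_apply h2 (differentiableAt_const _)]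
    simp
  apply Subtype.ext
  funext x
  rw [key c d x, key d c x]
  have h : ContDiffAt ℝ ∞ (ext f.1) x := (smooth_contDiffOn f).contDiffAt (isOpen_P.mem_nhds x.2)
  exact (h.isSymmSndFDerivAt (by
    simp only [minSmoothness_of_isRCLikeNormedField]
    exact WithTop.coe_le_coe.2 le_top)).eq _ _

lemma pd_coord (c d : Coord n m) : pd c (coord d) = if c = d then 1 else 0 := by
  apply Subtype.ext
  funext x
  rw [pd_apply]
  have h1 : ext (coord d : Smooth n m).1 =ᶠ[nhds (x : Amb n m)] fun y => ((y d : ℝ) : ℂ) := by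
    filter_upwards [isOpen_P.mem_nhds x.2] with y hy
    rw [ext_of_mem _ hy]
    rfl
  rw [h1.fderiv_eq]
  have h2 : HasFDerivAt (fun y : Amb n m => ((y d : ℝ) : ℂ))
      (Complex.ofRealCLM.comp (ContinuousLinearMap.proj d)) (x : Amb n m) :=
    Complex.ofRealCLM.hasFDerivAt.comp _ (hasFDerivAt_apply d (x : Amb n m))
  rw [h2.fderiv]
  by_cases h : c = d
  · subst h
    simp
  · simp [h, Pi.single_apply, Ne.symm h]

/-- The linear part of the action -/
noncomputable def actLin (A : GL (Fin n) ℝ) : Amb n m →ₗ[ℝ] Amb n m where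
  toFun x := actAmb A 0 x
  map_add' x y := by
    funext c
    rcases c with z | ⟨k, l⟩
    · induction z using Sym2.inductionOn with
      | hf i j =>
        change (A.1 * Y (x + y) * A.1ᵀ) i j = (A.1 * Y x * A.1ᵀ) i j + (A.1 * Y y * A.1ᵀ) i j
        have : Y (x + y) = Y x + Y y := rfl
        rw [this, Matrix.mul_add, Matrix.add_mul, Matrix.add_apply]
    · change ((V (x + y) + (0 : Matrix (Fin m) (Fin n) ℝ)) * A.1ᵀ : Matrix (Fin m) (Fin n) ℝ) k l =
        ((V x + (0 : Matrix (Fin m) (Fin n) ℝ)) * A.1ᵀ : Matrix (Fin m) (Fin n) ℝ) k l +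
        ((V y + (0 : Matrix (Fin m) (Fin n) ℝ)) * A.1ᵀ : Matrix (Fin m) (Fin n) ℝ) k l
      have : V (x + y) = V x + V y := rfl
      rw [this, add_zero, add_zero, add_zero, Matrix.add_mul, Matrix.add_apply]
  map_smul' a x := by
    funext c
    rcases c with z | ⟨k, l⟩
    · induction z using Sym2.inductionOn with
      | hf i j =>
        change (A.1 * Y (a • x) * A.1ᵀ) i j = a • (A.1 * Y x * A.1ᵀ) i j
        have : Y (a • x) = a • Y x := rfl
        rw [this, Matrix.mul_smul, Matrix.smul_mul, Matrix.smul_apply]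
    · change ((V (a • x) + (0 : Matrix (Fin m) (Fin n) ℝ)) * A.1ᵀ : Matrix (Fin m) (Fin n) ℝ) k l =
        a • ((V x + (0 : Matrix (Fin m) (Fin n) ℝ)) * A.1ᵀ : Matrix (Fin m) (Fin n) ℝ) k l
      have : V (a • x) = a • V x := rfl
      rw [this, add_zero, add_zero, Matrix.smul_mul, Matrix.smul_apply]

lemma actLin_inl (A : GL (Fin n) ℝ) (x : Amb n m) (i j : Fin n) :
    actLin A x (Sum.inl s(i, j)) = (A.1 * Y x * A.1ᵀ) i j := rfl

lemma actLin_inr (A : GL (Fin n) ℝ) (x : Amb n m) (k : Fin m) (l : Fin n) :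
    actLin A x (Sum.inr (k, l)) = (V x * A.1ᵀ) k l := by
  change ((V x + (0 : Matrix (Fin m) (Fin n) ℝ)) * A.1ᵀ : Matrix (Fin m) (Fin n) ℝ) k l = _
  rw [add_zero]

lemma actAmb_sub (A : GL (Fin n) ℝ) (b : Matrix (Fin m) (Fin n) ℝ) (x y : Amb n m) :
    actAmb A b x - actAmb A b y = actLin A (x - y) := by
  funext c
  rcases c with z | ⟨k, l⟩
  · induction z using Sym2.inductionOn with
    | hf i j =>
      change (A.1 * Y x * A.1ᵀ) i j - (A.1 * Y y * A.1ᵀ) i j = (A.1 * Y (x - y) * A.1ᵀ) i j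
      have : Y (x - y) = Y x - Y y := rfl
      rw [this, Matrix.mul_sub, Matrix.sub_mul, Matrix.sub_apply]
  · rw [actLin_inr]
    change ((V x + b) * A.1ᵀ) k l - ((V y + b) * A.1ᵀ) k l = (V (x - y) * A.1ᵀ) k l
    have : V (x - y) = V x - V y := rfl
    rw [this, Matrix.sub_mul, Matrix.sub_apply, Matrix.add_mul, Matrix.add_mul, Matrix.add_apply,
      Matrix.add_apply]
    ring

lemma hasFDerivAt_actAmb (A : GL (Fin n) ℝ) (b : Matrix (Fin m) (Fin n) ℝ) (x : Amb n m) :
    HasFDerivAt (actAmb A b) (LinearMap.toContinuousLinearMap (actLin A : Amb n m →ₗ[ℝ] Amb n m)) x := by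
  have : actAmb A b = fun y : Amb n m =>
      LinearMap.toContinuousLinearMap (actLin A : Amb n m →ₗ[ℝ] Amb n m) y + actAmb A b 0 := by
    funext y
    have := actAmb_sub A b y 0
    rw [sub_zero] at this
    simp only [LinearMap.coe_toContinuousLinearMap']
    rw [← this]
    abel
  rw [this]
  exact (ContinuousLinearMap.hasFDerivAt _).add_const _

/-- Chain rule. -/
lemma pd_pull (A : GL (Fin n) ℝ) (b : Matrix (Fin m) (Fin n) ℝ) (c : Coord n m) (f : Smooth n m) :
    pd c (pull A b f) = ∑ d, ((actLin A (Pi.single c 1 : Amb n m) d : ℝ) : ℂ) • pull A b (pd d f) := by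
  apply Subtype.ext
  funext x
  rw [pd_apply]
  have h1 : ext (pull A b f).1 =ᶠ[nhds (x : Amb n m)] fun y => ext f.1 (actAmb A b y) := by
    filter_upwards [isOpen_P.mem_nhds x.2] with y hy
    exact ext_comp_act A b f.1 hy
  rw [h1.fderiv_eq]
  have hf : HasFDerivAt (ext f.1) (fderiv ℝ (ext f.1) (actAmb A b x)) (actAmb A b x) :=
    (smooth_differentiableAt f (act A b x)).hasFDerivAt
  have h2 := hf.comp (x : Amb n m) (hasFDerivAt_actAmb A b (x : Amb n m))
  have h3 : (fun y => ext f.1 (actAmb A b y)) = ext f.1 ∘ actAmb A b := rfl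
  rw [h3, h2.fderiv]
  simp only [ContinuousLinearMap.comp_apply, LinearMap.coe_toContinuousLinearMap']
  set w : Amb n m := actLin A (Pi.single c 1) with hw
  have h4 : w = ∑ d, w d • (Pi.single d 1 : Amb n m) := by
    conv_lhs => rw [← Finset.univ_sum_single w]
    refine Finset.sum_congr rfl fun d _ => ?_
    rw [← Pi.single_smul]
    simp
  conv_lhs => rw [h4]
  rw [map_sum]
  have h5 : (∑ d, ((w d : ℝ) : ℂ) • pull A b (pd d f)).1 x = ∑ d, ((w d : ℝ) : ℂ) • (pd d f).1 (act A b x) := by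
    rw [AddSubmonoidClass.coe_finsetSum, Finset.sum_apply]
    rfl
  refine Eq.trans ?_ h5.symm
  refine Finset.sum_congr rfl fun d _ => ?_
  rw [map_smul, pd_apply]
  simp only [Complex.real_smul, smul_eq_mul]
  rfl

end MinkowskiEuclid
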