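import Mathlib
import Pool.Agent.H1.ME.Geom

/-!
# Invariance of the operators `D_j`, `Ω^{(k)}_{pq}`
-/

open scoped ContDiff Matrix
open MEuclid H1.ME

set_option linter.unusedSectionVars false
set_option linter.unusedSimpArgs false

namespace MinkowskiEuclid

variable {n m : ℕ}

/-- weight `(1 + δ_ij)/2` -/
noncomputable def w (i j : Fin n) : ℂ := (1 + if i = j then 1 else 0) / 2

lemma w_comm (i j : Fin n) : w i j = w j i := by simp [w, eq_comm]

lemma sum_sym2 {M : Type*} [AddCommGroup M] [Module ℂ M] (F : Sym2 (Fin n) → M) :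
    ∑ i, ∑ j, w i j • F s(i, j) = ∑ z, F z := by
  rw [← Finset.sum_product' (f := fun i j => w i j • F s(i, j)), Finset.univ_product_univ]
  rw [← Finset.sum_fiberwise Finset.univ (fun p : Fin n × Fin n => s(p.1, p.2))]
  refine Finset.sum_congr rfl fun z _ => ?_
  have h1 : ∑ p ∈ Finset.univ.filter (fun p : Fin n × Fin n => s(p.1, p.2) = z), w p.1 p.2 • F s(p.1, p.2) =
      (∑ p ∈ Finset.univ.filter (fun p : Fin n × Fin n => s(p.1, p.2) = z), w p.1 p.2) • F z := by
    rw [Finset.sum_smul]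
    refine Finset.sum_congr rfl fun p hp => ?_
    rw [Finset.mem_filter] at hp
    rw [hp.2]
  rw [h1]
  induction z using Sym2.inductionOn with
  | hf a b =>
    have h2 : Finset.univ.filter (fun p : Fin n × Fin n => s(p.1, p.2) = s(a, b)) =
        {(a, b), (b, a)} := by
      ext ⟨c, d⟩
      simp only [Finset.mem_filter, Finset.mem_univ, true_and, Finset.mem_insert,
        Finset.mem_singleton, Sym2.eq_iff, Prod.mk.injEq]
    rw [h2]
    by_cases hab : a = b
    · subst hab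
      simp [w]
    · rw [Finset.sum_pair (by simp [hab])]
      simp [w, hab, Ne.symm hab]
      norm_num

section

variable (A : GL (Fin n) ℝ) (b : Matrix (Fin m) (Fin n) ℝ)

/-- the pull back, as a linear operator -/
noncomputable def TT : Module.End ℂ (Smooth n m) := (pull A b).toLinearMap

lemma TT_apply (f : Smooth n m) : TT A b f = pull A b f := rfl

variable (n m) in
/-- scalar matrix with operator entries -/
noncomputable def sc {k l : ℕ} (B : Matrix (Fin k) (Fin l) ℝ) :
    Matrix (Fin k) (Fin l) (Module.End ℂ (Smooth n m)) :=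
  B.map fun r => algebraMap ℂ (Module.End ℂ (Smooth n m)) (r : ℂ)

/-- `T` times the identity matrix -/
noncomputable def tau (k : ℕ) : Matrix (Fin k) (Fin k) (Module.End ℂ (Smooth n m)) :=
  Matrix.diagonal fun _ => TT A b

lemma sc_mul {k l r : ℕ} (B : Matrix (Fin k) (Fin l) ℝ) (C : Matrix (Fin l) (Fin r) ℝ) :
    (sc n m (B * C)) = sc n m B * sc n m C := by
  ext1 i j
  simp only [sc, Matrix.map_apply, Matrix.mul_apply]
  rw [Complex.ofReal_sum, map_sum]
  refine Finset.sum_congr rfl fun x _ => ?_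
  rw [Complex.ofReal_mul, map_mul]

lemma sc_one {k : ℕ} : (sc n m (1 : Matrix (Fin k) (Fin k) ℝ)) = 1 := by
  ext1 i j
  by_cases h : i = j
  · subst h; simp [sc]
  · simp [sc, h]

lemma sc_transpose {k l : ℕ} (B : Matrix (Fin k) (Fin l) ℝ) :
    (sc n m B)ᵀ = sc n m Bᵀ := rfl

lemma tau_sc {k l : ℕ} (B : Matrix (Fin k) (Fin l) ℝ) :
    tau A b k * sc n m B = sc n m B * tau A b l := by
  ext1 i j
  rw [tau, tau, Matrix.diagonal_mul, Matrix.mul_diagonal]
  exact (Algebra.commutes (R := ℂ) (A := Module.End ℂ (Smooth n m)) _ _).symm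

lemma pull_coord (c : Coord n m) (x : P n m) :
    (pull A b (coord c)).1 x = ((actAmb A b x c : ℝ) : ℂ) := rfl

lemma tau_YM : tau A b n * YM n m = sc n m A.1 * YM n m * sc n m A.1ᵀ * tau A b n := by
  ext1 i j
  rw [tau, Matrix.diagonal_mul, Matrix.mul_diagonal]
  have h1 : pull A b (coord (Sum.inl s(i, j))) =
      ∑ k, ∑ l, ((A.1 i k * A.1 j l : ℝ) : ℂ) • (coord (Sum.inl s(k, l)) : Smooth n m) := by
    apply Subtype.ext
    funext x
    rw [pull_coord]
    change (((A.1 * Y (x : Amb n m) * A.1ᵀ : Matrix (Fin n) (Fin n) ℝ) i j : ℝ) : ℂ) = _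
    have h2 : (∑ k, ∑ l, ((A.1 i k * A.1 j l : ℝ) : ℂ) • (coord (Sum.inl s(k, l)) : Smooth n m)).1 x =
        ∑ k, ∑ l, ((A.1 i k * A.1 j l : ℝ) : ℂ) * (((x : Amb n m) (Sum.inl s(k, l)) : ℝ) : ℂ) := by
      rw [AddSubmonoidClass.coe_finsetSum, Finset.sum_apply]
      refine Finset.sum_congr rfl fun k _ => ?_
      rw [AddSubmonoidClass.coe_finsetSum, Finset.sum_apply]
      rfl
    refine Eq.trans ?_ h2.symm
    rw [Matrix.mul_apply]
    simp only [Matrix.mul_apply, Finset.sum_mul, Y, Matrix.of_apply, Matrix.transpose_apply]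
    rw [Finset.sum_comm]
    push_cast
    refine Finset.sum_congr rfl fun k _ => Finset.sum_congr rfl fun l _ => ?_
    ring
  apply LinearMap.ext
  intro f
  have h3 : (sc n m A.1 * YM n m * sc n m A.1ᵀ) i j =
      ∑ k, ∑ l, ((A.1 i k * A.1 j l : ℝ) : ℂ) • mulOp (coord (Sum.inl s(k, l)) : Smooth n m) := by
    rw [Matrix.mul_apply]
    simp only [Matrix.mul_apply, Finset.sum_mul]
    rw [Finset.sum_comm]
    refine Finset.sum_congr rfl fun k _ => Finset.sum_congr rfl fun l _ => ?_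
    simp only [sc, Matrix.map_apply, YM, Matrix.of_apply, Matrix.transpose_apply]
    rw [mul_assoc, ← Algebra.commutes, ← mul_assoc, ← map_mul, Algebra.smul_def]
    push_cast
    rfl
  rw [h3]
  change pull A b (coord (Sum.inl s(i, j)) * f) = _
  rw [map_mul, h1]
  simp only [Module.End.mul_apply, LinearMap.sum_apply, LinearMap.smul_apply, TT_apply]
  rw [Finset.sum_mul]
  refine Finset.sum_congr rfl fun k _ => ?_
  rw [Finset.sum_mul]
  refine Finset.sum_congr rfl fun l _ => ?_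
  rw [Algebra.smul_mul_assoc]
  rfl

lemma dV_tau : dV n m * tau A b n = tau A b m * dV n m * sc n m A.1 := by
  ext1 i j
  rw [tau, tau, Matrix.mul_diagonal, Matrix.mul_apply]
  simp only [Matrix.diagonal_mul]
  apply LinearMap.ext
  intro f
  change pd (Sum.inr (i, j)) (pull A b f) = _
  rw [pd_pull, Fintype.sum_sum_type]
  rw [Finset.sum_eq_zero, zero_add]
  · rw [Fintype.sum_prod_type]
    rw [Finset.sum_eq_single i]
    · rw [LinearMap.sum_apply]
      refine Finset.sum_congr rfl fun l _ => ?_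
      have h1 : actLin A (Pi.single (Sum.inr (i, j)) 1 : Amb n m) (Sum.inr (i, l)) = A.1 l j := by
        rw [actLin_inr, Matrix.mul_apply, Finset.sum_eq_single j]
        · simp [V]
        · intro c _ hc
          simp [V, Pi.single_apply, hc]
        · simp
      rw [h1]
      simp only [sc, Matrix.map_apply]
      rw [← Algebra.commutes]
      simp only [dV, Matrix.of_apply]
      rw [Module.End.mul_apply, Module.algebraMap_end_apply]
      rfl
    · intro k _ hk
      refine Finset.sum_eq_zero fun l _ => ?_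
      have h1 : actLin A (Pi.single (Sum.inr (i, j)) 1 : Amb n m) (Sum.inr (k, l)) = 0 := by
        rw [actLin_inr, Matrix.mul_apply]
        refine Finset.sum_eq_zero fun c _ => ?_
        simp [V, Pi.single_apply, hk]
      rw [h1]; simp
    · simp
  · intro z _
    induction z using Sym2.inductionOn with
    | hf a c =>
      have h1 : actLin A (Pi.single (Sum.inr (i, j)) 1 : Amb n m) (Sum.inl s(a, c)) = 0 := by
        rw [actLin_inl]
        have : Y (Pi.single (Sum.inr (i, j)) 1 : Amb n m) = 0 := by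
          ext a c
          simp [Y]
        rw [this]; simp
      rw [h1]; simp

lemma w_mul_actLin (i j k l : Fin n) :
    w i j * ((actLin A (Pi.single (Sum.inl s(i, j)) 1 : Amb n m) (Sum.inl s(k, l)) : ℝ) : ℂ) =
      ((A.1 k i * A.1 l j : ℝ) : ℂ) / 2 + ((A.1 k j * A.1 l i : ℝ) : ℂ) / 2 := by
  rw [actLin_inl, Matrix.mul_apply]
  simp only [Matrix.mul_apply, Finset.sum_mul, Y, Matrix.of_apply, Matrix.transpose_apply]
  have h6 : ∀ c d : Fin n, w i j * (((Pi.single (Sum.inl s(i, j)) 1 : Amb n m) (Sum.inl s(c, d)) : ℝ) : ℂ) =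
      (if c = i ∧ d = j then 1 / 2 else 0) + (if c = j ∧ d = i then 1 / 2 else 0) := by
    intro c d
    rw [Pi.single_apply]
    simp only [Sum.inl.injEq, Sym2.eq_iff]
    by_cases hij : i = j
    · subst hij
      by_cases h : c = i ∧ d = i
      · simp [h, w]; norm_num
      · simp [h]
    · by_cases h : c = i ∧ d = j
      · have : ¬ (c = j ∧ d = i) := by
          rintro ⟨h1, h2⟩
          exact hij (h.1.symm.trans h1)
        simp [h, w, hij]
      · by_cases h' : c = j ∧ d = i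
        · simp [h', w, hij, Ne.symm hij]
        · simp [h, h']
  push_cast
  rw [Finset.mul_sum]
  have h7 : ∀ d, w i j * ∑ c, ((A.1 k c : ℝ) : ℂ) *
      (((Pi.single (Sum.inl s(i, j)) 1 : Amb n m) (Sum.inl s(c, d)) : ℝ) : ℂ) * ((A.1 l d : ℝ) : ℂ) =
      (if d = j then ((A.1 k i * A.1 l j : ℝ) : ℂ) / 2 else 0) +
      (if d = i then ((A.1 k j * A.1 l i : ℝ) : ℂ) / 2 else 0) := by
    intro d
    rw [Finset.mul_sum]
    have : ∀ c, w i j * (((A.1 k c : ℝ) : ℂ) *
      (((Pi.single (Sum.inl s(i, j)) 1 : Amb n m) (Sum.inl s(c, d)) : ℝ) : ℂ) * ((A.1 l d : ℝ) : ℂ)) =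
        (if c = i then (if d = j then ((A.1 k i * A.1 l j : ℝ) : ℂ) / 2 else 0) else 0) +
        (if c = j then (if d = i then ((A.1 k j * A.1 l i : ℝ) : ℂ) / 2 else 0) else 0) := by
      intro c
      have e : w i j * (((A.1 k c : ℝ) : ℂ) *
        (((Pi.single (Sum.inl s(i, j)) 1 : Amb n m) (Sum.inl s(c, d)) : ℝ) : ℂ) * ((A.1 l d : ℝ) : ℂ)) =
        ((A.1 k c : ℝ) : ℂ) * ((A.1 l d : ℝ) : ℂ) * (w i j *
        (((Pi.single (Sum.inl s(i, j)) 1 : Amb n m) (Sum.inl s(c, d)) : ℝ) : ℂ)) := by ring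
      rw [e, h6]
      by_cases h1 : c = i <;> by_cases h2 : d = j <;> by_cases h3 : c = j <;> by_cases h4 : d = i <;>
        simp_all <;> ring
    simp_rw [this, Finset.sum_add_distrib]
    simp
  push_cast at h7
  simp_rw [h7, Finset.sum_add_distrib]
  simp

lemma dY_tau : dY n m * tau A b n = sc n m A.1ᵀ * tau A b n * dY n m * sc n m A.1 := by
  ext1 i j
  have h3 : (sc n m A.1ᵀ * tau A b n * dY n m * sc n m A.1) i j =
      ∑ k, ∑ l, ((A.1 k i * A.1 l j : ℝ) : ℂ) • (w k l • (TT A b * (pd (Sum.inl s(k, l)) : Module.End ℂ (Smooth n m)))) := by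
    have e1 : ∀ i k, (sc n m A.1ᵀ * tau A b n) i k = (sc n m A.1ᵀ) i k * TT A b := by
      intro i k
      rw [tau, Matrix.mul_diagonal]
    rw [Matrix.mul_apply]
    have e2 : ∀ l, (sc n m A.1ᵀ * tau A b n * dY n m) i l =
        ∑ k, (sc n m A.1ᵀ) i k * TT A b * dY n m k l := by
      intro l
      rw [Matrix.mul_apply]
      exact Finset.sum_congr rfl fun k _ => by rw [e1]
    simp_rw [e2, Finset.sum_mul]
    rw [Finset.sum_comm]
    refine Finset.sum_congr rfl fun k _ => Finset.sum_congr rfl fun l _ => ?_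
    simp only [sc, Matrix.map_apply, dY, Matrix.of_apply, Matrix.transpose_apply]
    rw [← Algebra.commutes, ← mul_assoc, ← mul_assoc, ← map_mul, mul_smul_comm, mul_assoc,
      ← Algebra.smul_def]
    rw [smul_comm]
    congr 2
    push_cast
    ring
  rw [h3, tau, Matrix.mul_diagonal]
  apply LinearMap.ext
  intro f
  have h4 : (dY n m i j * TT A b) f = w i j • pd (Sum.inl s(i, j)) (pull A b f) := rfl
  rw [h4, pd_pull, Fintype.sum_sum_type]
  have hzero : ∑ x : Fin m × Fin n,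
      ((actLin A (Pi.single (Sum.inl s(i, j)) 1 : Amb n m) (Sum.inr x) : ℝ) : ℂ) •
        pull A b (pd (Sum.inr x) f) = 0 := by
    refine Finset.sum_eq_zero fun x _ => ?_
    obtain ⟨k, l⟩ := x
    have h1 : actLin A (Pi.single (Sum.inl s(i, j)) 1 : Amb n m) (Sum.inr (k, l)) = 0 := by
      rw [actLin_inr]
      have : V (Pi.single (Sum.inl s(i, j)) 1 : Amb n m) = 0 := by
        ext a c
        simp [V]
      rw [this]; simp
    rw [h1]; simp
  rw [hzero, add_zero, ← sum_sym2 (fun z =>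
    ((actLin A (Pi.single (Sum.inl s(i, j)) 1 : Amb n m) (Sum.inl z) : ℝ) : ℂ) •
        pull A b (pd (Sum.inl z) f))]
  have h5 := w_mul_actLin (m := m) A i j
  rw [Finset.smul_sum]
  simp only [Finset.smul_sum, LinearMap.sum_apply, LinearMap.smul_apply, Module.End.mul_apply,
    TT_apply]
  have h8 : ∀ k l, w i j • w k l •
      ((actLin A (Pi.single (Sum.inl s(i, j)) 1 : Amb n m) (Sum.inl s(k, l)) : ℝ) : ℂ) •
        pull A b (pd (Sum.inl s(k, l)) f) =
      (((A.1 k i * A.1 l j : ℝ) : ℂ) / 2) • w k l • pull A b (pd (Sum.inl s(k, l)) f) +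
      (((A.1 k j * A.1 l i : ℝ) : ℂ) / 2) • w k l • pull A b (pd (Sum.inl s(k, l)) f) := by
    intro k l
    rw [smul_comm (w k l), smul_smul (w i j), h5, add_smul]
  simp_rw [h8, Finset.sum_add_distrib]
  have h9 : ∑ k, ∑ l, (((A.1 k j * A.1 l i : ℝ) : ℂ) / 2) • w k l • pull A b (pd (Sum.inl s(k, l)) f) =
      ∑ k, ∑ l, (((A.1 k i * A.1 l j : ℝ) : ℂ) / 2) • w k l • pull A b (pd (Sum.inl s(k, l)) f) := by
    rw [Finset.sum_comm]
    refine Finset.sum_congr rfl fun k _ => Finset.sum_congr rfl fun l _ => ?_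
    rw [Sym2.eq_swap, w_comm, mul_comm (A.1 l j)]
  rw [h9, ← Finset.sum_add_distrib]
  refine Finset.sum_congr rfl fun k _ => ?_
  rw [← Finset.sum_add_distrib]
  refine Finset.sum_congr rfl fun l _ => ?_
  rw [← add_smul]
  congr 1
  ring

lemma BA : (A⁻¹).1 * A.1 = 1 := by
  rw [← Units.val_mul, inv_mul_cancel, Units.val_one]

lemma AB : A.1 * (A⁻¹).1 = 1 := by
  rw [← Units.val_mul, mul_inv_cancel, Units.val_one]

lemma AtBt : A.1ᵀ * (A⁻¹).1ᵀ = 1 := by
  rw [← Matrix.transpose_mul, BA, Matrix.transpose_one]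

lemma BtAt : (A⁻¹).1ᵀ * A.1ᵀ = 1 := by
  rw [← Matrix.transpose_mul, AB, Matrix.transpose_one]

lemma YM_tau : YM n m * tau A b n = sc n m (A⁻¹).1 * tau A b n * YM n m * sc n m (A⁻¹).1ᵀ := by
  calc YM n m * tau A b n
      = sc n m ((A⁻¹).1 * A.1) * YM n m * sc n m (A.1ᵀ * (A⁻¹).1ᵀ) * tau A b n := by
        rw [BA, AtBt, sc_one, one_mul, mul_one]
    _ = sc n m (A⁻¹).1 * (sc n m A.1 * YM n m * sc n m A.1ᵀ * tau A b n) * sc n m (A⁻¹).1ᵀ := by
        rw [sc_mul, sc_mul]
        simp only [mul_assoc]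
        rw [tau_sc]
    _ = _ := by
        rw [← tau_YM]
        simp only [mul_assoc]

lemma YdY_tau : YdY n m * tau A b n = sc n m (A⁻¹).1 * tau A b n * YdY n m * sc n m A.1 := by
  rw [YdY, smul_mul_assoc, mul_smul_comm, smul_mul_assoc]
  congr 1
  calc YM n m * dY n m * tau A b n = YM n m * (dY n m * tau A b n) := mul_assoc _ _ _
    _ = YM n m * (tau A b n * sc n m A.1ᵀ * dY n m * sc n m A.1) := by rw [dY_tau, tau_sc]
    _ = (YM n m * tau A b n) * (sc n m A.1ᵀ * dY n m * sc n m A.1) := by simp only [mul_assoc]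
    _ = sc n m (A⁻¹).1 * tau A b n * YM n m * (sc n m ((A⁻¹).1ᵀ * A.1ᵀ)) * dY n m * sc n m A.1 := by
        rw [YM_tau, sc_mul]; simp only [mul_assoc]
    _ = _ := by rw [BtAt, sc_one, mul_one]; simp only [mul_assoc]

lemma YdY_pow_tau (j : ℕ) :
    YdY n m ^ j * tau A b n = sc n m (A⁻¹).1 * tau A b n * YdY n m ^ j * sc n m A.1 := by
  induction j with
  | zero =>
    rw [pow_zero, one_mul, mul_one, mul_assoc, tau_sc, ← mul_assoc, ← sc_mul, BA, sc_one, one_mul]
  | succ j ih =>
    calc YdY n m ^ (j + 1) * tau A b n = YdY n m ^ j * (YdY n m * tau A b n) := by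
          rw [pow_succ, mul_assoc]
      _ = YdY n m ^ j * (tau A b n * sc n m (A⁻¹).1 * YdY n m * sc n m A.1) := by
          rw [YdY_tau, tau_sc]
      _ = (YdY n m ^ j * tau A b n) * (sc n m (A⁻¹).1 * YdY n m * sc n m A.1) := by
          simp only [mul_assoc]
      _ = sc n m (A⁻¹).1 * tau A b n * YdY n m ^ j * sc n m (A.1 * (A⁻¹).1) * YdY n m * sc n m A.1 := by
          rw [ih, sc_mul]; simp only [mul_assoc]
      _ = _ := by rw [AB, sc_one, mul_one, pow_succ]; simp only [mul_assoc]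

lemma trace_conj (X : Matrix (Fin n) (Fin n) (Module.End ℂ (Smooth n m))) :
    Matrix.trace (sc n m (A⁻¹).1 * X * sc n m A.1) = Matrix.trace X := by
  have h1 : Matrix.trace (sc n m (A⁻¹).1 * X * sc n m A.1) =
      ∑ k, ∑ j, (sc n m A.1 * sc n m (A⁻¹).1) k j * X j k := by
    rw [Matrix.trace]
    simp only [Matrix.diag_apply, Matrix.mul_apply, Finset.sum_mul]
    rw [Finset.sum_comm]
    refine Finset.sum_congr rfl fun k _ => ?_
    rw [Finset.sum_comm]
    refine Finset.sum_congr rfl fun j _ => Finset.sum_congr rfl fun i _ => ?_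
    have hc := Algebra.commutes (R := ℂ) (A := Module.End ℂ (Smooth n m)) ((A.1 k i : ℝ) : ℂ)
      (sc n m (A⁻¹).1 i j * X j k)
    have e : sc n m A.1 k i = algebraMap ℂ (Module.End ℂ (Smooth n m)) ((A.1 k i : ℝ) : ℂ) := rfl
    rw [e, ← hc, ← mul_assoc]
  rw [h1, ← sc_mul, AB, sc_one, Matrix.trace]
  refine Finset.sum_congr rfl fun k _ => ?_
  rw [Finset.sum_eq_single k]
  · simp
  · intro j _ hj
    rw [Matrix.one_apply_ne (Ne.symm hj), zero_mul]
  · simp

lemma trace_mul_tau (X : Matrix (Fin n) (Fin n) (Module.End ℂ (Smooth n m))) :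
    Matrix.trace (X * tau A b n) = Matrix.trace X * TT A b := by
  rw [Matrix.trace, Matrix.trace, Finset.sum_mul]
  refine Finset.sum_congr rfl fun k _ => ?_
  rw [Matrix.diag_apply, tau, Matrix.mul_diagonal, Matrix.diag_apply]

lemma trace_tau_mul (X : Matrix (Fin n) (Fin n) (Module.End ℂ (Smooth n m))) :
    Matrix.trace (tau A b n * X) = TT A b * Matrix.trace X := by
  rw [Matrix.trace, Matrix.trace, Finset.mul_sum]
  refine Finset.sum_congr rfl fun k _ => ?_
  rw [Matrix.diag_apply, tau, Matrix.diagonal_mul, Matrix.diag_apply]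

lemma Dop_comm (j : ℕ) : Dop n m j * TT A b = TT A b * Dop n m j := by
  rw [Dop, ← trace_mul_tau, YdY_pow_tau, ← trace_tau_mul, mul_assoc (sc n m (A⁻¹).1), trace_conj]

lemma dVt_tau : (dV n m)ᵀ * tau A b m = tau A b n * sc n m A.1ᵀ * (dV n m)ᵀ := by
  have h := dV_tau A b
  ext1 l k
  have h1 := congrFun (congrFun h k) l
  rw [tau, Matrix.mul_diagonal] at h1 ⊢
  rw [Matrix.transpose_apply, h1, tau, tau, Matrix.mul_assoc, Matrix.diagonal_mul,
    Matrix.mul_assoc, Matrix.diagonal_mul, Matrix.mul_apply, Matrix.mul_apply]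
  congr 1
  refine Finset.sum_congr rfl fun x _ => ?_
  exact (Algebra.commutes (R := ℂ) (A := Module.End ℂ (Smooth n m)) ((A.1 x l : ℝ) : ℂ)
    (dV n m k x)).symm

lemma Omega_mat :
    ∀ k : ℕ, (dV n m * YdY n m ^ k * YM n m * (dV n m)ᵀ) * tau A b m =
      tau A b m * (dV n m * YdY n m ^ k * YM n m * (dV n m)ᵀ) := by
  intro k
  calc (dV n m * YdY n m ^ k * YM n m * (dV n m)ᵀ) * tau A b m
      = dV n m * YdY n m ^ k * YM n m * ((dV n m)ᵀ * tau A b m) := by simp only [Matrix.mul_assoc]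
    _ = dV n m * YdY n m ^ k * (YM n m * tau A b n) * (sc n m A.1ᵀ * (dV n m)ᵀ) := by
        rw [dVt_tau]; simp only [Matrix.mul_assoc]
    _ = dV n m * YdY n m ^ k * (tau A b n * sc n m (A⁻¹).1 * YM n m * sc n m ((A⁻¹).1ᵀ * A.1ᵀ)) *
          (dV n m)ᵀ := by
        rw [YM_tau, sc_mul, ← tau_sc]; simp only [Matrix.mul_assoc]
    _ = dV n m * (YdY n m ^ k * tau A b n) * sc n m (A⁻¹).1 * YM n m * (dV n m)ᵀ := by
        rw [BtAt, sc_one, Matrix.mul_one]; simp only [Matrix.mul_assoc]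
    _ = dV n m * (tau A b n * sc n m (A⁻¹).1) * YdY n m ^ k * sc n m (A.1 * (A⁻¹).1) * YM n m *
          (dV n m)ᵀ := by
        rw [YdY_pow_tau, sc_mul, ← tau_sc]; simp only [Matrix.mul_assoc]
    _ = (dV n m * tau A b n) * sc n m (A⁻¹).1 * YdY n m ^ k * YM n m * (dV n m)ᵀ := by
        rw [AB, sc_one, Matrix.mul_one]; simp only [Matrix.mul_assoc]
    _ = tau A b m * dV n m * sc n m (A.1 * (A⁻¹).1) * YdY n m ^ k * YM n m * (dV n m)ᵀ := by
        rw [dV_tau, sc_mul]; simp only [Matrix.mul_assoc]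
    _ = _ := by rw [AB, sc_one, Matrix.mul_one]; simp only [Matrix.mul_assoc]

lemma Omega_comm (k : ℕ) (p q : Fin m) : Omega n m k p q * TT A b = TT A b * Omega n m k p q := by
  have h := congrFun (congrFun (Omega_mat A b k) p) q
  rw [tau, Matrix.mul_diagonal, Matrix.diagonal_mul] at h
  exact h

end

lemma Dop_invariant (j : ℕ) : IsInvariant (Dop n m j) := by
  intro A b f
  exact congrArg (fun F : Module.End ℂ (Smooth n m) => F f) (Dop_comm A b j)

lemma Omega_invariant (k : ℕ) (p q : Fin m) : IsInvariant (Omega n m k p q) := by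
  intro A b f
  exact congrArg (fun F : Module.End ℂ (Smooth n m) => F f) (Omega_comm A b k p q)

end MinkowskiEuclid
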