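import Mathlib
import Pool.Agent.H1.ME.FFTSym

/-!
# Reduction to finitely many generators
-/

open MvPolynomial Finset

set_option linter.unusedSectionVars false
set_option linter.unusedSimpArgs false

namespace H1.ME

variable {ι κ : Type*} [Fintype ι] [DecidableEq ι] [Fintype κ] [DecidableEq κ]

/-- algebra generated by the first `n` power sums -/
noncomputable def PS (ι : Type*) [Fintype ι] : Subalgebra ℝ (MvPolynomial ι ℝ) :=
  Algebra.adjoin ℝ {f | ∃ j, 1 ≤ j ∧ j ≤ Fintype.card ι ∧ f = psum ι ℝ j}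

lemma esymm_mem (k : ℕ) (hk : k ≤ Fintype.card ι) : esymm ι ℝ k ∈ PS ι := by
  induction k using Nat.strong_induction_on with
  | _ k ih =>
    rcases Nat.eq_zero_or_pos k with h0 | hpos
    · subst h0; rw [esymm_zero]; exact Subalgebra.one_mem _
    · have h := mul_esymm_eq_sum ι ℝ k
      have h2 : esymm ι ℝ k = ((k : ℝ)⁻¹) • ((k : MvPolynomial ι ℝ) * esymm ι ℝ k) := by
        have : (k : MvPolynomial ι ℝ) * esymm ι ℝ k = (k : ℝ) • esymm ι ℝ k := by
          rw [← nsmul_eq_mul, Nat.cast_smul_eq_nsmul]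
        rw [this, smul_smul, inv_mul_cancel₀ (by positivity), one_smul]
      rw [h2, h]
      refine Subalgebra.smul_mem _ (Subalgebra.mul_mem _ ?_ ?_) _
      · exact Subalgebra.pow_mem _ (Subalgebra.neg_mem _ (Subalgebra.one_mem _)) _
      · refine Subalgebra.sum_mem _ fun a ha => ?_
        rw [Finset.mem_filter, HasAntidiagonal.mem_antidiagonal] at ha
        refine Subalgebra.mul_mem _ (Subalgebra.mul_mem _ ?_ (ih a.1 ha.2 (by omega))) ?_
        · exact Subalgebra.pow_mem _ (Subalgebra.neg_mem _ (Subalgebra.one_mem _)) _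
        · exact Algebra.subset_adjoin ⟨a.2, by omega, by omega, rfl⟩

lemma esymm_eq_zero {k : ℕ} (hk : Fintype.card ι < k) : esymm ι ℝ k = 0 := by
  rw [esymm, Finset.powersetCard_eq_empty.2 (by simpa using hk), Finset.sum_empty]

lemma psum_mem (k : ℕ) : psum ι ℝ k ∈ PS ι := by
  induction k using Nat.strong_induction_on with
  | _ k ih =>
    rcases Nat.eq_zero_or_pos k with h0 | hpos
    · subst h0; rw [psum_zero]
      exact Subalgebra.natCast_mem _ _
    · rcases Nat.lt_or_ge (Fintype.card ι) k with hk | hk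
      · rw [psum_eq_mul_esymm_sub_sum ι ℝ k hpos, esymm_eq_zero hk, mul_zero, zero_sub]
        refine Subalgebra.neg_mem _ (Subalgebra.sum_mem _ fun a ha => ?_)
        rw [Finset.mem_filter, HasAntidiagonal.mem_antidiagonal, Set.mem_Ioo] at ha
        rcases Nat.lt_or_ge (Fintype.card ι) a.1 with h1 | h1
        · rw [esymm_eq_zero h1, mul_zero, zero_mul]; exact Subalgebra.zero_mem _
        · refine Subalgebra.mul_mem _ (Subalgebra.mul_mem _ ?_ (esymm_mem _ h1)) (ih _ (by omega))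
          exact Subalgebra.pow_mem _ (Subalgebra.neg_mem _ (Subalgebra.one_mem _)) _
      · exact Algebra.subset_adjoin ⟨k, hpos, hk, rfl⟩

/-- The algebra generated by finitely many basic invariants. -/
noncomputable def AF (ι κ : Type*) [Fintype ι] [DecidableEq ι] [Fintype κ] [DecidableEq κ] :
    Subalgebra ℝ (P2 ι κ) :=
  Algebra.adjoin ℝ ({f | ∃ j, 1 ≤ j ∧ j ≤ Fintype.card ι ∧ f = gT j} ∪
    {f | ∃ l p q, l < Fintype.card ι ∧ f = gV l p q})

/-- the real symmetric matrix attached to a point -/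
def Ax (x : Sym2 ι ⊕ ι × κ → ℝ) : Matrix ι ι ℝ := Matrix.of fun a b => x (Sum.inl s(a, b))

lemma Ax_herm (x : Sym2 ι ⊕ ι × κ → ℝ) : (Ax x).IsHermitian := by
  ext a b
  simp [Ax, Sym2.eq_swap]

noncomputable def lam (x : Sym2 ι ⊕ ι × κ → ℝ) : ι → ℝ := (Ax_herm x).eigenvalues

lemma trace_pow (x : Sym2 ι ⊕ ι × κ → ℝ) (j : ℕ) :
    ((Ax x) ^ j).trace = ∑ i, lam x i ^ j := by
  conv_lhs => rw [(Ax_herm x).spectral_theorem, ← map_pow, Unitary.conjStarAlgAut_apply,
    Matrix.trace_mul_comm, ← mul_assoc]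
  simp [Matrix.diagonal_pow, lam]

lemma eval_SM_pow (x : Sym2 ι ⊕ ι × κ → ℝ) (j : ℕ) (a b : ι) :
    eval x ((SM ^ j : Matrix ι ι (P2 ι κ)) a b) = ((Ax x) ^ j) a b := by
  have h2 := map_pow (eval x).mapMatrix (SM : Matrix ι ι (P2 ι κ)) j
  have h3 : (eval x).mapMatrix (SM : Matrix ι ι (P2 ι κ)) = Ax x := by
    ext a b
    simp [SM_apply, Ax]
  rw [h3] at h2
  exact congrFun (congrFun h2 a) b

lemma eval_gT (x : Sym2 ι ⊕ ι × κ → ℝ) (j : ℕ) :
    eval x (gT j : P2 ι κ) = ∑ i, lam x i ^ j := by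
  rw [← trace_pow, gT, Matrix.trace, map_sum, Matrix.trace]
  exact Finset.sum_congr rfl fun a _ => eval_SM_pow _ _ _ _

lemma exists_lift {f : MvPolynomial ι ℝ} (hf : f ∈ PS ι) :
    ∃ F ∈ AF ι κ, ∀ x, eval x F = eval (lam x) f := by
  unfold PS at hf
  induction hf using Algebra.adjoin_induction with
  | mem f hf =>
    obtain ⟨j, h1, h2, rfl⟩ := hf
    refine ⟨gT j, Algebra.subset_adjoin (Or.inl ⟨j, h1, h2, rfl⟩), fun x => ?_⟩
    rw [eval_gT]
    simp [psum]
  | algebraMap c => exact ⟨algebraMap _ _ c, Subalgebra.algebraMap_mem _ _, fun x => by simp⟩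
  | add f g _ _ hf hg =>
    obtain ⟨F, hF, hF'⟩ := hf
    obtain ⟨G, hG, hG'⟩ := hg
    exact ⟨F + G, Subalgebra.add_mem _ hF hG, fun x => by rw [map_add, map_add, hF', hG']⟩
  | mul f g _ _ hf hg =>
    obtain ⟨F, hF, hF'⟩ := hf
    obtain ⟨G, hG, hG'⟩ := hg
    exact ⟨F * G, Subalgebra.mul_mem _ hF hG, fun x => by rw [map_mul, map_mul, hF', hG']⟩

lemma gT_mem_AF (j : ℕ) : (gT j : P2 ι κ) ∈ AF ι κ := by
  obtain ⟨F, hF, hF'⟩ := exists_lift (κ := κ) (psum_mem (ι := ι) j)
  have : gT j = F := by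
    apply MvPolynomial.funext
    intro x
    rw [hF', eval_gT]
    simp [psum]
  rw [this]; exact hF

lemma cayley_hamilton_esymm (x : Sym2 ι ⊕ ι × κ → ℝ) :
    ∑ j ∈ Finset.range (Fintype.card ι + 1),
      ((-1) ^ j * eval (lam x) (esymm ι ℝ j)) • (Ax x) ^ (Fintype.card ι - j) = 0 := by
  have h := Matrix.aeval_self_charpoly (Ax x)
  rw [(Ax_herm x).charpoly_eq] at h
  have h2 : (∏ i, (Polynomial.X - Polynomial.C ((Ax_herm x).eigenvalues i : ℝ))) =
      ((Finset.univ.val.map (lam x)).map fun t => Polynomial.X - Polynomial.C t).prod := by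
    rw [Multiset.map_map]; rfl
  have h3 : (∏ i, (Polynomial.X - Polynomial.C (((Ax_herm x).eigenvalues i : ℝ) : ℝ))) =
      (∏ i, (Polynomial.X - Polynomial.C ((RCLike.ofReal ((Ax_herm x).eigenvalues i)) : ℝ))) := rfl
  rw [← h3, h2, Multiset.prod_X_sub_X_eq_sum_esymm, map_sum] at h
  simp only [Multiset.card_map, Finset.card_val, Finset.card_univ] at h
  rw [← h]
  refine Finset.sum_congr rfl fun j _ => ?_
  rw [map_mul, map_mul, map_pow, map_pow, map_neg, map_one, Polynomial.aeval_C, Polynomial.aeval_X,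
    ← MvPolynomial.aeval_esymm_eq_multiset_esymm ι ℝ, MvPolynomial.aeval_eq_eval, mul_smul,
    Algebra.algebraMap_eq_smul_one]
  have : ((-1 : ℝ) ^ j) • (eval (lam x) (esymm ι ℝ j)) • (Ax x) ^ (Fintype.card ι - j) =
      (-1 : Matrix ι ι ℝ) ^ j * ((eval (lam x) (esymm ι ℝ j)) • (Ax x) ^ (Fintype.card ι - j)) := by
    rcases Nat.even_or_odd j with h | h
    · rw [h.neg_one_pow, h.neg_one_pow]; simp
    · rw [h.neg_one_pow, h.neg_one_pow]; simp
  rw [this]
  simp

lemma exists_CH : ∃ E : ℕ → P2 ι κ, (∀ j, E j ∈ AF ι κ) ∧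
    ∀ a b, (SM ^ (Fintype.card ι) : Matrix ι ι (P2 ι κ)) a b +
      ∑ j ∈ Finset.range (Fintype.card ι),
        E j * (SM ^ (Fintype.card ι - 1 - j) : Matrix ι ι (P2 ι κ)) a b = 0 := by
  choose! F hF hF' using fun j (hj : j ≤ Fintype.card ι) =>
    exists_lift (κ := κ) (esymm_mem (ι := ι) j hj)
  refine ⟨fun j => if j + 1 ≤ Fintype.card ι then C ((-1) ^ (j + 1)) * F (j + 1) else 0,
    fun j => ?_, fun a b => ?_⟩
  · dsimp only
    split_ifs with h
    · exact Subalgebra.mul_mem _ (Subalgebra.algebraMap_mem _ _) (hF _ h)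
    · exact Subalgebra.zero_mem _
  · apply MvPolynomial.funext
    intro x
    have h := congrFun (congrFun (cayley_hamilton_esymm x) a) b
    rw [Matrix.sum_apply, Finset.sum_range_succ'] at h
    simp only [Matrix.smul_apply, pow_zero, esymm_zero, map_one, one_mul, Nat.sub_zero, one_smul,
      Matrix.zero_apply] at h
    rw [map_add, map_sum, eval_SM_pow, map_zero, ← h, add_comm]
    congr 1
    refine Finset.sum_congr rfl fun j hj => ?_
    rw [Finset.mem_range] at hj
    dsimp only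
    rw [if_pos (by omega), map_mul, map_mul, eval_SM_pow, hF' _ (by omega), eval_C, smul_eq_mul,
      show Fintype.card ι - 1 - j = Fintype.card ι - (j + 1) by omega]

lemma gV_mem_AF (l : ℕ) (p q : κ) : (gV l p q : P2 ι κ) ∈ AF ι κ := by
  induction l using Nat.strong_induction_on with
  | _ l ih =>
    rcases Nat.lt_or_ge l (Fintype.card ι) with hl | hl
    · exact Algebra.subset_adjoin (Or.inr ⟨l, p, q, hl, rfl⟩)
    · obtain ⟨E, hE, hE'⟩ := exists_CH (ι := ι) (κ := κ)
      have h1 : (SM ^ l : Matrix ι ι (P2 ι κ)) =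
          - ∑ j ∈ Finset.range (Fintype.card ι), E j • SM ^ (l - 1 - j) := by
        have h2 : (SM ^ (Fintype.card ι) : Matrix ι ι (P2 ι κ)) =
            - ∑ j ∈ Finset.range (Fintype.card ι), E j • SM ^ (Fintype.card ι - 1 - j) := by
          ext1 a b
          rw [Matrix.neg_apply, Matrix.sum_apply]
          simp only [Matrix.smul_apply, smul_eq_mul]
          exact eq_neg_of_add_eq_zero_left (hE' a b)
        have h3 : (SM ^ l : Matrix ι ι (P2 ι κ)) = SM ^ (l - Fintype.card ι) * SM ^ (Fintype.card ι) := by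
          rw [← pow_add]; congr 1; omega
        rw [h3, h2, mul_neg, Finset.mul_sum]
        congr 1
        refine Finset.sum_congr rfl fun j hj => ?_
        rw [Finset.mem_range] at hj
        rw [Matrix.mul_smul, ← pow_add]
        congr 2
        omega
      rw [gV, h1, Matrix.neg_mulVec, dotProduct_neg, Matrix.sum_mulVec, dotProduct_sum]
      refine Subalgebra.neg_mem _ (Subalgebra.sum_mem _ fun j hj => ?_)
      rw [Finset.mem_range] at hj
      rw [Matrix.smul_mulVec, dotProduct_smul, smul_eq_mul]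
      exact Subalgebra.mul_mem _ (hE j) (ih (l - 1 - j) (by omega))

lemma AA_le : AA ι κ ≤ AF ι κ := by
  unfold AA
  rw [Algebra.adjoin_le_iff]
  rintro x (⟨j, rfl⟩ | ⟨⟨l, p, q⟩, rfl⟩)
  · exact gT_mem_AF j
  · exact gV_mem_AF l p q

/-- **First fundamental theorem**, finite form. -/
theorem fft3 {κ : Type} [Fintype κ] [DecidableEq κ] (f : P2 ι κ) (hf : Inv2 f) : f ∈ AF ι κ :=
  AA_le (fft2 f hf)

end H1.ME
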