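import Mathlib
import Pool.Agent.H1.ME.Invar
import Pool.Agent.H1.ME.Newton

/-!
# Symbols of invariant operators on `P_{n,m}`
-/

open scoped ContDiff Matrix
open MEuclid H1.ME MvPolynomial

set_option linter.unusedSectionVars false
set_option linter.unusedSimpArgs false

namespace MinkowskiEuclid

variable {n m : ℕ}

/-- evaluation at a point -/
noncomputable def ev (x : P n m) : Smooth n m →ₐ[ℂ] ℂ where
  toFun f := f.1 x
  map_one' := rfl
  map_mul' _ _ := rfl
  map_zero' := rfl
  map_add' _ _ := rfl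
  commutes' _ := rfl

lemma ev_apply (x : P n m) (f : Smooth n m) : ev x f = f.1 x := rfl

lemma ev_pull (A : GL (Fin n) ℝ) (b : Matrix (Fin m) (Fin n) ℝ) (x : P n m) (f : Smooth n m) :
    ev x (pull A b f) = ev (act A b x) f := rfl

/-- the linear function `∑ η_c (c - x_c)` -/
noncomputable def phi (η : Coord n m → ℂ) (x : Amb n m) : Smooth n m :=
  ∑ c, η c • (coord c - algebraMap ℂ (Smooth n m) ((x c : ℝ) : ℂ))

lemma pdD_phi (η : Coord n m → ℂ) (x : Amb n m) (d : Coord n m) :
    pdD d (phi η x) = algebraMap ℂ (Smooth n m) (η d) := by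
  rw [phi, map_sum]
  have h : ∀ c, pdD d (η c • (coord c - algebraMap ℂ (Smooth n m) ((x c : ℝ) : ℂ))) =
      η c • pd d (coord c) := by
    intro c
    rw [Derivation.map_smul, Derivation.map_sub, Derivation.map_algebraMap, sub_zero, pdD_apply]
  simp_rw [h]
  rw [Finset.sum_eq_single d]
  · rw [pd_coord, if_pos rfl, Algebra.algebraMap_eq_smul_one]
  · intro c _ hc
    rw [pd_coord, if_neg (Ne.symm hc), smul_zero]
  · simp

lemma ev_phi (η : Coord n m → ℂ) (x : P n m) : ev x (phi η x) = 0 := by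
  rw [phi, map_sum]
  refine Finset.sum_eq_zero fun c _ => ?_
  rw [map_smul, map_sub, AlgHom.commutes]
  have : ev x (coord c : Smooth n m) = (((x : Amb n m) c : ℝ) : ℂ) := rfl
  rw [this]
  simp

/-- transpose action on covectors -/
noncomputable def tr (A : GL (Fin n) ℝ) (η : Coord n m → ℂ) : Coord n m → ℂ :=
  fun d => ∑ c, η c * ((actLin A (Pi.single d 1 : Amb n m) c : ℝ) : ℂ)

lemma actLin_expand (A : GL (Fin n) ℝ) (y : Amb n m) (c : Coord n m) :
    actLin A y c = ∑ d, y d * actLin A (Pi.single d 1 : Amb n m) c := by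
  have h4 : y = ∑ d, y d • (Pi.single d 1 : Amb n m) := by
    conv_lhs => rw [← Finset.univ_sum_single y]
    refine Finset.sum_congr rfl fun d _ => ?_
    rw [← Pi.single_smul]
    simp
  conv_lhs => rw [h4]
  rw [map_sum, Finset.sum_apply]
  refine Finset.sum_congr rfl fun d _ => ?_
  rw [map_smul, Pi.smul_apply, smul_eq_mul]

lemma smooth_sum_apply {α : Type*} (s : Finset α) (F : α → Smooth n m) (y : P n m) :
    (∑ c ∈ s, F c).1 y = ∑ c ∈ s, (F c).1 y := by
  rw [AddSubmonoidClass.coe_finsetSum, Finset.sum_apply]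

lemma pull_phi (A : GL (Fin n) ℝ) (b : Matrix (Fin m) (Fin n) ℝ) (η : Coord n m → ℂ) (x : P n m) :
    pull A b (phi η (act A b x : P n m)) = phi (tr A η) x := by
  apply Subtype.ext
  funext y
  have h1 : (pull A b (phi η (act A b x : P n m))).1 y =
      ∑ c, η c * (((actAmb A b y c : ℝ) : ℂ) - ((actAmb A b x c : ℝ) : ℂ)) := by
    change (phi η (act A b x : P n m)).1 (act A b y) = _
    rw [phi, smooth_sum_apply]
    rfl
  have h2 : (phi (tr A η) x).1 y =
      ∑ d, tr A η d * ((((y : Amb n m) d : ℝ) : ℂ) - (((x : Amb n m) d : ℝ) : ℂ)) := by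
    rw [phi, smooth_sum_apply]
    rfl
  rw [h1, h2]
  have h3 : ∀ c, (((actAmb A b y c : ℝ) : ℂ) - ((actAmb A b x c : ℝ) : ℂ)) =
      ∑ d, ((((y : Amb n m) d : ℝ) : ℂ) - (((x : Amb n m) d : ℝ) : ℂ)) *
        ((actLin A (Pi.single d 1 : Amb n m) c : ℝ) : ℂ) := by
    intro c
    rw [← Complex.ofReal_sub]
    have : actAmb A b (y : Amb n m) c - actAmb A b (x : Amb n m) c =
        actLin A ((y : Amb n m) - (x : Amb n m)) c := congrFun (actAmb_sub A b _ _) c
    rw [this, actLin_expand, Complex.ofReal_sum]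
    refine Finset.sum_congr rfl fun d _ => ?_
    rw [Pi.sub_apply]
    push_cast
    ring
  simp_rw [h3, tr, Finset.mul_sum, Finset.sum_mul]
  rw [Finset.sum_comm]
  refine Finset.sum_congr rfl fun d _ => Finset.sum_congr rfl fun c _ => ?_
  ring

/-- the symbol of an invariant operator is invariant -/
theorem symbol_act {D : Module.End ℂ (Smooth n m)} (hD : IsInvariant D) {N : ℕ}
    {p : MvPolynomial (Coord n m) (Smooth n m)} (hp : (D, p) ∈ GG pdD N)
    (A : GL (Fin n) ℝ) (b : Matrix (Fin m) (Fin n) ℝ) (η : Coord n m → ℂ) (x : P n m) :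
    eval₂ (ev (act A b x)).toRingHom η p = eval₂ (ev x).toRingHom (tr A η) p := by
  have h1 := GG_eval pdD hp (ev (act A b x)) (phi η (act A b x : P n m)) η
    (fun c => pdD_phi _ _ _) (ev_phi _ _)
  have h2 := GG_eval pdD hp (ev x) (phi (tr A η) x) (tr A η) (fun c => pdD_phi _ _ _) (ev_phi _ _)
  have h3 : ev (act A b x) (D (phi η (act A b x : P n m) ^ N)) =
      ev x (D (phi (tr A η) x ^ N)) := by
    rw [← pull_phi A b η x, ← map_pow, hD, ev_pull]
  simp only at h1 h2
  rw [h1, h2] at h3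
  exact mul_left_cancel₀ (by exact_mod_cast N.factorial_ne_zero) h3

/-- the base point `(I, 0)` in coordinates -/
noncomputable def baseAmb : Amb n m :=
  Sum.elim (fun z => Sym2.lift ⟨fun i j => if i = j then 1 else 0, fun i j => by simp [eq_comm]⟩ z)
    (fun _ => 0)

lemma Y_base : Y (baseAmb : Amb n m) = 1 := by
  ext i j
  simp [Y, baseAmb, Matrix.one_apply]

lemma V_base : V (baseAmb : Amb n m) = 0 := by
  ext i j
  simp [V, baseAmb]

noncomputable def base : P n m := ⟨baseAmb, by
  change (Y baseAmb).PosDef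
  rw [Y_base]; exact Matrix.PosDef.one⟩

lemma amb_ext {x y : Amb n m} (h1 : Y x = Y y) (h2 : V x = V y) : x = y := by
  funext c
  rcases c with z | ⟨k, l⟩
  · induction z using Sym2.inductionOn with
    | hf i j => exact congrFun (congrFun h1 i) j
  · exact congrFun (congrFun h2 k) l

lemma transitive (x : P n m) :
    ∃ (A : GL (Fin n) ℝ) (b : Matrix (Fin m) (Fin n) ℝ), act A b base = x := by
  have hx : (Y (x : Amb n m)).PosDef := x.2
  obtain ⟨B, hB⟩ : ∃ B : Matrix (Fin n) (Fin n) ℝ, B * Bᵀ = Y (x : Amb n m) := by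
    have hh := hx.isHermitian
    refine ⟨(hh.eigenvectorUnitary : Matrix (Fin n) (Fin n) ℝ) *
      Matrix.diagonal (fun i => Real.sqrt (hh.eigenvalues i)), ?_⟩
    conv_rhs => rw [hh.spectral_theorem, Unitary.conjStarAlgAut_apply]
    rw [Matrix.transpose_mul, Matrix.diagonal_transpose]
    have h1 : Matrix.diagonal (fun i => Real.sqrt (hh.eigenvalues i)) *
        Matrix.diagonal (fun i => Real.sqrt (hh.eigenvalues i)) =
        Matrix.diagonal (RCLike.ofReal ∘ hh.eigenvalues) := by
      rw [Matrix.diagonal_mul_diagonal]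
      congr 1
      funext i
      rw [Real.mul_self_sqrt (hx.eigenvalues_pos i).le]
      rfl
    have h2 : star (hh.eigenvectorUnitary : Matrix (Fin n) (Fin n) ℝ) =
        (hh.eigenvectorUnitary : Matrix (Fin n) (Fin n) ℝ)ᵀ := by
      rw [Matrix.star_eq_conjTranspose, Matrix.conjTranspose_eq_transpose_of_trivial]
    rw [h2, ← h1]
    simp only [Matrix.mul_assoc]
  have hdet : B.det ≠ 0 := by
    intro h0
    have := hx.det_pos
    rw [← hB, Matrix.det_mul, h0, zero_mul] at this
    exact lt_irrefl _ this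
  let A : GL (Fin n) ℝ := Matrix.GeneralLinearGroup.mkOfDetNeZero B hdet
  have hA : A.1 = B := rfl
  refine ⟨A, V (x : Amb n m) * (A⁻¹).1ᵀ, ?_⟩
  apply Subtype.ext
  apply amb_ext
  · change Y (actAmb A _ baseAmb) = _
    rw [Y_act, Y_base, Matrix.mul_one, hA, hB]
  · change V (actAmb A _ baseAmb) = _
    rw [V_act, V_base, zero_add, Matrix.mul_assoc, ← Matrix.transpose_mul, ← Units.val_mul,
      mul_inv_cancel, Units.val_one, Matrix.transpose_one, Matrix.mul_one]

/-- symbol at the base point -/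
noncomputable def s0 (p : MvPolynomial (Coord n m) (Smooth n m)) : MvPolynomial (Coord n m) ℂ :=
  map (ev base).toRingHom p

theorem symbol_zero {D : Module.End ℂ (Smooth n m)} (hD : IsInvariant D) {N : ℕ}
    {p : MvPolynomial (Coord n m) (Smooth n m)} (hp : (D, p) ∈ GG pdD N) (h0 : s0 p = 0) :
    p = 0 := by
  have h1 : ∀ x : P n m, map (ev x).toRingHom p = 0 := by
    intro x
    apply MvPolynomial.funext
    intro η
    obtain ⟨A, b, hx⟩ := transitive x
    rw [eval_map, ← hx, symbol_act hD hp, ← eval_map]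
    change eval _ (s0 p) = _
    rw [h0, map_zero, map_zero]
  ext α x
  have := congrArg (coeff α) (h1 x)
  rw [coeff_map, coeff_zero] at this
  exact this

end MinkowskiEuclid
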