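import Mathlib
import Pool.Agent.H1.ME.SymG

/-!
# The main theorem: generators of `𝔻(P_{n,m})`
-/

open scoped ContDiff Matrix
open MEuclid H1.ME MvPolynomial

set_option linter.unusedSectionVars false
set_option linter.unusedSimpArgs false

namespace MinkowskiEuclid

variable {n m : ℕ}

/-- `D` has order `≤ N` and `q` is its symbol of order `N` at the base point. -/
def HS (N : ℕ) (D : Module.End ℂ (Smooth n m)) (q : MvPolynomial (Coord n m) ℂ) : Prop :=
  ∃ p, (D, p) ∈ GG pdD N ∧ s0 p = q

lemma HS.mul {N M : ℕ} {D D' : Module.End ℂ (Smooth n m)} {q q' : MvPolynomial (Coord n m) ℂ}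
    (h : HS N D q) (h' : HS M D' q') : HS (N + M) (D * D') (q * q') := by
  obtain ⟨p, hp, rfl⟩ := h
  obtain ⟨p', hp', rfl⟩ := h'
  exact ⟨p * p', GG_mul pdD hp hp', by rw [s0, map_mul]; rfl⟩

lemma HS.add {N : ℕ} {D D' : Module.End ℂ (Smooth n m)} {q q' : MvPolynomial (Coord n m) ℂ}
    (h : HS N D q) (h' : HS N D' q') : HS N (D + D') (q + q') := by
  obtain ⟨p, hp, rfl⟩ := h
  obtain ⟨p', hp', rfl⟩ := h'
  exact ⟨p + p', Submodule.add_mem _ hp hp', by rw [s0, map_add]; rfl⟩

lemma HS.zero (N : ℕ) : HS N (0 : Module.End ℂ (Smooth n m)) 0 :=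
  ⟨0, Submodule.zero_mem _, by rw [s0, map_zero]⟩

lemma HS.sum {N : ℕ} {α : Type*} (s : Finset α) {D : α → Module.End ℂ (Smooth n m)}
    {q : α → MvPolynomial (Coord n m) ℂ} (h : ∀ a ∈ s, HS N (D a) (q a)) :
    HS N (∑ a ∈ s, D a) (∑ a ∈ s, q a) := by
  classical
  induction s using Finset.induction_on with
  | empty => simpa using HS.zero N
  | insert a s ha ih =>
    rw [Finset.sum_insert ha, Finset.sum_insert ha]
    exact (h a (Finset.mem_insert_self _ _)).add (ih fun b hb => h b (Finset.mem_insert_of_mem hb))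

lemma HS.mulOp (a : Smooth n m) : HS 0 (mulOp a) (C (ev base a)) :=
  ⟨C a, GG_mulOp pdD a, by rw [s0, map_C]; rfl⟩

lemma HS.smul {N : ℕ} {D : Module.End ℂ (Smooth n m)} {q : MvPolynomial (Coord n m) ℂ}
    (h : HS N D q) (c : ℂ) : HS N (c • D) (c • q) := by
  have h1 := (HS.mulOp (algebraMap ℂ (Smooth n m) c)).mul h
  rw [zero_add, AlgHom.commutes] at h1
  have e1 : MinkowskiEuclid.mulOp (algebraMap ℂ (Smooth n m) c) * D = c • D := by
    apply LinearMap.ext
    intro f
    change (algebraMap ℂ (Smooth n m) c) * D f = c • D f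
    rw [← Algebra.smul_def]
  have e2 : C ((algebraMap ℂ ℂ) c) * q = c • q := by
    rw [MvPolynomial.smul_eq_C_mul]; rfl
  rwa [e1, e2] at h1

lemma HS.pd (c : Coord n m) : HS 1 (pd c : Module.End ℂ (Smooth n m)) (X c) :=
  ⟨X c, GG_der1 pdD c, by rw [s0, map_X]⟩

lemma HS.neg {N : ℕ} {D : Module.End ℂ (Smooth n m)} {q : MvPolynomial (Coord n m) ℂ}
    (h : HS N D q) : HS N (-D) (-q) := by
  have h1 := h.smul (-1)
  have e1 : -D = (-1 : ℂ) • D := by module
  have e2 : -q = (-1 : ℂ) • q := by module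
  rw [e1, e2]
  exact h1

/-! ### Matrices of operators -/

def HSM {k l : ℕ} (N : ℕ) (D : Matrix (Fin k) (Fin l) (Module.End ℂ (Smooth n m)))
    (Q : Matrix (Fin k) (Fin l) (MvPolynomial (Coord n m) ℂ)) : Prop :=
  ∀ i j, HS N (D i j) (Q i j)

lemma HSM.mul {k l r N M : ℕ} {D : Matrix (Fin k) (Fin l) (Module.End ℂ (Smooth n m))}
    {Q : Matrix (Fin k) (Fin l) (MvPolynomial (Coord n m) ℂ)}
    {D' : Matrix (Fin l) (Fin r) (Module.End ℂ (Smooth n m))}
    {Q' : Matrix (Fin l) (Fin r) (MvPolynomial (Coord n m) ℂ)}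
    (h : HSM N D Q) (h' : HSM M D' Q') : HSM (N + M) (D * D') (Q * Q') := by
  intro i j
  rw [Matrix.mul_apply, Matrix.mul_apply]
  exact HS.sum _ fun a _ => (h i a).mul (h' a j)

lemma HSM.one {k : ℕ} : HSM 0 (1 : Matrix (Fin k) (Fin k) (Module.End ℂ (Smooth n m))) 1 := by
  intro i j
  by_cases h : i = j
  · subst h
    rw [Matrix.one_apply_eq, Matrix.one_apply_eq]
    exact ⟨1, GG_one pdD, by rw [s0, map_one]⟩
  · rw [Matrix.one_apply_ne h, Matrix.one_apply_ne h]
    exact HS.zero _

lemma HSM.pow {k : ℕ} {D : Matrix (Fin k) (Fin k) (Module.End ℂ (Smooth n m))}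
    {Q : Matrix (Fin k) (Fin k) (MvPolynomial (Coord n m) ℂ)} (h : HSM 1 D Q) (j : ℕ) :
    HSM j (D ^ j) (Q ^ j) := by
  induction j with
  | zero => rw [pow_zero, pow_zero]; exact HSM.one
  | succ j ih => rw [pow_succ, pow_succ]; exact ih.mul h

variable (n m) in
/-- symbol of `2 Y ∂/∂Y` at the base point -/
noncomputable def Xi : Matrix (Fin n) (Fin n) (MvPolynomial (Coord n m) ℂ) :=
  Matrix.of fun i j => C (2 * w i j) * X (Sum.inl s(i, j))

variable (n m) in
/-- symbol of `∂/∂V` -/
noncomputable def Vxi : Matrix (Fin m) (Fin n) (MvPolynomial (Coord n m) ℂ) :=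
  Matrix.of fun k l => X (Sum.inr (k, l))

lemma HSM_YM : HSM 0 (YM n m) 1 := by
  intro i j
  have h := HS.mulOp (coord (Sum.inl s(i, j)) : Smooth n m)
  have e : ev base (coord (Sum.inl s(i, j)) : Smooth n m) = if i = j then 1 else 0 := by
    change ((Y (baseAmb : Amb n m) i j : ℝ) : ℂ) = _
    rw [Y_base, Matrix.one_apply]
    split_ifs <;> simp
  rw [e] at h
  have e2 : (1 : Matrix (Fin n) (Fin n) (MvPolynomial (Coord n m) ℂ)) i j =
      C (if i = j then 1 else 0) := by
    rw [Matrix.one_apply]; split_ifs <;> simp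
  rw [e2]
  exact h

lemma HSM_dY : HSM 1 (dY n m) (Matrix.of fun i j => C (w i j) * X (Sum.inl s(i, j))) := by
  intro i j
  have := (HS.pd (Sum.inl s(i, j) : Coord n m)).smul (w i j)
  rw [MvPolynomial.smul_eq_C_mul] at this
  exact this

lemma HSM_dV : HSM 1 (dV n m) (Vxi n m) := fun i j => HS.pd _

lemma HSM_dVt : HSM 1 (dV n m)ᵀ (Vxi n m)ᵀ := fun i j => HS.pd _

lemma HSM_YdY : HSM 1 (YdY n m) (Xi n m) := by
  intro i j
  have h := ((HSM_YM (n := n) (m := m)).mul HSM_dY) i j
  rw [zero_add, one_mul] at h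
  have h2 := h.smul 2
  have e : YdY n m i j = (2 : ℂ) • (YM n m * dY n m) i j := by
    rw [YdY, Matrix.smul_apply]
    rw [two_smul, two_smul]
  have e2 : Xi n m i j = (2 : ℂ) • (Matrix.of fun i j => C (w i j) * X (Sum.inl s(i, j)) :
      Matrix (Fin n) (Fin n) (MvPolynomial (Coord n m) ℂ)) i j := by
    rw [Xi, Matrix.of_apply, Matrix.of_apply, MvPolynomial.smul_eq_C_mul, C_mul, mul_assoc]
  rw [e, e2]
  exact h2

lemma HS_Dop (j : ℕ) : HS j (Dop n m j) (Matrix.trace (Xi n m ^ j)) := by
  rw [Dop, Matrix.trace, Matrix.trace]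
  exact HS.sum _ fun i _ => (HSM_YdY.pow j) i i

lemma HS_Omega (k : ℕ) (p q : Fin m) :
    HS (k + 2) (Omega n m k p q) ((Vxi n m * Xi n m ^ k * (Vxi n m)ᵀ) p q) := by
  have h := (((HSM_dV (n := n) (m := m)).mul (HSM_YdY.pow k)).mul HSM_YM).mul HSM_dVt
  rw [Matrix.mul_one] at h
  have := h p q
  rw [show 1 + k + 0 + 1 = k + 2 by ring] at this
  exact this

/-! ### The substitution `ψ` -/

/-- `1 + δ` as a function of the unordered pair -/
noncomputable def cz (z : Sym2 (Fin n)) : ℂ := Sym2.lift ⟨fun i j => 2 * w i j, fun i j => by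
  dsimp only
  rw [w_comm]⟩ z

lemma cz_mk (i j : Fin n) : cz s(i, j) = 2 * w i j := rfl

lemma w_ne (i j : Fin n) : w i j ≠ 0 := by
  unfold w; split_ifs <;> norm_num

lemma cz_ne (z : Sym2 (Fin n)) : cz z ≠ 0 := by
  induction z using Sym2.inductionOn with
  | hf i j => rw [cz_mk]; exact mul_ne_zero two_ne_zero (w_ne i j)

variable (n m) in
noncomputable def psi : P2 (Fin n) (Fin m) →ₐ[ℝ] MvPolynomial (Coord n m) ℂ :=
  aeval (Sum.elim (fun z => C (cz z) * X (Sum.inl z)) (fun a => X (Sum.inr (a.2, a.1))))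

lemma psi_inl (z : Sym2 (Fin n)) : psi n m (X (Sum.inl z)) = C (cz z) * X (Sum.inl z) := by
  simp [psi]

lemma psi_inr (a : Fin n) (p : Fin m) : psi n m (X (Sum.inr (a, p))) = X (Sum.inr (p, a)) := by
  simp [psi]

lemma psi_SM_pow (j : ℕ) (a b : Fin n) :
    psi n m ((SM ^ j : Matrix (Fin n) (Fin n) (P2 (Fin n) (Fin m))) a b) = (Xi n m ^ j) a b := by
  have h2 := map_pow (psi n m).toRingHom.mapMatrix
    (SM : Matrix (Fin n) (Fin n) (P2 (Fin n) (Fin m))) j
  have h3 : (psi n m).toRingHom.mapMatrix (SM : Matrix (Fin n) (Fin n) (P2 (Fin n) (Fin m))) =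
      Xi n m := by
    ext1 a b
    change psi n m (SM a b) = _
    rw [SM_apply, psi_inl, cz_mk]
    rfl
  rw [h3] at h2
  exact congrFun (congrFun h2 a) b

lemma psi_gT (j : ℕ) : psi n m (gT j) = Matrix.trace (Xi n m ^ j) := by
  rw [gT, Matrix.trace, map_sum, Matrix.trace]
  exact Finset.sum_congr rfl fun i _ => psi_SM_pow _ _ _

lemma psi_gV (l : ℕ) (p q : Fin m) :
    psi n m (gV l p q) = (Vxi n m * Xi n m ^ l * (Vxi n m)ᵀ) p q := by
  rw [gV, dotProduct, map_sum, Matrix.mul_assoc, Matrix.mul_apply]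
  refine Finset.sum_congr rfl fun a _ => ?_
  rw [map_mul, Matrix.mul_apply]
  congr 1
  · exact psi_inr a p
  · rw [Matrix.mulVec, dotProduct, map_sum]
    refine Finset.sum_congr rfl fun b _ => ?_
    rw [map_mul, psi_SM_pow]
    congr 1
    exact psi_inr b q

lemma gV_symm (l : ℕ) (p q : Fin m) : (gV l p q : P2 (Fin n) (Fin m)) = gV l q p := by
  rw [gV, gV, Matrix.dotProduct_mulVec, dotProduct_comm, ← Matrix.mulVec_transpose, SM_pow_symm]

/-! ### Good polynomials -/

lemma homogeneousComponent_mul' {σ : Type*} (N : ℕ) (p q : MvPolynomial σ ℂ) :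
    homogeneousComponent N (p * q) = ∑ a ∈ Finset.HasAntidiagonal.antidiagonal N,
      homogeneousComponent a.1 p * homogeneousComponent a.2 q := by
  classical
  ext d
  rw [coeff_homogeneousComponent, coeff_sum]
  simp only [coeff_mul, coeff_homogeneousComponent]
  rw [Finset.sum_comm]
  have h : ∀ x ∈ Finset.HasAntidiagonal.antidiagonal d,
      (∑ a ∈ Finset.HasAntidiagonal.antidiagonal N,
        (if x.1.degree = a.1 then coeff x.1 p else 0) * (if x.2.degree = a.2 then coeff x.2 q else 0)) =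
      if d.degree = N then coeff x.1 p * coeff x.2 q else 0 := by
    intro x hx
    rw [Finset.HasAntidiagonal.mem_antidiagonal] at hx
    have hdeg : d.degree = x.1.degree + x.2.degree := by rw [← hx, map_add]
    by_cases hN : d.degree = N
    · rw [if_pos hN, Finset.sum_eq_single (x.1.degree, x.2.degree)]
      · simp
      · rintro ⟨a, b⟩ _ hab
        by_cases h1 : x.1.degree = a
        · by_cases h2 : x.2.degree = b
          · exact absurd (by rw [h1, h2]) hab
          · simp [h2]
        · simp [h1]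
      · intro hn
        exact absurd (Finset.HasAntidiagonal.mem_antidiagonal.2 (by rw [← hdeg, hN])) hn
    · rw [if_neg hN]
      refine Finset.sum_eq_zero ?_
      rintro ⟨a, b⟩ hab
      rw [Finset.HasAntidiagonal.mem_antidiagonal] at hab
      by_cases h1 : x.1.degree = a
      · by_cases h2 : x.2.degree = b
        · exact absurd (by rw [hdeg, h1, h2]; exact hab) hN
        · simp [h2]
      · simp [h1]
  rw [Finset.sum_congr rfl h]
  split_ifs <;> simp

variable (n m) in
/-- polynomials all of whose homogeneous components are symbols of elements of the algebra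
generated by the operators `D_j`, `Ω^{(k)}_{pq}`. -/
noncomputable def Good : Subalgebra ℂ (MvPolynomial (Coord n m) ℂ) where
  carrier := {q | ∀ N, ∃ D ∈ Algebra.adjoin ℂ (gens n m), HS N D (homogeneousComponent N q)}
  add_mem' {q q'} h h' := by
    intro N
    obtain ⟨D, hD, hD'⟩ := h N
    obtain ⟨E, hE, hE'⟩ := h' N
    exact ⟨D + E, Subalgebra.add_mem _ hD hE, by rw [map_add]; exact hD'.add hE'⟩
  mul_mem' {q q'} h h' := by
    intro N
    choose D hD hD' using h
    choose E hE hE' using h'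
    refine ⟨∑ a ∈ Finset.HasAntidiagonal.antidiagonal N, D a.1 * E a.2, ?_, ?_⟩
    · exact Subalgebra.sum_mem _ fun a _ => Subalgebra.mul_mem _ (hD _) (hE _)
    · have : homogeneousComponent N (q * q') =
          ∑ a ∈ Finset.HasAntidiagonal.antidiagonal N,
            homogeneousComponent a.1 q * homogeneousComponent a.2 q' :=
        homogeneousComponent_mul' N q q'
      rw [this]
      refine HS.sum _ fun a ha => ?_
      rw [Finset.HasAntidiagonal.mem_antidiagonal] at ha
      have := (hD' a.1).mul (hE' a.2)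
      rw [ha] at this
      exact this
  algebraMap_mem' c := by
    intro N
    rcases Nat.eq_zero_or_pos N with h | h
    · subst h
      refine ⟨algebraMap ℂ _ c, Subalgebra.algebraMap_mem _ _, ?_⟩
      have h1 := HS.mulOp (algebraMap ℂ (Smooth n m) c)
      rw [AlgHom.commutes] at h1
      have e1 : MinkowskiEuclid.mulOp (algebraMap ℂ (Smooth n m) c) = algebraMap ℂ _ c := by
        apply LinearMap.ext
        intro f
        change (algebraMap ℂ (Smooth n m) c) * f = _
        rw [← Algebra.smul_def, Module.algebraMap_end_apply]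
      rw [e1] at h1
      have e2 : homogeneousComponent 0 (algebraMap ℂ (MvPolynomial (Coord n m) ℂ) c) =
          C (algebraMap ℂ ℂ c) := by
        rw [homogeneousComponent_zero]
        simp
      rw [e2]
      exact h1
    · refine ⟨0, Subalgebra.zero_mem _, ?_⟩
      have e2 : homogeneousComponent N (algebraMap ℂ (MvPolynomial (Coord n m) ℂ) c) = 0 := by
        apply homogeneousComponent_eq_zero
        change (C c : MvPolynomial (Coord n m) ℂ).totalDegree < N
        rw [totalDegree_C]; exact h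
      rw [e2]
      exact HS.zero N

/-! ### Symbols are homogeneous -/

lemma xW_homog {σ R : Type*} [CommRing R] [Algebra ℂ R] (u : List σ) :
    (xW u : MvPolynomial σ R).IsHomogeneous u.length := by
  induction u with
  | nil => exact isHomogeneous_one _ _
  | cons c u ih =>
    rw [xW_cons, List.length_cons, add_comm]
    exact (isHomogeneous_X _ _).mul ih

lemma GG_homog {N : ℕ} {x : Module.End ℂ (Smooth n m) × MvPolynomial (Coord n m) (Smooth n m)}
    (hx : x ∈ GG pdD N) : x.2.IsHomogeneous N := by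
  unfold GG at hx
  induction hx using Submodule.span_induction with
  | mem x hx =>
    obtain ⟨u, hu, rfl⟩ := hx
    by_cases h : u.length = N
    · simp only [if_pos h]
      rw [← h]; exact xW_homog u
    · simp only [if_neg h]
      exact isHomogeneous_zero _ _ _
  | zero => exact isHomogeneous_zero _ _ _
  | add x y _ _ hx hy => exact hx.add hy
  | smul a x _ hx =>
    rw [Prod.smul_snd]
    exact (homogeneousSubmodule _ _ N).smul_mem a hx

lemma HS.homog {N : ℕ} {D : Module.End ℂ (Smooth n m)} {q : MvPolynomial (Coord n m) ℂ}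
    (h : HS N D q) : q.IsHomogeneous N := by
  obtain ⟨p, hp, rfl⟩ := h
  exact (GG_homog hp).map _

lemma good_of_gen {N : ℕ} {D : Module.End ℂ (Smooth n m)} {q : MvPolynomial (Coord n m) ℂ}
    (h : HS N D q) (hD : D ∈ Algebra.adjoin ℂ (gens n m)) : q ∈ Good n m := by
  intro M
  rw [homogeneousComponent_of_mem h.homog]
  split_ifs with hM
  · subst hM; exact ⟨D, hD, h⟩
  · exact ⟨0, Subalgebra.zero_mem _, HS.zero _⟩

lemma good_gT {j : ℕ} (h1 : 1 ≤ j) (h2 : j ≤ n) : psi n m (gT j) ∈ Good n m := by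
  rw [psi_gT]
  exact good_of_gen (HS_Dop j) (Algebra.subset_adjoin (Or.inl ⟨j, h1, h2, rfl⟩))

lemma good_gV {l : ℕ} (h : l < n) (p q : Fin m) : psi n m (gV l p q) ∈ Good n m := by
  rcases le_total p q with hpq | hpq
  · rw [psi_gV]
    exact good_of_gen (HS_Omega l p q)
      (Algebra.subset_adjoin (Or.inr ⟨l, p, q, by omega, hpq, rfl⟩))
  · rw [gV_symm, psi_gV]
    exact good_of_gen (HS_Omega l q p)
      (Algebra.subset_adjoin (Or.inr ⟨l, q, p, by omega, hpq, rfl⟩))

lemma good_psi {f : P2 (Fin n) (Fin m)} (hf : f ∈ AF (Fin n) (Fin m)) : psi n m f ∈ Good n m := by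
  unfold AF at hf
  induction hf using Algebra.adjoin_induction with
  | mem f hf =>
    rw [Fintype.card_fin] at hf
    rcases hf with ⟨j, h1, h2, rfl⟩ | ⟨l, p, q, h, rfl⟩
    · exact good_gT h1 h2
    · exact good_gV h p q
  | algebraMap c =>
    rw [AlgHom.commutes]
    have : algebraMap ℝ (MvPolynomial (Coord n m) ℂ) c =
        algebraMap ℂ (MvPolynomial (Coord n m) ℂ) (c : ℂ) := rfl
    rw [this]
    exact Subalgebra.algebraMap_mem _ _
  | add x y _ _ hx hy => rw [map_add]; exact Subalgebra.add_mem _ hx hy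
  | mul x y _ _ hx hy => rw [map_mul]; exact Subalgebra.mul_mem _ hx hy

/-! ### Real and imaginary parts, and use of the first fundamental theorem -/

/-- the covector with coordinates `ξ / (1 + δ)`. -/
noncomputable def eta (ξ : Sym2 (Fin n) ⊕ Fin n × Fin m → ℝ) : Coord n m → ℂ :=
  Sum.elim (fun z => (ξ (Sum.inl z) : ℂ) / cz z) (fun a => (ξ (Sum.inr (a.2, a.1)) : ℂ))

lemma exists_re_im (q : MvPolynomial (Coord n m) ℂ) :
    ∃ f₁ f₂ : P2 (Fin n) (Fin m), ∀ ξ : Sym2 (Fin n) ⊕ Fin n × Fin m → ℝ,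
      eval (eta ξ) q = (eval ξ f₁ : ℂ) + Complex.I * (eval ξ f₂ : ℂ) := by
  induction q using MvPolynomial.induction_on with
  | C a =>
    refine ⟨C a.re, C a.im, fun ξ => ?_⟩
    rw [eval_C, eval_C, eval_C, mul_comm, Complex.re_add_im]
  | add p q hp hq =>
    obtain ⟨f₁, f₂, hf⟩ := hp
    obtain ⟨g₁, g₂, hg⟩ := hq
    refine ⟨f₁ + g₁, f₂ + g₂, fun ξ => ?_⟩
    rw [map_add, map_add, map_add, hf, hg]
    push_cast
    ring
  | mul_X p c hp =>
    obtain ⟨f₁, f₂, hf⟩ := hp
    rcases c with z | ⟨k, l⟩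
    · obtain ⟨r, hr⟩ : ∃ r : ℝ, (r : ℂ) = 1 / cz z := by
        induction z using Sym2.inductionOn with
        | hf i j =>
          rw [cz_mk, w]
          by_cases h : i = j
          · exact ⟨1 / 2, by simp [h]⟩
          · exact ⟨1, by simp [h]⟩
      refine ⟨f₁ * (C r * X (Sum.inl z)), f₂ * (C r * X (Sum.inl z)), fun ξ => ?_⟩
      have e : eta ξ (Sum.inl z : Coord n m) = (r : ℂ) * (ξ (Sum.inl z) : ℂ) := by
        rw [hr, eta, Sum.elim_inl]; ring
      simp only [map_mul, eval_X, eval_C, hf, e]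
      push_cast
      ring
    · refine ⟨f₁ * X (Sum.inr (l, k)), f₂ * X (Sum.inr (l, k)), fun ξ => ?_⟩
      rw [map_mul, map_mul, map_mul, eval_X, hf, eval_X]
      have e : eta ξ (Sum.inr (k, l) : Coord n m) = (ξ (Sum.inr (l, k)) : ℂ) := rfl
      rw [e]
      push_cast
      ring

/-- action of a matrix on points of `Sym × Mat` -/
noncomputable def actXi (g : Matrix (Fin n) (Fin n) ℝ) (ξ : Sym2 (Fin n) ⊕ Fin n × Fin m → ℝ) :
    Sym2 (Fin n) ⊕ Fin n × Fin m → ℝ :=
  fun c => eval ξ (sub2 g (X c))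

lemma eval_sub2 (g : Matrix (Fin n) (Fin n) ℝ) (ξ : Sym2 (Fin n) ⊕ Fin n × Fin m → ℝ)
    (f : P2 (Fin n) (Fin m)) : eval ξ (sub2 g f) = eval (actXi g ξ) f := by
  induction f using MvPolynomial.induction_on with
  | C a => rw [sub2_C, eval_C, eval_C]
  | add p q hp hq => rw [map_add, map_add, map_add, hp, hq]
  | mul_X p c hp => rw [map_mul, map_mul, map_mul, hp, eval_X]; rfl

lemma eta_act (A : GL (Fin n) ℝ) (ξ : Sym2 (Fin n) ⊕ Fin n × Fin m → ℝ) :
    eta (actXi A.1ᵀ ξ) = tr A (eta ξ) := by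
  funext d
  rcases d with z | ⟨k, l⟩
  · induction z using Sym2.inductionOn with
    | hf i j =>
      have hL : eta (actXi A.1ᵀ ξ) (Sum.inl s(i, j) : Coord n m) =
          ((∑ c, ∑ e, A.1 c i * A.1 e j * ξ (Sum.inl s(c, e)) : ℝ) : ℂ) / (2 * w i j) := by
        rw [eta, Sum.elim_inl, cz_mk, actXi, sub2_inl, map_sum]
        simp only [map_sum, map_mul, eval_C, eval_X, Matrix.transpose_apply]
      rw [hL, tr, Fintype.sum_sum_type]
      have hzero : ∑ x : Fin m × Fin n, eta ξ (Sum.inr x) *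
          ((actLin A (Pi.single (Sum.inl s(i, j)) 1 : Amb n m) (Sum.inr x) : ℝ) : ℂ) = 0 := by
        refine Finset.sum_eq_zero fun x _ => ?_
        obtain ⟨k, l⟩ := x
        have h1 : actLin A (Pi.single (Sum.inl s(i, j)) 1 : Amb n m) (Sum.inr (k, l)) = 0 := by
          rw [actLin_inr]
          have : V (Pi.single (Sum.inl s(i, j)) 1 : Amb n m) = 0 := by
            ext a c
            simp [V]
          rw [this]; simp
        rw [h1]; simp
      rw [hzero, add_zero, ← sum_sym2 (fun z => eta ξ (Sum.inl z : Coord n m) *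
        ((actLin A (Pi.single (Sum.inl s(i, j)) 1 : Amb n m) (Sum.inl z) : ℝ) : ℂ))]
      rw [div_eq_iff (mul_ne_zero two_ne_zero (w_ne i j)), Finset.sum_mul]
      have h8 : ∀ k l, w k l • (eta ξ (Sum.inl s(k, l) : Coord n m) *
          ((actLin A (Pi.single (Sum.inl s(i, j)) 1 : Amb n m) (Sum.inl s(k, l)) : ℝ) : ℂ)) *
          (2 * w i j) =
          (ξ (Sum.inl s(k, l)) : ℂ) * (((A.1 k i * A.1 l j : ℝ) : ℂ) / 2) +
          (ξ (Sum.inl s(k, l)) : ℂ) * (((A.1 k j * A.1 l i : ℝ) : ℂ) / 2) := by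
        intro k l
        rw [← mul_add, ← w_mul_actLin (m := m) A i j k l, eta, Sum.elim_inl, cz_mk, smul_eq_mul]
        have := w_ne k l
        field_simp
      simp_rw [Finset.sum_mul, h8, Finset.sum_add_distrib]
      have h9 : ∑ k, ∑ l, (ξ (Sum.inl s(k, l)) : ℂ) * (((A.1 k j * A.1 l i : ℝ) : ℂ) / 2) =
          ∑ k, ∑ l, (ξ (Sum.inl s(k, l)) : ℂ) * (((A.1 k i * A.1 l j : ℝ) : ℂ) / 2) := by
        rw [Finset.sum_comm]
        refine Finset.sum_congr rfl fun k _ => Finset.sum_congr rfl fun l _ => ?_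
        rw [Sym2.eq_swap, mul_comm (A.1 l j)]
      rw [h9, ← Finset.sum_add_distrib]
      push_cast
      refine Finset.sum_congr rfl fun k _ => ?_
      rw [← Finset.sum_add_distrib]
      refine Finset.sum_congr rfl fun l _ => ?_
      ring
  · have hL : eta (actXi A.1ᵀ ξ) (Sum.inr (k, l) : Coord n m) =
        ((∑ c, A.1 c l * ξ (Sum.inr (c, k)) : ℝ) : ℂ) := by
      change ((actXi A.1ᵀ ξ (Sum.inr (l, k)) : ℝ) : ℂ) = _
      rw [actXi, sub2_inr, map_sum]
      simp only [map_mul, eval_C, eval_X, Matrix.transpose_apply]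
    have hzero : ∑ z : Sym2 (Fin n), eta ξ (Sum.inl z : Coord n m) *
        ((actLin A (Pi.single (Sum.inr (k, l)) 1 : Amb n m) (Sum.inl z) : ℝ) : ℂ) = 0 := by
      refine Finset.sum_eq_zero fun z _ => ?_
      induction z using Sym2.inductionOn with
      | hf a c =>
        have h1 : actLin A (Pi.single (Sum.inr (k, l)) 1 : Amb n m) (Sum.inl s(a, c)) = 0 := by
          rw [actLin_inl]
          have : Y (Pi.single (Sum.inr (k, l)) 1 : Amb n m) = 0 := by
            ext a c
            simp [Y]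
          rw [this]; simp
        rw [h1]; simp
    rw [hL, tr, Fintype.sum_sum_type, hzero, zero_add, Fintype.sum_prod_type,
      Finset.sum_eq_single k]
    · push_cast
      refine Finset.sum_congr rfl fun c _ => ?_
      have h1 : actLin A (Pi.single (Sum.inr (k, l)) 1 : Amb n m) (Sum.inr (k, c)) = A.1 c l := by
        rw [actLin_inr, Matrix.mul_apply, Finset.sum_eq_single l]
        · simp [V]
        · intro d _ hd
          simp [V, Pi.single_apply, hd]
        · simp
      rw [h1]
      change _ = (ξ (Sum.inr (c, k)) : ℂ) * _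
      ring
    · intro k' _ hk
      refine Finset.sum_eq_zero fun c _ => ?_
      have h1 : actLin A (Pi.single (Sum.inr (k, l)) 1 : Amb n m) (Sum.inr (k', c)) = 0 := by
        rw [actLin_inr, Matrix.mul_apply]
        refine Finset.sum_eq_zero fun d _ => ?_
        simp [V, Pi.single_apply, hk]
      rw [h1]; simp
    · simp

lemma symbol_inv {D : Module.End ℂ (Smooth n m)} (hD : IsInvariant D) {N : ℕ}
    {p : MvPolynomial (Coord n m) (Smooth n m)} (hp : (D, p) ∈ GG pdD N)
    {g : Matrix (Fin n) (Fin n) ℝ} (hg : g ∈ Matrix.orthogonalGroup (Fin n) ℝ)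
    (ξ : Sym2 (Fin n) ⊕ Fin n × Fin m → ℝ) :
    eval (eta (actXi g ξ)) (s0 p) = eval (eta ξ) (s0 p) := by
  have h1 : gᵀ * g = 1 := (Matrix.mem_orthogonalGroup_iff' (Fin n) ℝ).1 hg
  have h2 : g * gᵀ = 1 := (Matrix.mem_orthogonalGroup_iff (Fin n) ℝ).1 hg
  let A : GL (Fin n) ℝ := ⟨gᵀ, g, h1, h2⟩
  have hA : A.1ᵀ = g := Matrix.transpose_transpose g
  have hb : act A 0 (base : P n m) = base := by
    apply Subtype.ext
    apply amb_ext
    · change Y (actAmb A _ baseAmb) = Y baseAmb
      rw [Y_act, Y_base, Matrix.mul_one, hA]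
      exact h1
    · change V (actAmb A _ baseAmb) = V baseAmb
      rw [V_act, V_base, zero_add, Matrix.zero_mul]
  have h3 := symbol_act hD hp A 0 (eta ξ) base
  rw [hb, ← eta_act, hA] at h3
  rw [s0, eval_map, eval_map]
  exact h3.symm

lemma s0_good {D : Module.End ℂ (Smooth n m)} (hD : IsInvariant D) {N : ℕ}
    {p : MvPolynomial (Coord n m) (Smooth n m)} (hp : (D, p) ∈ GG pdD N) : s0 p ∈ Good n m := by
  obtain ⟨f₁, f₂, hf⟩ := exists_re_im (s0 p)
  have hinv : Inv2 f₁ ∧ Inv2 f₂ := by
    have key : ∀ g ∈ Matrix.orthogonalGroup (Fin n) ℝ, ∀ ξ,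
        eval ξ (sub2 g f₁) = eval ξ f₁ ∧ eval ξ (sub2 g f₂) = eval ξ f₂ := by
      intro g hg ξ
      have h1 := symbol_inv hD hp hg ξ
      rw [hf, hf, ← eval_sub2, ← eval_sub2] at h1
      have hre := congrArg Complex.re h1
      have him := congrArg Complex.im h1
      simp at hre him
      exact ⟨hre, him⟩
    exact ⟨fun g hg => MvPolynomial.funext fun ξ => (key g hg ξ).1,
      fun g hg => MvPolynomial.funext fun ξ => (key g hg ξ).2⟩
  have h1 := good_psi (fft3 f₁ hinv.1)
  have h2 := good_psi (fft3 f₂ hinv.2)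
  have h3 : s0 p = psi n m f₁ + C Complex.I * psi n m f₂ := by
    have hev : ∀ (ξ : Sym2 (Fin n) ⊕ Fin n × Fin m → ℝ) (f : P2 (Fin n) (Fin m)),
        eval (eta ξ) (psi n m f) = (eval ξ f : ℂ) := by
      intro ξ f
      induction f using MvPolynomial.induction_on with
      | C a =>
        have : psi n m (C a) = C (a : ℂ) := by
          change psi n m (algebraMap ℝ _ a) = _
          rw [AlgHom.commutes]; rfl
        rw [this, eval_C, eval_C]
      | add p q hp hq => rw [map_add, map_add, map_add, hp, hq]; push_cast; ring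
      | mul_X p c hp =>
        rw [map_mul, map_mul, map_mul, hp, eval_X]
        push_cast
        congr 1
        rcases c with z | ⟨a, q⟩
        · rw [psi_inl, map_mul, eval_C, eval_X, eta, Sum.elim_inl]
          field_simp [cz_ne z]
        · rw [psi_inr, eval_X]; rfl
    refine MvPolynomial.funext_set (fun _ => Set.range ((↑) : ℝ → ℂ))
      (fun _ => Set.infinite_range_of_injective Complex.ofReal_injective) fun x hx => ?_
    have hx' : ∀ c, ∃ r : ℝ, (r : ℂ) = x c := fun c => hx c (Set.mem_univ c)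
    choose r hr using hx'
    have hcz : ∀ z : Sym2 (Fin n), ((cz z).re : ℂ) = cz z := by
      intro z
      induction z using Sym2.inductionOn with
      | hf i j =>
        rw [cz_mk, w]
        split_ifs <;> simp
    have hxe : x = eta (Sum.elim (fun z => r (Sum.inl z) * (cz z).re)
        (fun a => r (Sum.inr (a.2, a.1)))) := by
      funext c
      rcases c with z | ⟨k, l⟩
      · rw [eta, Sum.elim_inl, Sum.elim_inl]
        push_cast
        rw [hcz, mul_div_cancel_right₀ _ (cz_ne z), hr]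
      · exact (hr _).symm
    rw [hxe, hf, map_add, map_mul, eval_C, hev, hev]
  rw [h3]
  refine Subalgebra.add_mem _ h1 (Subalgebra.mul_mem _ ?_ h2)
  exact Subalgebra.algebraMap_mem _ Complex.I

/-! ### Differential operators and filtration -/

lemma isDiffOp_of_GG {N : ℕ} {x : Module.End ℂ (Smooth n m) × MvPolynomial (Coord n m) (Smooth n m)}
    (hx : x ∈ GG pdD N) : IsDiffOp x.1 := by
  classical
  unfold GG at hx
  induction hx using Submodule.span_induction with
  | mem x hx =>
    obtain ⟨u, hu, rfl⟩ := hx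
    refine ⟨{u}, fun _ => 1, ?_⟩
    rw [Finset.sum_singleton]
    have : mulOp (1 : Smooth n m) = 1 := by
      apply LinearMap.ext
      intro f
      exact one_mul f
    rw [this, one_mul]
    rfl
  | zero => exact ⟨∅, fun _ => 0, by simp⟩
  | add x y _ _ hx hy =>
    obtain ⟨s, a, hs⟩ := hx
    obtain ⟨t, b, ht⟩ := hy
    refine ⟨s ∪ t, fun u => (if u ∈ s then a u else 0) + (if u ∈ t then b u else 0), ?_⟩
    have h1 : ∀ c d : Smooth n m, mulOp (c + d) = mulOp c + mulOp d := fun c d => by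
      apply LinearMap.ext
      intro f
      exact add_mul c d f
    have h0 : mulOp (0 : Smooth n m) = 0 := by
      apply LinearMap.ext
      intro f
      exact zero_mul f
    simp_rw [h1, add_mul, Finset.sum_add_distrib]
    rw [Prod.fst_add, hs, ht]
    congr 1
    · rw [← Finset.sum_subset (Finset.subset_union_left (s₁ := s) (s₂ := t))]
      · exact Finset.sum_congr rfl fun u hu => by rw [if_pos hu]
      · intro u _ hu
        rw [if_neg hu, h0, zero_mul]
    · rw [← Finset.sum_subset (Finset.subset_union_right (s₁ := s) (s₂ := t))]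
      · exact Finset.sum_congr rfl fun u hu => by rw [if_pos hu]
      · intro u _ hu
        rw [if_neg hu, h0, zero_mul]
  | smul c x _ hx =>
    obtain ⟨s, a, hs⟩ := hx
    refine ⟨s, fun u => c * a u, ?_⟩
    rw [Prod.smul_fst, hs]
    apply LinearMap.ext
    intro f
    simp only [LinearMap.smul_apply, LinearMap.sum_apply, Module.End.mul_apply]
    rw [Finset.smul_sum]
    refine Finset.sum_congr rfl fun u _ => ?_
    change c * (a u * _) = (c * a u) * _
    rw [mul_assoc]

lemma exists_GG {D : Module.End ℂ (Smooth n m)} (hD : IsDiffOp D) : ∃ N p, (D, p) ∈ GG pdD N := by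
  obtain ⟨s, a, rfl⟩ := hD
  refine ⟨s.sup List.length + 1, 0, ?_⟩
  have h : ∀ u ∈ s, (mulOp (a u) * (u.map fun c => (pd c : Module.End ℂ (Smooth n m))).prod,
      (0 : MvPolynomial (Coord n m) (Smooth n m))) ∈ GG pdD (s.sup List.length + 1) := by
    intro u hu
    have hlt : u.length < s.sup List.length + 1 := by
      have := Finset.le_sup (f := List.length) hu
      omega
    have := Submodule.smul_mem _ (a u) (GG_gen_lt pdD u hlt)
    rw [Prod.smul_mk, smul_zero] at this
    exact this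
  have h2 := Submodule.sum_mem _ h
  have h3 : (∑ u ∈ s, (mulOp (a u) * (u.map fun c => (pd c : Module.End ℂ (Smooth n m))).prod,
      (0 : MvPolynomial (Coord n m) (Smooth n m)))) =
      (∑ u ∈ s, mulOp (a u) * (u.map fun c => (pd c : Module.End ℂ (Smooth n m))).prod, 0) := by
    ext1
    · rw [Prod.fst_sum]
    · rw [Prod.snd_sum]; simp
  rw [h3] at h2
  exact h2

lemma invariant_of_adjoin {D : Module.End ℂ (Smooth n m)} (hD : D ∈ Algebra.adjoin ℂ (gens n m)) :
    IsInvariant D := by
  induction hD using Algebra.adjoin_induction with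
  | mem D hD =>
    rcases hD with ⟨j, _, _, rfl⟩ | ⟨k, p, q, _, _, rfl⟩
    · exact Dop_invariant j
    · exact Omega_invariant k p q
  | algebraMap c =>
    intro A b f
    rw [Module.algebraMap_end_apply, Module.algebraMap_end_apply, map_smul]
  | add D E _ _ hD hE =>
    intro A b f
    rw [LinearMap.add_apply, LinearMap.add_apply, map_add, hD, hE]
  | mul D E _ _ hD hE =>
    intro A b f
    rw [Module.End.mul_apply, Module.End.mul_apply, hE, hD]

lemma GG_of_adjoin {D : Module.End ℂ (Smooth n m)} (hD : D ∈ Algebra.adjoin ℂ (gens n m)) :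
    ∃ N p, (D, p) ∈ GG pdD N := by
  induction hD using Algebra.adjoin_induction with
  | mem D hD =>
    rcases hD with ⟨j, _, _, rfl⟩ | ⟨k, p, q, _, _, rfl⟩
    · obtain ⟨p, hp, _⟩ := HS_Dop (n := n) (m := m) j
      exact ⟨_, _, hp⟩
    · obtain ⟨p, hp, _⟩ := HS_Omega (n := n) (m := m) k p q
      exact ⟨_, _, hp⟩
  | algebraMap c =>
    have h1 := GG_mulOp (der := pdD) (algebraMap ℂ (Smooth n m) c)
    refine ⟨0, C (algebraMap ℂ (Smooth n m) c), ?_⟩
    have e1 : (LinearMap.mulLeft ℂ (algebraMap ℂ (Smooth n m) c) : Module.End ℂ (Smooth n m)) =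
        algebraMap ℂ _ c := by
      apply LinearMap.ext
      intro f
      change (algebraMap ℂ (Smooth n m) c) * f = _
      rw [← Algebra.smul_def, Module.algebraMap_end_apply]
    rw [← e1]
    exact h1
  | add D E _ _ hD hE =>
    obtain ⟨N, p, hp⟩ := hD
    obtain ⟨M, q, hq⟩ := hE
    refine ⟨N + M + 1, 0, ?_⟩
    have h1 := GG_mono pdD (show N < N + M + 1 by omega) hp
    have h2 := GG_mono pdD (show M < N + M + 1 by omega) hq
    have := Submodule.add_mem _ h1 h2
    rw [Prod.mk_add_mk, add_zero] at this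
    exact this
  | mul D E _ _ hD hE =>
    obtain ⟨N, p, hp⟩ := hD
    obtain ⟨M, q, hq⟩ := hE
    exact ⟨N + M, p * q, GG_mul pdD hp hq⟩

end MinkowskiEuclid
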