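import Mathlib
import Pool.Agent.H1.ME.Main

/-!
# The main theorem: generators of `𝔻(P_{n,m})`
-/

open scoped ContDiff Matrix
open MEuclid H1.ME MvPolynomial

set_option linter.unusedSectionVars false
set_option linter.unusedSimpArgs false

namespace MinkowskiEuclid

variable {n m : ℕ}

/-- Induction on the order. -/
theorem mem_adjoin_of_order (N : ℕ) : ∀ (D : Module.End ℂ (Smooth n m)), IsInvariant D →
    (∃ p, (D, p) ∈ GG pdD N) → D ∈ Algebra.adjoin ℂ (gens n m) := by
  have step : ∀ (N : ℕ) (D : Module.End ℂ (Smooth n m)), IsInvariant D → (∃ p, (D, p) ∈ GG pdD N) →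
      ∃ E ∈ Algebra.adjoin ℂ (gens n m), IsInvariant (D - E) ∧ (D - E, 0) ∈ GG pdD N := by
    intro N D hD hp
    obtain ⟨p, hp⟩ := hp
    obtain ⟨E, hE, p', hp', hs⟩ := s0_good hD hp N
    have hEi := invariant_of_adjoin hE
    have hi : IsInvariant (D - E) := by
      intro A b f
      rw [LinearMap.sub_apply, LinearMap.sub_apply, map_sub, hD, hEi]
    have hm : (D - E, p - p') ∈ GG pdD N := by
      have h1 := (GG pdD N).smul_mem (-1 : Smooth n m) hp'
      have h2 := (GG pdD N).add_mem hp h1
      have e : (D, p) + (-1 : Smooth n m) • (E, p') = (D - E, p - p') := by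
        ext1
        · apply LinearMap.ext
          intro f
          change D f + (-1 : Smooth n m) * E f = D f - E f
          have h3 : (-1 : Smooth n m) * E f = - E f := by
            apply Subtype.ext
            funext x
            change (-1 : ℂ) * (E f).1 x = -((E f).1 x)
            ring
          rw [h3]
          exact (sub_eq_add_neg _ _).symm
        · simp [sub_eq_add_neg]
      rw [e] at h2
      exact h2
    have hz : s0 (p - p') = 0 := by
      have hh : homogeneousComponent N (s0 p) = s0 p := by
        have hq : (s0 p).IsHomogeneous N := (GG_homog hp).map _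
        rw [homogeneousComponent_of_mem hq, if_pos rfl]
      rw [hh] at hs
      have : s0 (p - p') = s0 p - s0 p' := by rw [s0, map_sub]; rfl
      rw [this, hs, sub_self]
    have h0 := symbol_zero hi hm hz
    rw [h0] at hm
    exact ⟨E, hE, hi, hm⟩
  induction N with
  | zero =>
    intro D hD hp
    obtain ⟨E, hE, _, hm⟩ := step 0 D hD hp
    have := GG_zero_eq pdD (fun c d f => pd_comm c d f) hm
    simp only [map_zero] at this
    have hDE : D = E := by
      apply LinearMap.ext
      intro f
      have h2 : (D - E) f = 0 := by rw [this]; rfl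
      rw [LinearMap.sub_apply] at h2
      exact sub_eq_zero.1 h2
    rw [hDE]
    exact hE
  | succ N ih =>
    intro D hD hp
    obtain ⟨E, hE, hi, hm⟩ := step (N + 1) D hD hp
    obtain ⟨q, hq⟩ := GG_sub_QQ pdD (fun c d f => pd_comm c d f) hm
    simp only [map_zero] at hq
    have e : D - E - 0 = D - E := by
      apply LinearMap.ext
      intro f
      exact sub_zero (D f - E f)
    rw [e] at hq
    have h1 := ih _ hi ⟨q, hq⟩
    have h2 := Subalgebra.add_mem _ h1 hE
    have e2 : D - E + E = D := by
      apply LinearMap.ext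
      intro f
      exact sub_add_cancel (D f) (E f)
    rw [e2] at h2
    exact h2

/-- **Main theorem.** -/
theorem main (n m : ℕ) :
    InvDiffOps n m = (Algebra.adjoin ℂ (gens n m) : Set (Module.End ℂ (Smooth n m))) := by
  ext D
  constructor
  · rintro ⟨h1, h2⟩
    obtain ⟨N, p, hp⟩ := exists_GG h1
    exact mem_adjoin_of_order N D h2 ⟨p, hp⟩
  · intro hD
    obtain ⟨N, p, hp⟩ := GG_of_adjoin hD
    exact ⟨isDiffOp_of_GG hp, invariant_of_adjoin hD⟩

end MinkowskiEuclid
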