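import Mathlib

/-!
# The Minkowski-Euclid space `P_{n,m}` and its invariant differential operators: definitions

A function on `P_{n,m}` is given by a function on the space of all coordinates, and an operator by a
map on such functions; only the values on the open set `P_{n,m}` and smooth functions count.
-/

set_option autoImplicit false

open scoped ContDiff Matrix

namespace MEu

/-- Index set of the coordinates: `Sum.inl s(i, j)` is the index of `y_{ij} = y_{ji}` (`s(i, j)` is the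
unordered pair), `Sum.inr (k, l)` the index of `v_{kl}`. -/
abbrev Coord (n m : ℕ) := Sym2 (Fin n) ⊕ (Fin m × Fin n)

/-- The coordinate space: real symmetric `n × n` matrices `Y` and real `m × n` matrices `V`. -/
abbrev Amb (n m : ℕ) := Coord n m → ℝ

variable {n m : ℕ}

/-- The symmetric matrix `Y` of a point. -/
def Y (x : Amb n m) : Matrix (Fin n) (Fin n) ℝ := fun i j => x (Sum.inl s(i, j))

/-- The `m × n` matrix `V` of a point. -/
def V (x : Amb n m) : Matrix (Fin m) (Fin n) ℝ := fun k l => x (Sum.inr (k, l))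

/-- The Minkowski-Euclid space `P_{n,m}`: the points whose matrix `Y` is positive definite. -/
def P (n m : ℕ) : Set (Amb n m) := {x | (Y x).PosDef}

/-- Complex valued functions. -/
abbrev Fn (n m : ℕ) := Amb n m → ℂ

/-- Operators. -/
abbrev Op (n m : ℕ) := Fn n m → Fn n m

/-- `f` is smooth on `P_{n,m}`. -/
def Sm (f : Fn n m) : Prop := ContDiffOn ℝ ∞ f (P n m)

/-- The partial derivative in the coordinate `c`. -/
noncomputable def pd (c : Coord n m) : Op n m := fun f x => fderiv ℝ f x (Pi.single c 1)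

/-- On the smooth functions on `P_{n,m}` the operator `D` is a finite sum of products
`a w₁ w₂ ⋯ w_r` with `a` in `A` (a multiplication operator) and `w_i` in `S`. -/
def IsComb (A : Set (Fn n m)) (S : Set (Op n m)) (D : Op n m) : Prop :=
  ∃ L : List (Fn n m × List (Op n m)), (∀ l ∈ L, l.1 ∈ A ∧ ∀ w ∈ l.2, w ∈ S) ∧
    ∀ f : Fn n m, Sm f → ∀ x ∈ P n m,
      D f x = (L.map fun l => l.1 x * l.2.foldr (fun w g => w g) f x).sum

/-- `D` is a linear differential operator on `P_{n,m}` with smooth coefficients. -/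
def IsDiffOp (D : Op n m) : Prop := IsComb {a | Sm a} (Set.range pd) D

/-- `D` commutes with all the maps `(Y, V) ↦ (A Y ᵗA, (V + b) ᵗA)` of `P_{n,m}`, `A ∈ GL(n, ℝ)`. -/
def IsInv (D : Op n m) : Prop :=
  ∀ (A : Matrix (Fin n) (Fin n) ℝ) (b : Matrix (Fin m) (Fin n) ℝ) (φ : Amb n m → Amb n m),
    A.det ≠ 0 → (∀ x, Y (φ x) = A * Y x * Aᵀ ∧ V (φ x) = (V x + b) * Aᵀ) →
    ∀ f : Fn n m, Sm f → ∀ x ∈ P n m, D (fun y => f (φ y)) x = D f (φ x)

/-- The entries of the matrix `∂/∂Y = ((1 + δ_ij)/2 ∂/∂y_ij)`. -/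
noncomputable def dY (i j : Fin n) : Op n m :=
  fun f x => (1 + if i = j then 1 else 0) / 2 * pd (Sum.inl s(i, j)) f x

/-- The matrix of operators `2 Y ∂/∂Y`, acting on columns of functions. -/
noncomputable def YdY (F : Fin n → Fn n m) : Fin n → Fn n m :=
  fun i x => 2 * ∑ q, ∑ j, (Y x i q : ℂ) * dY q j (F j) x

/-- `D_j = Tr((2 Y ∂/∂Y)^j)`; the `(i, i)` entry of the matrix applied to `f` is the `i`-th entry of
the matrix applied to the column with `i`-th entry `f` and the other entries `0`. -/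
noncomputable def Dop (j : ℕ) : Op n m := fun f => ∑ i, (YdY^[j] (Pi.single i f)) i

/-- `Ω^{(k)}_{pq} = {∂/∂V (2 Y ∂/∂Y)^k Y ᵗ(∂/∂V)}_{pq}`. -/
noncomputable def Omega (k : ℕ) (p q : Fin m) : Op n m := fun f => ∑ i, pd (Sum.inr (p, i))
  ((YdY^[k] fun l x => ∑ r, (Y x l r : ℂ) * pd (Sum.inr (q, r)) f x) i)

/-- The operators `D_j` (`1 ≤ j ≤ n`) and `Ω^{(k)}_{pq}` (`0 ≤ k ≤ n - 1`, `p ≤ q`). -/
def gens (n m : ℕ) : Set (Op n m) :=
  {D | ∃ j : ℕ, 1 ≤ j ∧ j ≤ n ∧ D = Dop j} ∪
    {D | ∃ (k : ℕ) (p q : Fin m), k ≤ n - 1 ∧ p ≤ q ∧ D = Omega k p q}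

/-- On smooth functions `D` is in the unital `ℂ`-algebra generated by the operators in `S`. -/
def InAlg (S : Set (Op n m)) (D : Op n m) : Prop :=
  IsComb (Set.range fun (c : ℂ) _ => c) S D

end MEu
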