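import Mathlib
import Pool.Agent.H1.ME.Final

/-!
# The main theorem for the definitions of `Stmt.lean`
-/

open scoped ContDiff Matrix

namespace MEuclid

variable {n m : ℕ}

/-- smooth functions as a vector space and as an algebra -/
noncomputable def eqS (n m : ℕ) : Smooth n m ≃ₗ[ℂ] MinkowskiEuclid.Smooth n m where
  toFun f := ⟨fn f, isSmooth_fn f⟩
  invFun g := toSmooth g.1 g.2
  map_add' _ _ := rfl
  map_smul' _ _ := rfl
  left_inv _ := rfl
  right_inv _ := rfl

noncomputable def eqE (n m : ℕ) : Op n m ≃ₐ[ℂ] Module.End ℂ (MinkowskiEuclid.Smooth n m) :=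
  (eqS n m).conjAlgEquiv ℂ

lemma eqE_apply (D : Op n m) (f : MinkowskiEuclid.Smooth n m) :
    eqE n m D f = eqS n m (D ((eqS n m).symm f)) := rfl

lemma eqE_mulOp (a : Smooth n m) : eqE n m (mulOp a) = MinkowskiEuclid.mulOp (eqS n m a) := by
  apply LinearMap.ext
  intro f
  rfl

lemma eqE_pd (c : Coord n m) : eqE n m (pd c) = MinkowskiEuclid.pd c := by
  apply LinearMap.ext
  intro f
  rfl

lemma eqE_pull (A : GL (Fin n) ℝ) (b : Matrix (Fin m) (Fin n) ℝ) :
    eqE n m (pull A b) = (MinkowskiEuclid.pull A b).toLinearMap := by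
  apply LinearMap.ext
  intro f
  rfl

lemma eqE_word (w : List (Coord n m)) : eqE n m (w.map pd).prod =
    (w.map fun c => (MinkowskiEuclid.pd c : Module.End ℂ (MinkowskiEuclid.Smooth n m))).prod := by
  rw [map_list_prod, List.map_map]
  congr 1

lemma isDiffOp_iff (D : Op n m) : IsDiffOp D ↔ MinkowskiEuclid.IsDiffOp (eqE n m D) := by
  constructor
  · rintro ⟨s, a, rfl⟩
    refine ⟨s, fun w => eqS n m (a w), ?_⟩
    rw [map_sum]
    refine Finset.sum_congr rfl fun w _ => ?_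
    rw [map_mul, eqE_mulOp, eqE_word]
  · rintro ⟨s, a, hs⟩
    refine ⟨s, fun w => (eqS n m).symm (a w), ?_⟩
    apply (eqE n m).injective
    rw [hs, map_sum]
    refine Finset.sum_congr rfl fun w _ => ?_
    rw [map_mul, eqE_mulOp, eqE_word, LinearEquiv.apply_symm_apply]

lemma isInvariant_iff (D : Op n m) : IsInvariant D ↔ MinkowskiEuclid.IsInvariant (eqE n m D) := by
  constructor
  · intro h A b f
    have h1 := congrArg (eqE n m) (h A b)
    rw [map_mul, map_mul, eqE_pull] at h1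
    exact congrArg (fun F : Module.End ℂ (MinkowskiEuclid.Smooth n m) => F f) h1
  · intro h A b
    apply (eqE n m).injective
    rw [map_mul, map_mul, eqE_pull]
    apply LinearMap.ext
    intro f
    exact h A b f

lemma eqE_YM : (YM n m).map (eqE n m) = MinkowskiEuclid.YM n m := by
  ext1 i j
  exact eqE_mulOp _

lemma eqE_dY : (dY n m).map (eqE n m) = MinkowskiEuclid.dY n m := by
  ext1 i j
  rw [Matrix.map_apply, dY, map_smul, eqE_pd]
  rfl

lemma eqE_dV : (dV n m).map (eqE n m) = MinkowskiEuclid.dV n m := by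
  ext1 i j
  exact eqE_pd _

lemma eqE_mul {k l r : ℕ} (A : Matrix (Fin k) (Fin l) (Op n m)) (B : Matrix (Fin l) (Fin r) (Op n m)) :
    (A * B).map (eqE n m) = A.map (eqE n m) * B.map (eqE n m) := by
  ext1 i j
  rw [Matrix.map_apply, Matrix.mul_apply, map_sum, Matrix.mul_apply]
  refine Finset.sum_congr rfl fun x _ => ?_
  rw [map_mul]
  rfl

lemma eqE_YdY : (YdY n m).map (eqE n m) = MinkowskiEuclid.YdY n m := by
  rw [MinkowskiEuclid.YdY, ← eqE_YM, ← eqE_dY, ← eqE_mul]
  ext1 i j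
  rw [Matrix.map_apply, YdY, Matrix.smul_apply, Matrix.smul_apply, map_nsmul]
  rfl

lemma eqE_pow (j : ℕ) : (YdY n m ^ j).map (eqE n m) = MinkowskiEuclid.YdY n m ^ j := by
  induction j with
  | zero =>
    ext1 i j
    rw [pow_zero, pow_zero, Matrix.map_apply]
    by_cases h : i = j
    · subst h; rw [Matrix.one_apply_eq, Matrix.one_apply_eq, map_one]
    · rw [Matrix.one_apply_ne h, Matrix.one_apply_ne h, map_zero]
  | succ j ih => rw [pow_succ, pow_succ, eqE_mul, ih, eqE_YdY]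

lemma eqE_Dop (j : ℕ) : eqE n m (Dop n m j) = MinkowskiEuclid.Dop n m j := by
  rw [Dop, MinkowskiEuclid.Dop, ← eqE_pow, Matrix.trace, Matrix.trace, map_sum]
  rfl

lemma eqE_Omega (k : ℕ) (p q : Fin m) :
    eqE n m (Omega n m k p q) = MinkowskiEuclid.Omega n m k p q := by
  have h : (dV n m * YdY n m ^ k * YM n m * (dV n m)ᵀ).map (eqE n m) =
      MinkowskiEuclid.dV n m * MinkowskiEuclid.YdY n m ^ k * MinkowskiEuclid.YM n m *
        (MinkowskiEuclid.dV n m)ᵀ := by
    rw [eqE_mul, eqE_mul, eqE_mul, eqE_pow, eqE_YM, eqE_dV, Matrix.transpose_map, eqE_dV]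
  exact congrFun (congrFun h p) q

lemma eqE_gens : (eqE n m) '' gens n m = MinkowskiEuclid.gens n m := by
  ext D
  constructor
  · rintro ⟨D, (⟨j, h1, h2, rfl⟩ | ⟨k, p, q, h1, h2, rfl⟩), rfl⟩
    · exact Or.inl ⟨j, h1, h2, eqE_Dop j⟩
    · exact Or.inr ⟨k, p, q, h1, h2, eqE_Omega k p q⟩
  · rintro (⟨j, h1, h2, rfl⟩ | ⟨k, p, q, h1, h2, rfl⟩)
    · exact ⟨_, Or.inl ⟨j, h1, h2, rfl⟩, eqE_Dop j⟩
    · exact ⟨_, Or.inr ⟨k, p, q, h1, h2, rfl⟩, eqE_Omega k p q⟩

/-- **Main theorem.** -/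
theorem main (n m : ℕ) :
    {D : Op n m | IsDiffOp D ∧ IsInvariant D} = (Algebra.adjoin ℂ (gens n m) : Set (Op n m)) := by
  ext D
  have h1 : D ∈ (Algebra.adjoin ℂ (gens n m) : Set (Op n m)) ↔
      eqE n m D ∈ Algebra.adjoin ℂ (MinkowskiEuclid.gens n m) := by
    rw [← eqE_gens]
    have h2 : Algebra.adjoin ℂ ((eqE n m) '' gens n m) =
        (Algebra.adjoin ℂ (gens n m)).map (eqE n m).toAlgHom :=
      (AlgHom.map_adjoin (eqE n m).toAlgHom (gens n m)).symm
    rw [h2]
    constructor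
    · intro h
      exact ⟨D, h, rfl⟩
    · rintro ⟨E, hE, hDE⟩
      have : E = D := (eqE n m).injective hDE
      rw [← this]; exact hE
  rw [h1]
  have h3 := MinkowskiEuclid.main n m
  have h4 : eqE n m D ∈ MinkowskiEuclid.InvDiffOps n m ↔
      eqE n m D ∈ (Algebra.adjoin ℂ (MinkowskiEuclid.gens n m) :
        Set (Module.End ℂ (MinkowskiEuclid.Smooth n m))) := by rw [h3]
  refine Iff.trans ?_ h4
  exact and_congr (isDiffOp_iff D) (isInvariant_iff D)

end MEuclid
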