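import Pool.Agent.H1.ME.SDefs
import Pool.Agent.H1.ME.Transport

/-!
# Comparison of the two forms of the definitions, and the theorem
-/

set_option autoImplicit false

open scoped ContDiff Matrix

namespace MEu

open MEuclid (Smooth toSmooth fn mulOp ext_of_mem isSmooth_fn fn_inj isOpen_P)

variable {n m : ℕ}

/-- `f` represents the smooth function `g` on `P`. -/
def Rep (f : Fn n m) (g : Smooth n m) : Prop := ∀ x : MEuclid.P n m, f x = fn g x

theorem Rep.eq_ext {f : Fn n m} {g : Smooth n m} (h : Rep f g) {x : Amb n m}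
    (hx : x ∈ MEuclid.P n m) : f x = MEuclid.ext (fn g) x := by
  rw [ext_of_mem _ hx]
  exact h ⟨x, hx⟩

theorem Rep.sm {f : Fn n m} {g : Smooth n m} (h : Rep f g) : Sm f :=
  ContDiffOn.congr (isSmooth_fn g) fun _ hx => h.eq_ext hx

theorem exists_rep {f : Fn n m} (hf : Sm f) : ∃ g : Smooth n m, Rep f g :=
  ⟨toSmooth (fun x => f x) (ContDiffOn.congr hf fun x hx => by rw [ext_of_mem _ hx]),
    fun _ => rfl⟩

theorem rep_ext (g : Smooth n m) : Rep (MEuclid.ext (fn g)) g := fun x =>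
  MEuclid.ext_coe (fn g) x

theorem Rep.uniq {f : Fn n m} {g g' : Smooth n m} (h : Rep f g) (h' : Rep f g') : g = g' :=
  fn_inj (funext fun x => (h x).symm.trans (h' x))

theorem Rep.zero : Rep (0 : Fn n m) 0 := fun _ => rfl

theorem Rep.add {f f' : Fn n m} {g g' : Smooth n m} (h : Rep f g) (h' : Rep f' g') :
    Rep (fun x => f x + f' x) (g + g') := fun x => by
  show f x + f' x = fn g x + fn g' x
  rw [h x, h' x]

theorem Rep.smul (c : ℂ) {f : Fn n m} {g : Smooth n m} (h : Rep f g) :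
    Rep (fun x => c * f x) (c • g) := fun x => by
  show c * f x = c * fn g x
  rw [h x]

theorem Rep.mul {a f : Fn n m} {b g : Smooth n m} (h : Rep a b) (h' : Rep f g) :
    Rep (fun x => a x * f x) (mulOp b g) := fun x => by
  show a x * f x = fn b x * fn g x
  rw [h x, h' x]

theorem Rep.sum {ι : Type} (s : Finset ι) {f : ι → Fn n m} {g : ι → Smooth n m}
    (h : ∀ i ∈ s, Rep (f i) (g i)) : Rep (fun x => ∑ i ∈ s, f i x) (∑ i ∈ s, g i) := by
  classical
  induction s using Finset.induction_on with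
  | empty => exact fun _ => rfl
  | insert i s hi ih =>
    simp only [Finset.sum_insert hi]
    exact (h i (Finset.mem_insert_self i s)).add
      (ih fun j hj => h j (Finset.mem_insert_of_mem hj))

theorem Rep.pd {f : Fn n m} {g : Smooth n m} (h : Rep f g) (c : Coord n m) :
    Rep (pd c f) (MEuclid.pd c g) := fun x => by
  show fderiv ℝ f x (Pi.single c 1) = fderiv ℝ (MEuclid.ext (fn g)) x (Pi.single c 1)
  have e : f =ᶠ[nhds (x : Amb n m)] MEuclid.ext (fn g) := by
    filter_upwards [isOpen_P.mem_nhds x.2] with y hy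
    exact h.eq_ext hy
  rw [e.fderiv_eq]

/-- `D` represents `T`. -/
def R (D : Op n m) (T : MEuclid.Op n m) : Prop := ∀ f g, Rep f g → Rep (D f) (T g)

theorem rep_coord (c : Coord n m) : Rep (fun x => ((x c : ℝ) : ℂ)) (MEuclid.coord c) :=
  fun _ => rfl

theorem R_dY (i j : Fin n) : R (dY i j : Op n m) (MEuclid.dY n m i j) := fun _ _ h =>
  (h.pd _).smul _

theorem R_YdY {F : Fin n → Fn n m} {g : Fin n → Smooth n m} (h : ∀ j, Rep (F j) (g j))
    (i : Fin n) : Rep (YdY F i) (∑ j, MEuclid.YdY n m i j (g j)) := by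
  have h1 : Rep (YdY F i) ((2 : ℂ) • ∑ q, ∑ j, MEuclid.YM n m i q (MEuclid.dY n m q j (g j))) := by
    refine Rep.smul 2 (Rep.sum _ fun q _ => Rep.sum _ fun j _ => ?_)
    exact (rep_coord (Sum.inl s(i, q))).mul (R_dY q j _ _ (h j))
  have h2 : (2 : ℂ) • ∑ q, ∑ j, MEuclid.YM n m i q (MEuclid.dY n m q j (g j)) =
      ∑ j, MEuclid.YdY n m i j (g j) := by
    rw [Finset.sum_comm, Finset.smul_sum]
    refine Finset.sum_congr rfl fun j _ => ?_
    have h3 : MEuclid.YdY n m i j = (2 : ℂ) • ∑ q, MEuclid.YM n m i q * MEuclid.dY n m q j := by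
      unfold MEuclid.YdY
      rw [Matrix.smul_apply, Matrix.mul_apply, two_smul, two_smul]
    rw [h3, LinearMap.smul_apply, LinearMap.sum_apply]
    rfl
  rw [← h2]
  exact h1

theorem R_pow {F : Fin n → Fn n m} {g : Fin n → Smooth n m} (h : ∀ j, Rep (F j) (g j))
    (k : ℕ) : ∀ i : Fin n, Rep (YdY^[k] F i) (∑ j, (MEuclid.YdY n m ^ k) i j (g j)) := by
  induction k with
  | zero =>
    intro i
    have h1 : ∑ j, (MEuclid.YdY n m ^ 0) i j (g j) = g i := by
      rw [pow_zero, Finset.sum_eq_single i]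
      · rw [Matrix.one_apply_eq]
        rfl
      · intro j _ hj
        rw [Matrix.one_apply_ne hj.symm]
        rfl
      · intro hi
        exact absurd (Finset.mem_univ i) hi
    rw [h1]
    exact h i
  | succ k ih =>
    intro i
    rw [Function.iterate_succ_apply']
    have h1 : ∑ j, (MEuclid.YdY n m ^ (k + 1)) i j (g j) =
        ∑ l, MEuclid.YdY n m i l (∑ j, (MEuclid.YdY n m ^ k) l j (g j)) := by
      simp only [map_sum]
      rw [Finset.sum_comm]
      refine Finset.sum_congr rfl fun j _ => ?_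
      rw [pow_succ', Matrix.mul_apply, LinearMap.sum_apply]
      rfl
    rw [h1]
    exact R_YdY ih i

theorem R_Dop (j : ℕ) : R (Dop j : Op n m) (MEuclid.Dop n m j) := by
  intro f g h
  have h1 : MEuclid.Dop n m j g = ∑ i, (MEuclid.YdY n m ^ j) i i g := by
    unfold MEuclid.Dop Matrix.trace
    rw [LinearMap.sum_apply]
    rfl
  have h2 : ∀ i : Fin n, (MEuclid.YdY n m ^ j) i i g =
      ∑ l, (MEuclid.YdY n m ^ j) i l ((Pi.single i g : Fin n → Smooth n m) l) := by
    intro i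
    rw [Finset.sum_eq_single i]
    · rw [Pi.single_eq_same]
    · intro l _ hl
      rw [Pi.single_eq_of_ne hl, map_zero]
    · intro hi
      exact absurd (Finset.mem_univ i) hi
  have h3 : (Dop j f : Fn n m) = fun x => ∑ i, (YdY^[j] (Pi.single i f) : Fin n → Fn n m) i x := by
    funext x
    unfold Dop
    rw [Finset.sum_apply]
  rw [h1, h3]
  refine Rep.sum _ fun i _ => ?_
  rw [h2 i]
  refine R_pow (fun l => ?_) j i
  by_cases hl : l = i
  · subst hl
    rw [Pi.single_eq_same, Pi.single_eq_same]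
    exact h
  · rw [Pi.single_eq_of_ne hl, Pi.single_eq_of_ne hl]
    exact Rep.zero

theorem R_Omega (k : ℕ) (p q : Fin m) : R (Omega k p q : Op n m) (MEuclid.Omega n m k p q) := by
  intro f g h
  have h1 : MEuclid.Omega n m k p q g = ∑ i, MEuclid.pd (Sum.inr (p, i))
      (∑ l, (MEuclid.YdY n m ^ k) i l (∑ r, MEuclid.YM n m l r (MEuclid.pd (Sum.inr (q, r)) g))) := by
    unfold MEuclid.Omega
    simp only [map_sum]
    rw [Matrix.mul_apply, LinearMap.sum_apply]
    have e : ∀ r : Fin n, ((MEuclid.dV n m * MEuclid.YdY n m ^ k * MEuclid.YM n m) p r *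
        (MEuclid.dV n m)ᵀ r q) g = ∑ i, ∑ l, MEuclid.pd (Sum.inr (p, i))
        ((MEuclid.YdY n m ^ k) i l (MEuclid.YM n m l r (MEuclid.pd (Sum.inr (q, r)) g))) := by
      intro r
      rw [Module.End.mul_apply, Matrix.mul_apply, LinearMap.sum_apply]
      rw [Finset.sum_comm]
      refine Finset.sum_congr rfl fun l _ => ?_
      rw [Module.End.mul_apply, Matrix.mul_apply, LinearMap.sum_apply]
      rfl
    rw [Finset.sum_congr rfl fun r _ => e r, Finset.sum_comm]
    refine Finset.sum_congr rfl fun i _ => ?_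
    rw [Finset.sum_comm]
  have h3 : (Omega k p q f : Fn n m) = fun x => ∑ i, pd (Sum.inr (p, i))
      ((YdY^[k] fun l x => ∑ r, (Y x l r : ℂ) * pd (Sum.inr (q, r)) f x) i) x := by
    funext x
    unfold Omega
    rw [Finset.sum_apply]
  rw [h1, h3]
  refine Rep.sum _ fun i _ => Rep.pd ?_ _
  refine R_pow (fun l => ?_) k i
  refine Rep.sum _ fun r _ => ?_
  exact (rep_coord (Sum.inl s(l, r))).mul (h.pd _)

/-! ### Words and combinations -/

theorem R_word {S : Set (Op n m)} {S' : Set (MEuclid.Op n m)}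
    (hS : ∀ w ∈ S, ∃ T ∈ S', R w T) (l : List (Op n m)) (hl : ∀ w ∈ l, w ∈ S) :
    ∃ l' : List (MEuclid.Op n m), (∀ T ∈ l', T ∈ S') ∧
      R (fun f => l.foldr (fun w g => w g) f) l'.prod := by
  induction l with
  | nil =>
    refine ⟨[], by simp, fun f g h => ?_⟩
    exact h
  | cons w l ih =>
    obtain ⟨l', h1, h2⟩ := ih fun w hw => hl w (List.mem_cons_of_mem _ hw)
    obtain ⟨T, hT, hwT⟩ := hS w (hl w List.mem_cons_self)
    refine ⟨T :: l', ?_, fun f g h => ?_⟩
    · intro U hU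
      rcases List.mem_cons.1 hU with rfl | hU
      · exact hT
      · exact h1 U hU
    · rw [List.prod_cons]
      exact hwT _ _ (h2 f g h)

theorem word_R {S : Set (Op n m)} {S' : Set (MEuclid.Op n m)}
    (hS : ∀ T ∈ S', ∃ w ∈ S, R w T) (l' : List (MEuclid.Op n m)) (hl : ∀ T ∈ l', T ∈ S') :
    ∃ l : List (Op n m), (∀ w ∈ l, w ∈ S) ∧
      R (fun f => l.foldr (fun w g => w g) f) l'.prod := by
  induction l' with
  | nil =>
    refine ⟨[], by simp, fun f g h => ?_⟩
    exact h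
  | cons T l' ih =>
    obtain ⟨l, h1, h2⟩ := ih fun w hw => hl w (List.mem_cons_of_mem _ hw)
    obtain ⟨w, hw, hwT⟩ := hS T (hl T List.mem_cons_self)
    refine ⟨w :: l, ?_, fun f g h => ?_⟩
    · intro U hU
      rcases List.mem_cons.1 hU with rfl | hU
      · exact hw
      · exact h1 U hU
    · rw [List.prod_cons]
      exact hwT _ _ (h2 f g h)

/-- the operator of a list -/
noncomputable def opL (L : List (Smooth n m × List (MEuclid.Op n m))) : MEuclid.Op n m :=
  (L.map fun l => mulOp l.1 * l.2.prod).sum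

/-- the operator of a list of functions -/
noncomputable def fnL (L : List (Fn n m × List (Op n m))) : Op n m :=
  fun f x => (L.map fun l => l.1 x * l.2.foldr (fun w g => w g) f x).sum

theorem R_comb {A : Set (Fn n m)} {S : Set (Op n m)} {B : Set (Smooth n m)}
    {S' : Set (MEuclid.Op n m)} (hA : ∀ a ∈ A, ∃ b ∈ B, Rep a b)
    (hS : ∀ w ∈ S, ∃ T ∈ S', R w T) (L : List (Fn n m × List (Op n m)))
    (hL : ∀ l ∈ L, l.1 ∈ A ∧ ∀ w ∈ l.2, w ∈ S) :
    ∃ L' : List (Smooth n m × List (MEuclid.Op n m)),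
      (∀ l ∈ L', l.1 ∈ B ∧ ∀ T ∈ l.2, T ∈ S') ∧ R (fnL L) (opL L') := by
  induction L with
  | nil => exact ⟨[], by simp, fun f g _ => Rep.zero⟩
  | cons l L ih =>
    obtain ⟨L', h1, h2⟩ := ih fun l hl => hL l (List.mem_cons_of_mem _ hl)
    obtain ⟨ha, hw⟩ := hL l List.mem_cons_self
    obtain ⟨b, hb, hab⟩ := hA _ ha
    obtain ⟨w', hw1, hw2⟩ := R_word hS _ hw
    refine ⟨(b, w') :: L', ?_, fun f g h => ?_⟩
    · intro U hU
      rcases List.mem_cons.1 hU with rfl | hU
      · exact ⟨hb, hw1⟩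
      · exact h1 U hU
    · have h3 := (hab.mul (hw2 f g h)).add (h2 f g h)
      have e : opL ((b, w') :: L') g = mulOp b (w'.prod g) + opL L' g := by
        unfold opL
        rw [List.map_cons, List.sum_cons, LinearMap.add_apply]
        rfl
      rw [e]
      have e2 : fnL (l :: L) f = fun x => l.1 x * l.2.foldr (fun w g => w g) f x + fnL L f x := by
        funext x
        unfold fnL
        rw [List.map_cons, List.sum_cons]
      rw [e2]
      exact h3

theorem comb_R {A : Set (Fn n m)} {S : Set (Op n m)} {B : Set (Smooth n m)}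
    {S' : Set (MEuclid.Op n m)} (hA : ∀ b ∈ B, ∃ a ∈ A, Rep a b)
    (hS : ∀ T ∈ S', ∃ w ∈ S, R w T) (L' : List (Smooth n m × List (MEuclid.Op n m)))
    (hL : ∀ l ∈ L', l.1 ∈ B ∧ ∀ T ∈ l.2, T ∈ S') :
    ∃ L : List (Fn n m × List (Op n m)),
      (∀ l ∈ L, l.1 ∈ A ∧ ∀ w ∈ l.2, w ∈ S) ∧ R (fnL L) (opL L') := by
  induction L' with
  | nil => exact ⟨[], by simp, fun f g _ => Rep.zero⟩
  | cons l L' ih =>
    obtain ⟨L, h1, h2⟩ := ih fun l hl => hL l (List.mem_cons_of_mem _ hl)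
    obtain ⟨ha, hw⟩ := hL l List.mem_cons_self
    obtain ⟨a, ha', hab⟩ := hA _ ha
    obtain ⟨w, hw1, hw2⟩ := word_R hS _ hw
    refine ⟨(a, w) :: L, ?_, fun f g h => ?_⟩
    · intro U hU
      rcases List.mem_cons.1 hU with rfl | hU
      · exact ⟨ha', hw1⟩
      · exact h1 U hU
    · have h3 := (hab.mul (hw2 f g h)).add (h2 f g h)
      have e : opL (l :: L') g = mulOp l.1 (l.2.prod g) + opL L' g := by
        unfold opL
        rw [List.map_cons, List.sum_cons, LinearMap.add_apply]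
        rfl
      rw [e]
      have e2 : fnL ((a, w) :: L) f =
          fun x => a x * w.foldr (fun w g => w g) f x + fnL L f x := by
        funext x
        unfold fnL
        rw [List.map_cons, List.sum_cons]
      rw [e2]
      exact h3

theorem R.congr {D D' : Op n m} {T : MEuclid.Op n m} (h : R D T)
    (hD : ∀ f : Fn n m, Sm f → ∀ x ∈ P n m, D' f x = D f x) : R D' T := by
  intro f g hfg x
  rw [hD f hfg.sm x x.2]
  exact h f g hfg x

theorem R.eq {D D' : Op n m} {T : MEuclid.Op n m} (h : R D T) (h' : R D' T) (f : Fn n m)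
    (hf : Sm f) (x : Amb n m) (hx : x ∈ P n m) : D f x = D' f x := by
  obtain ⟨g, hg⟩ := exists_rep hf
  exact (h f g hg ⟨x, hx⟩).trans (h' f g hg ⟨x, hx⟩).symm

theorem of_isComb {A : Set (Fn n m)} {S : Set (Op n m)} {B : Set (Smooth n m)}
    {S' : Set (MEuclid.Op n m)} (hA : ∀ a ∈ A, ∃ b ∈ B, Rep a b)
    (hS : ∀ w ∈ S, ∃ T ∈ S', R w T) {D : Op n m} (hD : IsComb A S D) :
    ∃ L' : List (Smooth n m × List (MEuclid.Op n m)),
      (∀ l ∈ L', l.1 ∈ B ∧ ∀ T ∈ l.2, T ∈ S') ∧ R D (opL L') := by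
  obtain ⟨L, hL, h⟩ := hD
  obtain ⟨L', h1, h2⟩ := R_comb hA hS L hL
  exact ⟨L', h1, h2.congr h⟩

theorem isComb_of {A : Set (Fn n m)} {S : Set (Op n m)} {B : Set (Smooth n m)}
    {S' : Set (MEuclid.Op n m)} (hA : ∀ b ∈ B, ∃ a ∈ A, Rep a b)
    (hS : ∀ T ∈ S', ∃ w ∈ S, R w T) {D : Op n m}
    (L' : List (Smooth n m × List (MEuclid.Op n m)))
    (hL : ∀ l ∈ L', l.1 ∈ B ∧ ∀ T ∈ l.2, T ∈ S') (hD : R D (opL L')) : IsComb A S D := by
  obtain ⟨L, h1, h2⟩ := comb_R hA hS L' hL
  exact ⟨L, h1, fun f hf x hx => hD.eq h2 f hf x hx⟩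

/-! ### Differential operators -/

theorem isDiffOp_zero : MEuclid.IsDiffOp (0 : MEuclid.Op n m) := ⟨∅, 0, by simp⟩

theorem isDiffOp_add (b : Smooth n m) (w : List (Coord n m)) {T : MEuclid.Op n m}
    (hT : MEuclid.IsDiffOp T) : MEuclid.IsDiffOp (mulOp b * (w.map MEuclid.pd).prod + T) := by
  classical
  obtain ⟨s, a, rfl⟩ := hT
  have hadd : ∀ a b : Smooth n m, (mulOp (a + b) : MEuclid.Op n m) = mulOp a + mulOp b := by
    intro a b
    refine LinearMap.ext fun f => fn_inj (funext fun x => ?_)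
    show (fn a x + fn b x) * fn f x = fn a x * fn f x + fn b x * fn f x
    ring
  have hzero : (mulOp (0 : Smooth n m) : MEuclid.Op n m) = 0 := by
    refine LinearMap.ext fun f => fn_inj (funext fun x => ?_)
    show (0 : ℂ) * fn f x = 0
    ring
  refine ⟨insert w s, fun v => (if v = w then b else 0) + (if v ∈ s then a v else 0), ?_⟩
  have h1 : ∀ v, mulOp ((if v = w then b else 0) + (if v ∈ s then a v else 0)) *
      (v.map MEuclid.pd).prod = (if v = w then mulOp b * (v.map MEuclid.pd).prod else 0) +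
        (if v ∈ s then mulOp (a v) * (v.map MEuclid.pd).prod else 0) := by
    intro v
    rw [hadd, add_mul]
    congr 1
    · split_ifs
      · rfl
      · rw [hzero, zero_mul]
    · split_ifs
      · rfl
      · rw [hzero, zero_mul]
  rw [Finset.sum_congr rfl fun v _ => h1 v, Finset.sum_add_distrib]
  congr 1
  · rw [Finset.sum_ite_eq' (insert w s) w, if_pos (Finset.mem_insert_self w s)]
  · rw [← Finset.sum_filter]
    refine Finset.sum_congr ?_ fun _ _ => rfl
    ext v
    simp only [Finset.mem_filter, Finset.mem_insert]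
    tauto

theorem isDiffOp_opL (L : List (Smooth n m × List (MEuclid.Op n m)))
    (hL : ∀ l ∈ L, ∀ T ∈ l.2, T ∈ Set.range MEuclid.pd) : MEuclid.IsDiffOp (opL L) := by
  induction L with
  | nil => exact isDiffOp_zero
  | cons l L ih =>
    have h1 := ih fun l hl => hL l (List.mem_cons_of_mem _ hl)
    have h2 : ∃ w : List (Coord n m), w.map MEuclid.pd = l.2 := by
      have h3 := hL l List.mem_cons_self
      generalize l.2 = k at h3
      induction k with
      | nil => exact ⟨[], rfl⟩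
      | cons T k ihk =>
        obtain ⟨w, hw⟩ := ihk fun T hT => h3 T (List.mem_cons_of_mem _ hT)
        obtain ⟨c, hc⟩ := h3 T List.mem_cons_self
        exact ⟨c :: w, by rw [List.map_cons, hw, hc]⟩
    obtain ⟨w, hw⟩ := h2
    have e : opL (l :: L) = mulOp l.1 * (w.map MEuclid.pd).prod + opL L := by
      unfold opL
      rw [List.map_cons, List.sum_cons, hw]
    rw [e]
    exact isDiffOp_add _ _ h1

theorem opL_of_isDiffOp {T : MEuclid.Op n m} (hT : MEuclid.IsDiffOp T) :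
    ∃ L : List (Smooth n m × List (MEuclid.Op n m)),
      (∀ l ∈ L, l.1 ∈ (Set.univ : Set (Smooth n m)) ∧ ∀ T ∈ l.2, T ∈ Set.range MEuclid.pd) ∧
        T = opL L := by
  obtain ⟨s, a, rfl⟩ := hT
  refine ⟨s.toList.map fun w => (a w, w.map MEuclid.pd), ?_, ?_⟩
  · intro l hl
    obtain ⟨w, -, rfl⟩ := List.mem_map.1 hl
    refine ⟨trivial, fun T hT => ?_⟩
    obtain ⟨c, -, rfl⟩ := List.mem_map.1 hT
    exact ⟨c, rfl⟩
  · unfold opL
    rw [List.map_map, Finset.sum_eq_multiset_sum, ← Finset.coe_toList s, Multiset.map_coe,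
      Multiset.sum_coe]
    rfl

/-! ### The algebra -/

/-- the constant function -/
def cst (c : ℂ) : Smooth n m := toSmooth (fun _ => c)
  (ContDiffOn.congr (contDiffOn_const (c := c)) fun x hx => by rw [ext_of_mem _ hx])

theorem mulOp_cst (c : ℂ) : (mulOp (cst c) : MEuclid.Op n m) = c • 1 := by
  refine LinearMap.ext fun f => fn_inj (funext fun x => ?_)
  rfl

theorem opL_mem (S' : Set (MEuclid.Op n m)) (L : List (Smooth n m × List (MEuclid.Op n m)))
    (hL : ∀ l ∈ L, l.1 ∈ Set.range (cst : ℂ → Smooth n m) ∧ ∀ T ∈ l.2, T ∈ S') :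
    opL L ∈ Algebra.adjoin ℂ S' := by
  unfold opL
  refine Subalgebra.list_sum_mem _ fun T hT => ?_
  obtain ⟨l, hl, rfl⟩ := List.mem_map.1 hT
  obtain ⟨⟨c, hc⟩, hw⟩ := hL l hl
  rw [← hc, mulOp_cst]
  refine Subalgebra.mul_mem _ (Subalgebra.smul_mem _ (Subalgebra.one_mem _) c) ?_
  exact Subalgebra.list_prod_mem _ fun T hT => Algebra.subset_adjoin (hw T hT)

theorem opL_append (L L' : List (Smooth n m × List (MEuclid.Op n m))) :
    opL (L ++ L') = opL L + opL L' := by
  unfold opL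
  rw [List.map_append, List.sum_append]

theorem exists_opL (S' : Set (MEuclid.Op n m)) {T : MEuclid.Op n m}
    (hT : T ∈ Algebra.adjoin ℂ S') : ∃ L : List (Smooth n m × List (MEuclid.Op n m)),
      (∀ l ∈ L, l.1 ∈ Set.range (cst : ℂ → Smooth n m) ∧ ∀ T ∈ l.2, T ∈ S') ∧ T = opL L := by
  rw [← Subalgebra.mem_toSubmodule, Algebra.adjoin_eq_span] at hT
  induction hT using Submodule.span_induction with
  | mem T hT =>
    obtain ⟨l, hl, rfl⟩ := Submonoid.exists_list_of_mem_closure hT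
    refine ⟨[(cst 1, l)], ?_, ?_⟩
    · intro k hk
      rw [List.mem_singleton] at hk
      subst hk
      exact ⟨⟨1, rfl⟩, hl⟩
    · unfold opL
      rw [List.map_singleton, List.sum_singleton, mulOp_cst, one_smul, one_mul]
  | zero => exact ⟨[], by simp, rfl⟩
  | add T T' _ _ ih ih' =>
    obtain ⟨L, h1, rfl⟩ := ih
    obtain ⟨L', h1', rfl⟩ := ih'
    refine ⟨L ++ L', ?_, (opL_append L L').symm⟩
    intro l hl
    rcases List.mem_append.1 hl with hl | hl
    · exact h1 l hl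
    · exact h1' l hl
  | smul c T _ ih =>
    obtain ⟨L, h1, rfl⟩ := ih
    have h2 : ∀ L : List (Smooth n m × List (MEuclid.Op n m)),
        (∀ l ∈ L, l.1 ∈ Set.range (cst : ℂ → Smooth n m) ∧ ∀ T ∈ l.2, T ∈ S') →
        ∃ L' : List (Smooth n m × List (MEuclid.Op n m)),
          (∀ l ∈ L', l.1 ∈ Set.range (cst : ℂ → Smooth n m) ∧ ∀ T ∈ l.2, T ∈ S') ∧
            c • opL L = opL L' := by
      intro L
      induction L with
      | nil => exact fun _ => ⟨[], by simp, by simp [opL]⟩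
      | cons l L ihL =>
        intro hL
        obtain ⟨L', h3, h4⟩ := ihL fun l hl => hL l (List.mem_cons_of_mem _ hl)
        obtain ⟨⟨d, hd⟩, hw⟩ := hL l List.mem_cons_self
        refine ⟨(cst (c * d), l.2) :: L', ?_, ?_⟩
        · intro k hk
          rcases List.mem_cons.1 hk with rfl | hk
          · exact ⟨⟨c * d, rfl⟩, hw⟩
          · exact h3 k hk
        · have e1 : opL (l :: L) = mulOp l.1 * l.2.prod + opL L := by
            unfold opL
            rw [List.map_cons, List.sum_cons]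
          have e2 : opL ((cst (c * d), l.2) :: L') = mulOp (cst (c * d)) * l.2.prod + opL L' := by
            unfold opL
            rw [List.map_cons, List.sum_cons]
          rw [e1, e2, ← h4, smul_add, ← hd, mulOp_cst, mulOp_cst, smul_mul_assoc, one_mul,
            smul_mul_assoc, one_mul, smul_smul]
    obtain ⟨L', h3, h4⟩ := h2 L h1
    exact ⟨L', h3, h4⟩

/-! ### Invariance -/

theorem actAmb_prop (A : Matrix (Fin n) (Fin n) ℝ) (b : Matrix (Fin m) (Fin n) ℝ) (x : Amb n m) :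
    Y (MEuclid.actAmb A b x) = A * Y x * Aᵀ ∧ V (MEuclid.actAmb A b x) = (V x + b) * Aᵀ :=
  ⟨rfl, rfl⟩

theorem eq_actAmb {A : Matrix (Fin n) (Fin n) ℝ} {b : Matrix (Fin m) (Fin n) ℝ}
    {φ : Amb n m → Amb n m}
    (h : ∀ x, Y (φ x) = A * Y x * Aᵀ ∧ V (φ x) = (V x + b) * Aᵀ) (x : Amb n m) :
    φ x = MEuclid.actAmb A b x := by
  obtain ⟨h1, h2⟩ := h x
  obtain ⟨h3, h4⟩ := actAmb_prop A b x
  funext c
  rcases c with z | ⟨k, l⟩
  · induction z using Sym2.inductionOn with
    | hf i j => exact congrFun (congrFun (h1.trans h3.symm) i) j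
  · exact congrFun (congrFun (h2.trans h4.symm) k) l

theorem isInv_iff {D : Op n m} {T : MEuclid.Op n m} (h : R D T) :
    IsInv D ↔ MEuclid.IsInvariant T := by
  have hpull : ∀ (A : GL (Fin n) ℝ) (b : Matrix (Fin m) (Fin n) ℝ) (f : Fn n m)
      (g : Smooth n m), Rep f g →
      Rep (fun y => f (MEuclid.actAmb A.1 b y)) (MEuclid.pull A b g) := by
    intro A b f g hfg x
    exact hfg (MEuclid.act A b x)
  constructor
  · intro hI A b
    refine LinearMap.ext fun g => fn_inj (funext fun x => ?_)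
    have h1 := rep_ext g
    have h2 := h _ _ (hpull A b _ _ h1) x
    have h3 := hI A.1 b (MEuclid.actAmb A.1 b) (by
      have := A.isUnit
      rw [Matrix.isUnit_iff_isUnit_det] at this
      exact this.ne_zero) (actAmb_prop A.1 b) _ h1.sm x x.2
    have h4 := h _ _ h1 (MEuclid.act A b x)
    show fn (T (MEuclid.pull A b g)) x = fn (T g) (MEuclid.act A b x)
    rw [← h2, ← h4]
    exact h3
  · intro hI A b φ hA hφ f hf x hx
    obtain ⟨g, hg⟩ := exists_rep hf
    have hφ' : φ = MEuclid.actAmb A b := funext (eq_actAmb hφ)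
    subst hφ'
    let A' : GL (Fin n) ℝ := Matrix.GeneralLinearGroup.mkOfDetNeZero A hA
    have h1 := h _ _ (hpull A' b _ _ hg) ⟨x, hx⟩
    have h2 := h _ _ hg (MEuclid.act A' b ⟨x, hx⟩)
    have h3 : T (MEuclid.pull A' b g) = MEuclid.pull A' b (T g) := by
      have := congrArg (fun U : MEuclid.Op n m => U g) (hI A' b)
      exact this
    rw [h3] at h1
    exact h1.trans h2.symm

/-! ### The theorem -/

theorem pd_corr : (∀ w ∈ Set.range (pd : Coord n m → Op n m), ∃ T ∈ Set.range MEuclid.pd, R w T) ∧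
    ∀ T ∈ Set.range (MEuclid.pd : Coord n m → MEuclid.Op n m), ∃ w ∈ Set.range pd, R w T := by
  constructor
  · rintro _ ⟨c, rfl⟩
    exact ⟨_, ⟨c, rfl⟩, fun _ _ h => h.pd c⟩
  · rintro _ ⟨c, rfl⟩
    exact ⟨_, ⟨c, rfl⟩, fun _ _ h => h.pd c⟩

theorem gens_corr : (∀ w ∈ gens n m, ∃ T ∈ MEuclid.gens n m, R w T) ∧
    ∀ T ∈ MEuclid.gens n m, ∃ w ∈ gens n m, R w T := by
  constructor
  · rintro _ (⟨j, h1, h2, rfl⟩ | ⟨k, p, q, h1, h2, rfl⟩)
    · exact ⟨_, Or.inl ⟨j, h1, h2, rfl⟩, R_Dop j⟩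
    · exact ⟨_, Or.inr ⟨k, p, q, h1, h2, rfl⟩, R_Omega k p q⟩
  · rintro _ (⟨j, h1, h2, rfl⟩ | ⟨k, p, q, h1, h2, rfl⟩)
    · exact ⟨_, Or.inl ⟨j, h1, h2, rfl⟩, R_Dop j⟩
    · exact ⟨_, Or.inr ⟨k, p, q, h1, h2, rfl⟩, R_Omega k p q⟩

theorem cst_corr : (∀ a ∈ Set.range (fun (c : ℂ) (_ : Amb n m) => c),
      ∃ b ∈ Set.range (cst : ℂ → Smooth n m), Rep a b) ∧
    ∀ b ∈ Set.range (cst : ℂ → Smooth n m),
      ∃ a ∈ Set.range (fun (c : ℂ) (_ : Amb n m) => c), Rep a b := by
  constructor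
  · rintro _ ⟨c, rfl⟩
    exact ⟨_, ⟨c, rfl⟩, fun _ => rfl⟩
  · rintro _ ⟨c, rfl⟩
    exact ⟨_, ⟨c, rfl⟩, fun _ => rfl⟩

theorem sm_corr : (∀ a ∈ {a : Fn n m | Sm a}, ∃ b ∈ (Set.univ : Set (Smooth n m)), Rep a b) ∧
    ∀ b ∈ (Set.univ : Set (Smooth n m)), ∃ a ∈ {a : Fn n m | Sm a}, Rep a b := by
  constructor
  · intro a ha
    obtain ⟨b, hb⟩ := exists_rep ha
    exact ⟨b, trivial, hb⟩
  · intro b _
    exact ⟨_, (rep_ext b).sm, rep_ext b⟩

theorem main (n m : ℕ) (D : Op n m) : IsDiffOp D ∧ IsInv D ↔ InAlg (gens n m) D := by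
  constructor
  · rintro ⟨h1, h2⟩
    obtain ⟨L, hL, hR⟩ := of_isComb sm_corr.1 pd_corr.1 h1
    have h3 : opL L ∈ {T : MEuclid.Op n m | MEuclid.IsDiffOp T ∧ MEuclid.IsInvariant T} :=
      ⟨isDiffOp_opL L fun l hl => (hL l hl).2, (isInv_iff hR).1 h2⟩
    rw [MEuclid.main n m] at h3
    obtain ⟨L', hL', e⟩ := exists_opL _ h3
    rw [e] at hR
    exact isComb_of cst_corr.2 gens_corr.2 L' hL' hR
  · intro h
    obtain ⟨L, hL, hR⟩ := of_isComb cst_corr.1 gens_corr.1 h
    have h3 : opL L ∈ (Algebra.adjoin ℂ (MEuclid.gens n m) : Set (MEuclid.Op n m)) :=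
      opL_mem _ L hL
    rw [← MEuclid.main n m] at h3
    obtain ⟨L', hL', e⟩ := opL_of_isDiffOp h3.1
    refine ⟨?_, (isInv_iff hR).2 h3.2⟩
    rw [e] at hR
    exact isComb_of sm_corr.2 pd_corr.2 L' hL' hR

end MEu
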